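import Mathlib
set_option autoImplicit false
open Finset BigOperators
namespace Pool.Agent.TH268.TB

theorem gibbs_eigen {n : Type} [Fintype n] [DecidableEq n] (H : Matrix n n ℂ) (hH : H.IsHermitian) :
    ∃ (ψ : n → n → ℂ) (E : n → ℝ),
      (∀ m, ∑ x, ‖ψ m x‖ ^ 2 = 1) ∧
      (∀ v : n → ℂ, ∑ m, ‖∑ x, (starRingEnd ℂ) (ψ m x) * v x‖ ^ 2 = ∑ x, ‖v x‖ ^ 2) ∧
      (∀ v : n → ℂ, ∑ x, (starRingEnd ℂ) (v x) * (H.mulVec v) x =
        ((∑ m, E m * ‖∑ x, (starRingEnd ℂ) (ψ m x) * v x‖ ^ 2 : ℝ) : ℂ)) ∧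
      ∀ (β : ℝ) (O : Matrix n n ℂ), (NormedSpace.exp ((-(β : ℂ)) • H) * O).trace =
        ∑ m, (Real.exp (-(β * E m)) : ℂ) * ∑ x, (starRingEnd ℂ) (ψ m x) * (O.mulVec (ψ m)) x := by
  obtain ⟨U, D, h1, h2, h3⟩ : ∃ (U : Matrix n n ℂ) (D : n → ℝ), star U * U = 1 ∧ U * star U = 1 ∧
      H = U * Matrix.diagonal (fun i => (D i : ℂ)) * star U := by
    refine ⟨(hH.eigenvectorUnitary : Matrix n n ℂ), hH.eigenvalues, ?_, ?_, ?_⟩
    · exact Unitary.coe_star_mul_self hH.eigenvectorUnitary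
    · exact Unitary.coe_mul_star_self hH.eigenvectorUnitary
    · have := hH.spectral_theorem
      rw [Unitary.conjStarAlgAut_apply] at this
      exact this
  have hw : ∀ v : n → ℂ, ∀ m, ∑ x, (starRingEnd ℂ) (U x m) * v x = ((star U).mulVec v) m := by
    intro v m
    rfl
  have hnorm : ∀ w : n → ℂ, ((∑ x, ‖w x‖ ^ 2 : ℝ) : ℂ) = star w ⬝ᵥ w := by
    intro w
    simp only [dotProduct, Pi.star_apply, RCLike.star_def, Complex.conj_mul', Complex.ofReal_sum,
      Complex.ofReal_pow]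
  refine ⟨fun m x => U x m, D, ?_, ?_, ?_, ?_⟩
  · intro m
    have h4 : (star U * U) m m = 1 := by rw [h1, Matrix.one_apply_eq]
    have h5 : ((∑ x, ‖U x m‖ ^ 2 : ℝ) : ℂ) = 1 := by
      rw [← h4, hnorm (fun x => U x m)]
      rfl
    exact_mod_cast h5
  · intro v
    simp_rw [hw]
    have h4 : ((∑ m, ‖((star U).mulVec v) m‖ ^ 2 : ℝ) : ℂ) = ((∑ x, ‖v x‖ ^ 2 : ℝ) : ℂ) := by
      rw [hnorm, hnorm, Matrix.star_mulVec, ← Matrix.dotProduct_mulVec, Matrix.mulVec_mulVec,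
        Matrix.star_eq_conjTranspose, Matrix.conjTranspose_conjTranspose]
      have h6 : U * U.conjTranspose = 1 := h2
      rw [h6, Matrix.one_mulVec]
    exact_mod_cast h4
  · intro v
    simp_rw [hw]
    have h4 : ∑ x, (starRingEnd ℂ) (v x) * (H.mulVec v) x = star v ⬝ᵥ H.mulVec v := rfl
    rw [h4, h3, Matrix.mul_assoc, ← Matrix.mulVec_mulVec, ← Matrix.mulVec_mulVec,
      Matrix.dotProduct_mulVec]
    have h5 : Matrix.vecMul (star v) U = star ((star U).mulVec v) := by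
      rw [Matrix.star_mulVec, Matrix.star_eq_conjTranspose, Matrix.conjTranspose_conjTranspose]
    rw [h5]
    simp only [dotProduct, Matrix.mulVec_diagonal, Pi.star_apply, RCLike.star_def,
      Complex.ofReal_sum, Complex.ofReal_mul, Complex.ofReal_pow]
    refine Finset.sum_congr rfl fun m _ => ?_
    rw [← Complex.conj_mul']
    ring
  · intro β O
    have hU : IsUnit U := by
      exact IsUnit.of_mul_eq_one _ h2
    have hinv : U⁻¹ = star U := Matrix.inv_eq_right_inv h2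
    have h4 : (-(β : ℂ)) • H = U * Matrix.diagonal (fun i => (-(β : ℂ)) * (D i : ℂ)) * U⁻¹ := by
      rw [hinv, h3]
      have : Matrix.diagonal (fun i => (-(β : ℂ)) * (D i : ℂ)) =
          (-(β : ℂ)) • Matrix.diagonal (fun i => (D i : ℂ)) := by
        ext i j
        by_cases hij : i = j
        · subst hij; simp
        · simp [hij]
      rw [this, Matrix.mul_smul, Matrix.smul_mul]
    rw [h4, Matrix.exp_conj _ _ hU, Matrix.exp_diagonal, hinv, Matrix.mul_assoc, Matrix.mul_assoc,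
      Matrix.trace_mul_comm, Matrix.mul_assoc, Matrix.mul_assoc]
    rw [Matrix.trace]
    refine Finset.sum_congr rfl fun m _ => ?_
    rw [Matrix.diag_apply, Matrix.diagonal_mul]
    congr 1
    · rw [Pi.coe_exp, ← Complex.exp_eq_exp_ℂ]
      push_cast
      ring_nf
end Pool.Agent.TH268.TB
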