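import Pool.Agent.H11R2.BEC3.Model

/-!
# Thermal equilibrium states of hard-core lattice bosons on a torus

The sites, the Fock space, the periodisation of kernels are those of
`Pool.Agent.H11R2.BEC3.Model` (namespace `Pool.Agent.H11R2.LatticeBose`).
-/

set_option autoImplicit false

open Finset BigOperators

namespace Pool.Agent.TH268.ThermalBose

open Pool.Agent.H11R2.LatticeBose

/-- Matrices of operators on the Fock space, in the basis of the occupation configurations. -/
abbrev Op (d J : ℕ) := Matrix (Torus d J → Bool) (Torus d J → Bool) ℂ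

/-- The matrix of the annihilation operator `b_x`: it maps the configuration with a particle at `x`
to the one without, and kills the configurations without a particle at `x`. -/
def annihOp {d J : ℕ} (x : Torus d J) : Op d J :=
  fun η ζ => if η x = false ∧ ζ = Function.update η x true then 1 else 0

/-- The Hamiltonian `H = - ∑_{x ≠ y} K_J (y - x) b_x† b_y - h ∑_x b_x† b_x`, where `K_J` is the
periodisation of the kernel `K`. -/
noncomputable def hamiltonian {d : ℕ} (K : (Fin d → ℤ) → ℝ) (h : ℝ) (J : ℕ) : Op d J :=
  - (∑ x : Torus d J, ∑ y : Torus d J, if x = y then 0 else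
      ((periodize K J (y - x) : ℝ) : ℂ) • ((annihOp x).conjTranspose * annihOp y))
    - (h : ℂ) • ∑ x : Torus d J, (annihOp x).conjTranspose * annihOp x

/-- The expectation `tr (exp (- β H) A) / tr (exp (- β H))` of the operator `A` in the grand
canonical Gibbs state at the inverse temperature `β`. -/
noncomputable def gibbs {d J : ℕ} (β : ℝ) (H A : Op d J) : ℂ :=
  (NormedSpace.exp ((-(β : ℂ)) • H) * A).trace / (NormedSpace.exp ((-(β : ℂ)) • H)).trace

/-- The density of particles in the Gibbs state, `V⁻¹ ∑_x ⟨b_x† b_x⟩`, `V = 2^(d J)`. -/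
noncomputable def thermalDensity {d : ℕ} (K : (Fin d → ℤ) → ℝ) (h β : ℝ) (J : ℕ) : ℝ :=
  (∑ x : Torus d J, (gibbs β (hamiltonian K h J) ((annihOp x).conjTranspose * annihOp x)).re) /
    2 ^ (d * J)

/-- The density of the condensate in the Gibbs state, i.e. the density of particles in the zero
momentum mode, `V⁻² ∑_{x,y} ⟨b_x† b_y⟩`, `V = 2^(d J)`. -/
noncomputable def thermalCondensate {d : ℕ} (K : (Fin d → ℤ) → ℝ) (h β : ℝ) (J : ℕ) : ℝ :=
  (∑ x : Torus d J, ∑ y : Torus d J,
    (gibbs β (hamiltonian K h J) ((annihOp x).conjTranspose * annihOp y)).re) / (2 ^ (d * J)) ^ 2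

end Pool.Agent.TH268.ThermalBose
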