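import Pool.Agent.TH268.TB.Sub
import Pool.Agent.TH268.TB.GE
import Pool.Agent.TH268.TB.Model
import Pool.Agent.H11R2.BEC3.Final

/-!
# The Gibbs state of the lattice model in an eigenfamily
-/

set_option autoImplicit false
open Finset BigOperators
namespace Pool.Agent.TH268.TB
open Pool.Agent.H11R2.BEC
open Pool.Agent.TH268.ThermalBose Pool.Agent.H11R2.LatticeBose

theorem annihOp_mulVec {d J : ℕ} (x : Torus d J) (v : Vec d J) :
    (annihOp x).mulVec v = annih x v := by
  funext η
  unfold Matrix.mulVec dotProduct annihOp annih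
  rw [Finset.sum_eq_single (Function.update η x true)]
  · cases h : η x <;> simp
  · intro ζ _ hζ
    show (if η x = false ∧ ζ = Function.update η x true then (1 : ℂ) else 0) * v ζ = 0
    rw [if_neg (fun h => hζ h.2), zero_mul]
  · intro h
    exact absurd (Finset.mem_univ _) h

theorem gip_annih {d J : ℕ} (x y : Torus d J) (v : Vec d J) :
    ∑ η, (starRingEnd ℂ) (v η) * (((annihOp x).conjTranspose * annihOp y).mulVec v) η =
      ∑ η, (starRingEnd ℂ) (annih x v η) * annih y v η := by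
  have h1 : ∑ η, (starRingEnd ℂ) (v η) * (((annihOp x).conjTranspose * annihOp y).mulVec v) η =
      star v ⬝ᵥ ((annihOp x).conjTranspose * annihOp y).mulVec v := rfl
  rw [h1, ← Matrix.mulVec_mulVec, Matrix.dotProduct_mulVec]
  have h2 : Matrix.vecMul (star v) (annihOp x).conjTranspose = star ((annihOp x).mulVec v) := by
    rw [Matrix.star_mulVec]
  rw [h2, annihOp_mulVec, annihOp_mulVec]
  rfl

theorem gip_annih_re {d J : ℕ} (x y : Torus d J) (v : Vec d J) :
    (∑ η, (starRingEnd ℂ) (v η) * (((annihOp x).conjTranspose * annihOp y).mulVec v) η).re =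
      corr v x y := by
  rw [gip_annih]
  rfl

theorem periodize_hop_neg {d J : ℕ} (σ : ℝ) (w : Torus d J) :
    periodize (hopping d σ) J (-w) = periodize (hopping d σ) J w := by
  unfold periodize
  rw [← (Equiv.neg (Fin d → ℤ)).tsum_eq]
  congr 1
  funext z
  have h1 : ((fun ν => (((Equiv.neg (Fin d → ℤ) z) ν : ℤ) : ZMod (2 ^ J))) = -w) ↔
      ((fun ν => ((z ν : ℤ) : ZMod (2 ^ J))) = w) := by
    have h2 : (fun ν => (((Equiv.neg (Fin d → ℤ) z) ν : ℤ) : ZMod (2 ^ J))) =
        -(fun ν => ((z ν : ℤ) : ZMod (2 ^ J))) := by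
      funext ν
      simp
    rw [h2, neg_inj]
  by_cases h : (fun ν => ((z ν : ℤ) : ZMod (2 ^ J))) = w
  · rw [if_pos h, if_pos (h1.2 h)]
    exact hopping_neg σ z
  · rw [if_neg h, if_neg (fun h2 => h (h1.1 h2))]

theorem hamiltonian_herm {d J : ℕ} (σ h : ℝ) : (hamiltonian (hopping d σ) h J).IsHermitian := by
  unfold hamiltonian Matrix.IsHermitian
  rw [Matrix.conjTranspose_sub, Matrix.conjTranspose_neg, Matrix.conjTranspose_sum,
    Matrix.conjTranspose_smul, Matrix.conjTranspose_sum]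
  congr 1
  · congr 1
    simp_rw [Matrix.conjTranspose_sum]
    rw [Finset.sum_comm]
    refine Finset.sum_congr rfl fun x _ => Finset.sum_congr rfl fun y _ => ?_
    by_cases hxy : x = y
    · rw [if_pos hxy, if_pos hxy.symm, Matrix.conjTranspose_zero]
    · rw [if_neg hxy, if_neg (Ne.symm hxy), Matrix.conjTranspose_smul, Matrix.conjTranspose_mul,
        Matrix.conjTranspose_conjTranspose, ← neg_sub y x, periodize_hop_neg]
      congr 1
      exact Complex.conj_ofReal _
  · congr 1
    · exact Complex.conj_ofReal _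
    · refine Finset.sum_congr rfl fun x _ => ?_
      rw [Matrix.conjTranspose_mul, Matrix.conjTranspose_conjTranspose]

/-- the expectation as a linear functional of the operator -/
noncomputable def expL {d J : ℕ} (v : Vec d J) : Op d J →ₗ[ℂ] ℂ where
  toFun A := ∑ η, (starRingEnd ℂ) (v η) * (A.mulVec v) η
  map_add' A B := by
    rw [← Finset.sum_add_distrib]
    refine Finset.sum_congr rfl fun η _ => ?_
    rw [Matrix.add_mulVec, Pi.add_apply, mul_add]
  map_smul' c A := by
    rw [RingHom.id_apply, smul_eq_mul, Finset.mul_sum]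
    refine Finset.sum_congr rfl fun η _ => ?_
    rw [Matrix.smul_mulVec, Pi.smul_apply, smul_eq_mul]
    ring

theorem expL_apply {d J : ℕ} (v : Vec d J) (A : Op d J) :
    expL v A = ∑ η, (starRingEnd ℂ) (v η) * (A.mulVec v) η := rfl

theorem expL_re {d J : ℕ} (x y : Torus d J) (v : Vec d J) :
    (expL v ((annihOp x).conjTranspose * annihOp y)).re = corr v x y := gip_annih_re x y v

theorem gip_ham {d J : ℕ} (σ h : ℝ) (v : Vec d J) :
    (∑ η, (starRingEnd ℂ) (v η) * ((hamiltonian (hopping d σ) h J).mulVec v) η).re =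
      - (∑ x : Torus d J, ∑ y : Torus d J,
        if x = y then 0 else periodize (hopping d σ) J (y - x) * corr v x y) -
      h * ∑ x : Torus d J, corr v x x := by
  rw [← expL_apply]
  unfold hamiltonian
  rw [map_sub, map_neg, map_sum, map_smul, map_sum, Complex.sub_re, Complex.neg_re, Complex.re_sum,
    smul_eq_mul, Complex.re_ofReal_mul, Complex.re_sum]
  simp_rw [expL_re]
  congr 2
  refine Finset.sum_congr rfl fun x _ => ?_
  rw [map_sum, Complex.re_sum]
  refine Finset.sum_congr rfl fun y _ => ?_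
  split_ifs with hxy
  · rw [map_zero, Complex.zero_re]
  · rw [map_smul, smul_eq_mul, Complex.re_ofReal_mul, expL_re]

theorem sum_corr_self {d J : ℕ} (v : Vec d J) :
    ∑ x : Torus d J, corr v x x = 2 ^ (d * J) * rho v := by
  unfold rho
  rw [← mul_assoc, mul_one_div_cancel (by positivity), one_mul]
  exact Finset.sum_congr rfl fun x _ => Ker.cor_self v (fun x => t8_nsq_low x v) x

/-- the expectation in the Gibbs state -/
theorem gibbs_re {d J : ℕ} (H : Op d J) (β : ℝ) (ψ : (Torus d J → Bool) → Vec d J)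
    (E : (Torus d J → Bool) → ℝ) (hn : ∀ m, ∑ x, ‖ψ m x‖ ^ 2 = 1)
    (hO : ∀ O : Op d J, (NormedSpace.exp ((-(β : ℂ)) • H) * O).trace =
        ∑ m, (Real.exp (-(β * E m)) : ℂ) * ∑ x, (starRingEnd ℂ) (ψ m x) * (O.mulVec (ψ m)) x)
    (A : Op d J) :
    (gibbs β H A).re = (∑ m, Real.exp (-(β * E m)) * (expL (ψ m) A).re) /
      ∑ m, Real.exp (-(β * E m)) := by
  have h1 : (NormedSpace.exp ((-(β : ℂ)) • H)).trace =
      ((∑ m, Real.exp (-(β * E m)) : ℝ) : ℂ) := by
    have h2 := hO 1
    rw [Matrix.mul_one] at h2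
    rw [h2, Complex.ofReal_sum]
    refine Finset.sum_congr rfl fun m _ => ?_
    rw [Matrix.one_mulVec]
    have h3 : ∑ x, (starRingEnd ℂ) (ψ m x) * ψ m x = 1 := by
      have h4 : ∑ x, (starRingEnd ℂ) (ψ m x) * ψ m x = ((∑ x, ‖ψ m x‖ ^ 2 : ℝ) : ℂ) := by
        rw [Complex.ofReal_sum]
        refine Finset.sum_congr rfl fun x _ => ?_
        rw [Complex.conj_mul', Complex.ofReal_pow]
      rw [h4, hn m, Complex.ofReal_one]
    rw [h3, mul_one]
  unfold gibbs
  rw [h1, hO A, Complex.div_ofReal_re, Complex.re_sum]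
  congr 1
  refine Finset.sum_congr rfl fun m _ => ?_
  rw [Complex.re_ofReal_mul]
  rfl

/-- TB-F -/
theorem gibbs_link {d J : ℕ} (hd : 1 ≤ d) {σ : ℝ} (hσ : 0 < σ) (h β : ℝ) :
    ∃ (ψ : (Site d J → Bool) → WF (Site d J)) (E : (Site d J → Bool) → ℝ), ONB ψ ∧
      (∀ χ : WF (Site d J), (2 : ℝ) ^ (d * J) *
        en ((2 : ℝ) ^ (-σ)) 0 (h * (1 - Ker.ker d ((2 : ℝ) ^ (-σ)) 0) - tz d J ((2 : ℝ) ^ (-σ))) χ =
          ∑ m, E m * ‖gip (ψ m) χ‖ ^ 2) ∧
      ∀ B : ℝ, B = β / (1 - Ker.ker d ((2 : ℝ) ^ (-σ)) 0) →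
        thermalCondensate (hopping d σ) h β J =
          (∑ m, Real.exp (-(B * E m)) * coh J (ψ m)) / ∑ m, Real.exp (-(B * E m)) ∧
        thermalDensity (hopping d σ) h β J =
          (∑ m, Real.exp (-(B * E m)) * rho (ψ m)) / ∑ m, Real.exp (-(B * E m)) := by
  obtain ⟨ψ, E, hn, hp, hE, hO⟩ := gibbs_eigen (hamiltonian (hopping d σ) h J)
    (hamiltonian_herm (d := d) (J := J) σ h)
  have hD := hopping_pos hd hσ
  set D : ℝ := 1 - Ker.ker d ((2 : ℝ) ^ (-σ)) 0 with hDdef
  refine ⟨ψ, fun m => D * E m, ⟨hn, hp⟩, ?_, ?_⟩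
  · intro χ
    have h1 := congrArg Complex.re (hE χ)
    rw [gip_ham, Complex.ofReal_re, hop_sum_eq hσ χ, sum_corr_self] at h1
    have h2 : ∑ m, D * E m * ‖gip (ψ m) χ‖ ^ 2 =
        D * ∑ m, E m * ‖∑ x, (starRingEnd ℂ) (ψ m x) * χ x‖ ^ 2 := by
      rw [Finset.mul_sum]
      exact Finset.sum_congr rfl fun m _ => mul_assoc _ _ _
    rw [h2, ← h1, ← hDdef]
    unfold en
    field_simp
    ring
  · intro B hB
    have hBE : ∀ m, Real.exp (-(B * (D * E m))) = Real.exp (-(β * E m)) := by
      intro m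
      congr 2
      rw [hB]
      field_simp
    simp_rw [hBE]
    have hG := gibbs_re (hamiltonian (hopping d σ) h J) β ψ E hn (hO β)
    constructor
    · unfold thermalCondensate
      simp_rw [hG, expL_re]
      simp_rw [← Finset.sum_div]
      rw [div_right_comm]
      congr 1
      have h3 : ∀ x : Torus d J, ∑ y : Torus d J, ∑ m, Real.exp (-(β * E m)) * corr (ψ m) x y =
          ∑ m, Real.exp (-(β * E m)) * ∑ y : Torus d J, corr (ψ m) x y := by
        intro x
        rw [Finset.sum_comm]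
        exact Finset.sum_congr rfl fun m _ => (Finset.mul_sum _ _ _).symm
      simp_rw [h3]
      rw [Finset.sum_comm, Finset.sum_div]
      refine Finset.sum_congr rfl fun m _ => ?_
      rw [← Finset.mul_sum, mul_div_assoc, ← condensate_eq]
      rfl
    · unfold thermalDensity
      simp_rw [hG, expL_re]
      rw [← Finset.sum_div, div_right_comm]
      congr 1
      rw [Finset.sum_comm, Finset.sum_div]
      refine Finset.sum_congr rfl fun m _ => ?_
      rw [← Finset.mul_sum, mul_div_assoc, sum_corr_self, mul_div_cancel_left₀ _ (by positivity)]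

end Pool.Agent.TH268.TB
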