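import Pool.Agent.TH268.TB.Lower
import Pool.Agent.H11R2.BEC.Main2

/-!
# The multiscale inequality at positive temperature
-/

set_option autoImplicit false

open Finset BigOperators

namespace Pool.Agent.TH268.TB

open Pool.Agent.H11R2.BEC

theorem err_leT {d : ℕ} (j : ℕ) {μ : ℝ} :
    err d j (2 ^ (d * j / 2)) 0 μ (1 / (2 : ℝ) ^ (d * j / 2)) ≤
      (82 + 12 * |μ|) * (1 / (2 : ℝ) ^ (d * j / 2)) := by
  have h2 := var_bound d j
  set w : ℝ := 1 / (2 : ℝ) ^ (d * j / 2) with hw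
  have hw0 : 0 < w := by positivity
  have hw1 : w ≤ 1 := by
    rw [hw, div_le_one (by positivity)]
    exact one_le_pow₀ (by norm_num)
  have hww : w ^ 2 ≤ w := by nlinarith
  have h4 : 12 / (((2 ^ (d * j / 2) : ℕ) : ℝ)) ^ 2 = 12 * w ^ 2 := by
    rw [hw]; push_cast; ring
  unfold err
  simp only []
  rw [h4]
  set v : ℝ := (6 * ((2 ^ (d * j / 2) : ℕ) : ℝ) ^ 2 + 3 * ((2 : ℝ) ^ (d * j)) ^ 2 /
      ((2 ^ (d * j / 2) : ℕ) : ℝ) ^ 2) / ((2 : ℝ) ^ (d * j)) ^ 2 with hv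
  have h5 : v / w ≤ 9 * w := by
    rw [div_le_iff₀ hw0]
    calc v ≤ 9 * w ^ 2 := h2
      _ = 9 * w * w := by ring
  have h6 : |μ| * (12 * w ^ 2) ≤ 12 * |μ| * w := by
    have : 0 ≤ |μ| := abs_nonneg μ
    nlinarith
  rw [abs_zero, zero_mul]
  linarith

section

variable {d J : ℕ} {q μ β : ℝ} {ψ : (Site d J → Bool) → WF (Site d J)}
    {E lam : (Site d J → Bool) → ℝ}

theorem IsGibbs.anti (h : IsGibbs q μ β ψ E lam) (s : ℕ) (hs : s < J) :
    ∑ m, lam m * coh (s + 1) (ψ m) ≤ ∑ m, lam m * coh s (ψ m) :=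
  Finset.sum_le_sum fun m _ => mul_le_mul_of_nonneg_left (coh_antitone hs (ψ m)) (h.nonneg m)

theorem IsGibbs.anti' (h : IsGibbs q μ β ψ E lam) : ∀ s t : ℕ, s ≤ t → t ≤ J →
    ∑ m, lam m * coh t (ψ m) ≤ ∑ m, lam m * coh s (ψ m) := by
  intro s t' hst
  induction t', hst using Nat.le_induction with
  | base => intro _; exact le_rfl
  | succ n hn' ih => intro hle; exact (h.anti n (by omega)).trans (ih (by omega))

theorem IsGibbs.coh_nonneg' (h : IsGibbs q μ β ψ E lam) (s : ℕ) :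
    0 ≤ ∑ m, lam m * coh s (ψ m) :=
  Finset.sum_nonneg fun m _ => mul_nonneg (h.nonneg m) (coh_nonneg (ψ m))

theorem IsGibbs.coh_le_one (h : IsGibbs q μ β ψ E lam) (s : ℕ) (hs : s ≤ J) :
    ∑ m, lam m * coh s (ψ m) ≤ 1 := by
  refine (h.anti' 0 s (Nat.zero_le _) hs).trans ?_
  rw [← h.sum]
  refine Finset.sum_le_sum fun m _ => ?_
  rw [coh_zero]
  calc lam m * rho (ψ m) ≤ lam m * 1 :=
        mul_le_mul_of_nonneg_left (rho_mem (h.nsq m)).2 (h.nonneg m)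
    _ = lam m := mul_one _

/-- The multiscale inequality. -/
theorem multiT (hd : 1 ≤ d) (hq : 3 / 4 ≤ q) (hq1 : q < 1) (hβ : 0 < β)
    (h : IsGibbs q μ β ψ E lam) (m : ℕ) (hm : 2 * m ≤ J) :
    ∑ i, lam i * coh (2 * m) (ψ i) - ∑ i, lam i * coh J (ψ i) ≤
      16 * d * (1 + Cd d) * (1 - q) * (∑ i, lam i * coh 0 (ψ i) - ∑ i, lam i * coh J (ψ i)) +
      28 * (82 + 12 * |μ| + 8 / β) * (8 / 9) ^ m := by
  have hq0 : 0 ≤ q := by linarith
  have hC0 : 0 ≤ Cd d := by unfold Cd; positivity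
  refine summation' (d := d) (J := J) (q := q) (B := 82 + 12 * |μ| + 8 / β) (C := Cd d) hq hq1
    (by positivity) hC0 (fun s => ∑ i, lam i * coh s (ψ i)) (fun s hs => h.anti s hs) ?_ m hm
  intro j hj
  have h1 := keyT hj hq0 hq1.le hβ h (2 ^ (d * j / 2)) Nat.one_le_two_pow
    (θ := 1 / (2 : ℝ) ^ (d * j / 2)) (by positivity)
    (by
      rw [div_le_one (by positivity)]
      exact one_le_pow₀ (by norm_num))
  have h2 := err_leT (d := d) j (μ := μ)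
  have h3 := log_bound d j hβ
  have h4 := pow_half_le hd j
  have h5 : ∑ s ∈ range j, cf q J s * ((∑ i, lam i * coh s (ψ i) - ∑ i, lam i * coh j (ψ i))
    - (1 / 2 : ℝ) ^ (j - s) * (d * (∑ i, lam i * coh s (ψ i) - ∑ i, lam i * coh j (ψ i))
      + 2 * d * Cd d * ∑ i' ∈ range (j + 1), (1 / 2 : ℝ) ^ (j - i') *
        (∑ i, lam i * coh i' (ψ i) - ∑ i, lam i * coh (i' + 1) (ψ i))))
      ≤ ∑ s ∈ range j, cf q J s * ∑ i, lam i * us s j (ψ i) := by
    apply Finset.sum_le_sum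
    intro s hs
    refine mul_le_mul_of_nonneg_left ?_ (cf_nonneg hq0 hq1.le _ _)
    have h6 : ∑ i, lam i * ((coh s (ψ i) - coh j (ψ i))
      - (1 / 2 : ℝ) ^ (j - s) * (d * (coh s (ψ i) - coh j (ψ i))
        + 2 * d * Cd d * ∑ i' ∈ range (j + 1), (1 / 2 : ℝ) ^ (j - i') *
          (coh i' (ψ i) - coh (i' + 1) (ψ i)))) ≤ ∑ i, lam i * us s j (ψ i) :=
      Finset.sum_le_sum fun i _ => mul_le_mul_of_nonneg_left
        (us_lower (Finset.mem_range.1 hs) hj (ψ i)) (h.nonneg i)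
    refine le_trans (le_of_eq ?_) h6
    have e1 : ∑ i, lam i * ∑ i' ∈ range (j + 1), (1 / 2 : ℝ) ^ (j - i') *
          (coh i' (ψ i) - coh (i' + 1) (ψ i)) =
        ∑ i' ∈ range (j + 1), (1 / 2 : ℝ) ^ (j - i') *
        (∑ i, lam i * coh i' (ψ i) - ∑ i, lam i * coh (i' + 1) (ψ i)) := by
      simp only [Finset.mul_sum]
      rw [Finset.sum_comm]
      refine Finset.sum_congr rfl fun i' _ => ?_
      rw [← Finset.sum_sub_distrib, Finset.mul_sum]
      refine Finset.sum_congr rfl fun i _ => ?_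
      ring
    rw [← e1]
    have e2 : ∀ i, lam i * ((coh s (ψ i) - coh j (ψ i))
      - (1 / 2 : ℝ) ^ (j - s) * (d * (coh s (ψ i) - coh j (ψ i))
        + 2 * d * Cd d * ∑ i' ∈ range (j + 1), (1 / 2 : ℝ) ^ (j - i') *
          (coh i' (ψ i) - coh (i' + 1) (ψ i)))) =
        (lam i * coh s (ψ i) - lam i * coh j (ψ i)) - (1 / 2 : ℝ) ^ (j - s) *
        (d * (lam i * coh s (ψ i) - lam i * coh j (ψ i)) + 2 * d * Cd d *
          (lam i * ∑ i' ∈ range (j + 1), (1 / 2 : ℝ) ^ (j - i') *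
          (coh i' (ψ i) - coh (i' + 1) (ψ i)))) := fun i => by ring
    rw [Finset.sum_congr rfl fun i _ => e2 i]
    simp only [Finset.sum_sub_distrib, Finset.sum_add_distrib, ← Finset.mul_sum]
  have hB0 : 0 ≤ 82 + 12 * |μ| + 8 / β := by positivity
  have h7 : (82 + 12 * |μ| + 8 / β) * (1 / (2 : ℝ) ^ (d * j / 2)) ≤
      (82 + 12 * |μ| + 8 / β) * (1 / 2 : ℝ) ^ (j / 2) := mul_le_mul_of_nonneg_left h4 hB0
  have h8 : (82 + 12 * |μ| + 8 / β) * (1 / (2 : ℝ) ^ (d * j / 2)) =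
      (82 + 12 * |μ|) * (1 / (2 : ℝ) ^ (d * j / 2)) + 8 / β * (1 / (2 : ℝ) ^ (d * j / 2)) := by
    ring
  linarith

end

end Pool.Agent.TH268.TB
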