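import Mathlib
import Pool.Agent.H903R2.BEC.Localize

/-!
The localisation lemma with the number of the pieces and the adjoints.
-/

set_option autoImplicit false

open Finset BigOperators

namespace Pool.Agent.TH268.TB

open Pool.Agent.H11R2.BEC Pool.Agent.H11R2.BEC.T3d

open Pool.Agent.H11R2.BEC.Tent in
/-- the window, with the number of the windows -/
theorem windowC (W : ℕ) (hW : 1 ≤ W) (M : ℕ) :
    ∃ (A : Type) (_ : Fintype A) (g : A → ℕ → ℝ) (c : A → ℝ), Fintype.card A = M + 2 * W + 1 ∧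
      (∀ k, k ≤ M → ∑ l, g l k ^ 2 = 1) ∧
      (∀ k k' : ℕ, k ≤ M → k' ≤ M → k ≤ k' + 2 → k' ≤ k + 2 →
        |∑ l, g l k * g l k' - 1| ≤ 6 / (W : ℝ) ^ 2) ∧
      (∀ k, k + 1 ≤ M → ∑ l, (g l (k + 1) - g l k) ^ 2 ≤ 3 / (W : ℝ) ^ 2) ∧
      (∀ l k, k ≤ M → ((k : ℝ) - c l) ^ 2 * g l k ^ 2 ≤ (W : ℝ) ^ 2 * g l k ^ 2) := by
  have hWr : (1 : ℝ) ≤ W := by exact_mod_cast hW
  obtain ⟨S, hS⟩ : ∃ S : ℝ, S = ∑ i ∈ range (2 * W + 1), T W ((i : ℤ) - W) ^ 2 := ⟨_, rfl⟩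
  have hS3 : 3 * S = 2 * (W : ℝ) ^ 3 + W := by rw [hS]; exact sum_sq W
  have hSpos : 0 < S := by
    have : 0 < (W : ℝ) ^ 3 := by positivity
    linarith
  obtain ⟨g, hg⟩ : ∃ g : Fin (M + 2 * W + 1) → ℕ → ℝ, g = fun (l : Fin (M + 2 * W + 1)) (k : ℕ) =>
      T W ((k : ℤ) - (((l : ℕ) : ℤ) - W)) / Real.sqrt S := ⟨_, rfl⟩
  have hsq : Real.sqrt S ^ 2 = S := Real.sq_sqrt hSpos.le
  have hone : ∀ k, k ≤ M → ∑ l, g l k ^ 2 = 1 := by
    intro k hk
    have e := sum_shift (fun y => T W y ^ 2) W M k hk (fun y hy => by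
      rw [T_zero hy.le]; norm_num)
    rw [← hS] at e
    rw [hg]
    simp only [div_pow]
    rw [hsq, ← sum_div, e, div_self hSpos.ne']
  have hdiff : ∀ k, k + 1 ≤ M → ∑ l, (g l (k + 1) - g l k) ^ 2 ≤ 3 / (W : ℝ) ^ 2 := by
    intro k hk
    have e := sum_shift (fun y => (T W (y + 1) - T W y) ^ 2) W M k (by omega) (fun y hy => by
      rw [T_zero hy.le, T_zero (y := y + 1) (by
        rcases abs_cases y with ⟨h1, h2⟩ | ⟨h1, h2⟩ <;> rcases abs_cases (y + 1) with ⟨h3, h4⟩ | ⟨h3, h4⟩ <;>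
          omega)]
      norm_num)
    have h1 : ∑ l, (g l (k + 1) - g l k) ^ 2 =
        (∑ l : Fin (M + 2 * W + 1), (T W ((k : ℤ) - (((l : ℕ) : ℤ) - W) + 1) -
          T W ((k : ℤ) - (((l : ℕ) : ℤ) - W))) ^ 2) / S := by
      rw [hg, sum_div]
      apply sum_congr rfl
      intro l _
      simp only
      rw [← sub_div, div_pow, hsq]
      congr 4
      push_cast
      ring
    rw [h1, e, div_le_div_iff₀ hSpos (by positivity)]
    have h2 := sum_diff W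
    have h3 : 0 < (W : ℝ) ^ 2 := by positivity
    calc _ ≤ 2 * (W : ℝ) * (W : ℝ) ^ 2 := mul_le_mul_of_nonneg_right h2 h3.le
      _ ≤ 3 * S := by rw [hS3]; nlinarith
  refine ⟨Fin (M + 2 * W + 1), inferInstance, g, fun l => ((l : ℕ) : ℝ) - W, Fintype.card_fin _,
    hone, ?_, hdiff, ?_⟩
  · have hd2 : ∀ k k' : ℕ, k ≤ M → k' ≤ M → k ≤ k' → k' ≤ k + 2 →
        ∑ l, (g l k - g l k') ^ 2 ≤ 12 / (W : ℝ) ^ 2 := by
      intro k k' hk hk' h1 h2
      have h3 : 0 ≤ 3 / (W : ℝ) ^ 2 := by positivity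
      have h12 : 12 / (W : ℝ) ^ 2 = 4 * (3 / (W : ℝ) ^ 2) := by ring
      obtain rfl | rfl | rfl : k' = k ∨ k' = k + 1 ∨ k' = k + 1 + 1 := by omega
      · simp only [sub_self]
        norm_num
        positivity
      · have := hdiff k hk'
        rw [h12]
        have e : ∑ l, (g l k - g l (k + 1)) ^ 2 = ∑ l, (g l (k + 1) - g l k) ^ 2 :=
          sum_congr rfl fun l _ => by ring
        rw [e]
        linarith
      · have d1 := hdiff k (by omega)
        have d2 := hdiff (k + 1) hk'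
        have : ∑ l, (g l k - g l (k + 1 + 1)) ^ 2 ≤
            ∑ l, (2 * (g l (k + 1) - g l k) ^ 2 + 2 * (g l (k + 1 + 1) - g l (k + 1)) ^ 2) := by
          apply sum_le_sum
          intro l _
          nlinarith [sq_nonneg ((g l (k + 1) - g l k) - (g l (k + 1 + 1) - g l (k + 1)))]
        rw [sum_add_distrib, ← mul_sum, ← mul_sum] at this
        rw [h12]
        linarith
    intro k k' hk hk' h1 h2
    have key : ∑ l, (g l k - g l k') ^ 2 ≤ 12 / (W : ℝ) ^ 2 := by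
      rcases le_total k k' with h | h
      · exact hd2 k k' hk hk' h h2
      · have := hd2 k' k hk' hk h h1
        have e : ∑ l, (g l k - g l k') ^ 2 = ∑ l, (g l k' - g l k) ^ 2 :=
          sum_congr rfl fun l _ => by ring
        rw [e]
        exact this
    have id1 : ∑ l, (g l k - g l k') ^ 2 = 2 - 2 * ∑ l, g l k * g l k' := by
      have : ∑ l, (g l k - g l k') ^ 2 =
          ∑ l, g l k ^ 2 + ∑ l, g l k' ^ 2 - 2 * ∑ l, g l k * g l k' := by
        rw [mul_sum, ← sum_add_distrib, ← sum_sub_distrib]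
        exact sum_congr rfl fun l _ => by ring
      rw [this, hone k hk, hone k' hk']
      ring
    have pos : 0 ≤ ∑ l, (g l k - g l k') ^ 2 := sum_nonneg fun l _ => sq_nonneg _
    have e6 : 12 / (W : ℝ) ^ 2 = 2 * (6 / (W : ℝ) ^ 2) := by ring
    rw [abs_le]
    constructor <;> linarith
  · intro l k _
    by_cases h : (W : ℤ) ≤ |(k : ℤ) - (((l : ℕ) : ℤ) - W)|
    · have : g l k = 0 := by
        rw [hg]
        simp only
        rw [T_zero h, zero_div]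
      rw [this]
      norm_num
    · apply mul_le_mul_of_nonneg_right _ (sq_nonneg _)
      rw [not_le] at h
      have h' : ((|(k : ℤ) - (((l : ℕ) : ℤ) - W)| : ℤ) : ℝ) < ((W : ℤ) : ℝ) := by exact_mod_cast h
      push_cast at h'
      rw [← sq_abs]
      exact pow_le_pow_left₀ (abs_nonneg _) h'.le 2


section adjoint
variable {Q : Type} [Fintype Q] [DecidableEq Q]

theorem mg_adj (g : ℕ → ℝ) (φ χ : WF Q) : ip (mg g φ) χ = ip φ (mg g χ) := by
  simp only [ip, mg, map_mul, Complex.conj_ofReal]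
  exact Finset.sum_congr rfl fun η _ => by ring

theorem PP_adj (u : Matrix Bool Bool ℂ) (g : ℕ → ℝ) (φ χ : WF Q) :
    ip (PP u g φ) χ = ip φ (PP u g χ) := by
  rw [PP, PP, t3a_adj, Matrix.conjTranspose_conjTranspose, mg_adj, t3a_adj]

theorem nsq_mg_le {A : Type} [Fintype A] (g : A → ℕ → ℝ)
    (hg : ∀ k, k ≤ Fintype.card Q → ∑ l, g l k ^ 2 = 1) (l : A) (f : WF Q) :
    nsq (mg (g l) f) ≤ nsq f := by
  simp only [nsq, mg]
  refine Finset.sum_le_sum fun σ _ => ?_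
  rw [norm_mul, mul_pow, Complex.norm_real, Real.norm_eq_abs, sq_abs]
  have h1 : g l (cnt σ) ^ 2 ≤ 1 := by
    rw [← hg _ (cnt_le σ)]
    exact Finset.single_le_sum (f := fun l => g l (cnt σ) ^ 2) (fun i _ => sq_nonneg _)
      (Finset.mem_univ l)
  exact mul_le_of_le_one_left (sq_nonneg _) h1

theorem nsq_PP_le (u : Matrix Bool Bool ℂ) (hu : u.conjTranspose * u = 1)
    (hu' : u * u.conjTranspose = 1) {A : Type} [Fintype A] (g : A → ℕ → ℝ)
    (hg : ∀ k, k ≤ Fintype.card Q → ∑ l, g l k ^ 2 = 1) (l : A) (φ : WF Q) :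
    nsq (PP u (g l) φ) ≤ nsq φ := by
  rw [nsq_PP u hu', ← pt_nsq u hu φ]
  exact nsq_mg_le g hg l _

end adjoint

theorem localizeC_aux {Q : Type} [Fintype Q] [DecidableEq Q] (W : ℕ) (hW : 1 ≤ W) :
    ∃ (A : Type) (_ : Fintype A) (L : A → WF Q → WF Q) (c : A → ℂ),
      Fintype.card A = (Fintype.card Q + 2 * W + 1) ^ 2 ∧
      (∀ α, ∃ L' : WF Q → WF Q, (∀ φ χ, ip (L α φ) χ = ip φ (L' χ)) ∧ ∀ χ, nsq (L' χ) ≤ nsq χ) ∧
      ∀ φ : WF Q,
      (∑ α, nsq (L α φ) = nsq φ) ∧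
      (∀ x y, |∑ α, cor (L α φ) x y - cor φ x y| ≤ 12 / (W : ℝ) ^ 2 * nsq φ) ∧
      (∀ x y, |∑ α, pd (L α φ) x y - pd φ x y| ≤ 12 / (W : ℝ) ^ 2 * nsq φ) ∧
      ∑ α, nsq (fun η => lowU (fun _ => 1) (L α φ) η - c α * L α φ η) ≤
        (6 * (W : ℝ) ^ 2 + 3 * (Fintype.card Q : ℝ) ^ 2 / (W : ℝ) ^ 2) * nsq φ := by
  obtain ⟨A, hA, g, c, h0, h1, h2, h3, h4⟩ := windowC W hW (Fintype.card Q)
  set M : ℝ := (Fintype.card Q : ℝ) with hM
  refine ⟨A × A, inferInstance, fun α φ => PP uY (g α.2) (PP uX (g α.1) φ),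
    fun α => (((M / 2 - c α.1 : ℝ)) : ℂ) + (-Complex.I) * (((M / 2 - c α.2 : ℝ)) : ℂ), ?_, ?_, ?_⟩
  · rw [Fintype.card_prod, h0, sq]
  · intro α
    refine ⟨fun χ => PP uX (g α.1) (PP uY (g α.2) χ), fun φ χ => ?_, fun χ => ?_⟩
    · rw [PP_adj uY, PP_adj uX]
    · exact (nsq_PP_le uX uX_hu uX_hu' g h1 α.1 _).trans (nsq_PP_le uY uY_hu uY_hu' g h1 α.2 χ)
  intro φ
  have hWpos : (0 : ℝ) < W := by exact_mod_cast hW
  have hsX : ‖(1 : ℂ)‖ = 1 := norm_one
  have sX : ∑ l, nsq (PP uX (g l) φ) = nsq φ := sum_nsq_PP uX uX_hu uX_hu' g h1 φ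
  have sY : ∀ χ : WF Q, ∑ l, nsq (PP uY (g l) χ) = nsq χ :=
    fun χ => sum_nsq_PP uY uY_hu uY_hu' g h1 χ
  have two : ∀ (F : WF Q → ℝ) (κ : ℝ),
      (∀ χ, |∑ l, F (PP uY (g l) χ) - F χ| ≤ κ * nsq χ) →
      (|∑ l, F (PP uX (g l) φ) - F φ| ≤ κ * nsq φ) →
      |∑ α : A × A, F (PP uY (g α.2) (PP uX (g α.1) φ)) - F φ| ≤ 2 * κ * nsq φ := by
    intro F κ hY hX
    rw [Fintype.sum_prod_type]
    have e : ∑ l, ∑ l', F (PP uY (g l') (PP uX (g l) φ)) - F φ =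
        ∑ l, (∑ l', F (PP uY (g l') (PP uX (g l) φ)) - F (PP uX (g l) φ)) +
          (∑ l, F (PP uX (g l) φ) - F φ) := by
      rw [Finset.sum_sub_distrib]
      ring
    rw [e]
    refine (abs_add_le _ _).trans ?_
    have e2 : |∑ l, (∑ l', F (PP uY (g l') (PP uX (g l) φ)) - F (PP uX (g l) φ))| ≤ κ * nsq φ := by
      refine (Finset.abs_sum_le_sum_abs _ _).trans ?_
      refine (Finset.sum_le_sum fun l _ => hY (PP uX (g l) φ)).trans (le_of_eq ?_)
      rw [← Finset.mul_sum, sX]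
    linarith
  refine ⟨?_, ?_, ?_, ?_⟩
  · rw [Fintype.sum_prod_type]
    simp only [sY, sX]
  · intro x y
    have := two (fun χ => cor χ x y) (6 / (W : ℝ) ^ 2)
      (fun χ => cor_step uY uY_hu uY_hu' _ norm_negI uY_low g _ h2 χ x y)
      (cor_step uX uX_hu uX_hu' _ hsX uX_low g _ h2 φ x y)
    refine this.trans (le_of_eq ?_)
    ring
  · intro x y
    have := two (fun χ => pd χ x y) (6 / (W : ℝ) ^ 2)
      (fun χ => pd_step uY uY_hu uY_hu' _ norm_negI uY_low g _ h2 χ x y)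
      (pd_step uX uX_hu uX_hu' _ hsX uX_low g _ h2 φ x y)
    refine this.trans (le_of_eq ?_)
    ring
  · rw [Fintype.sum_prod_type]
    have key : ∀ l, ∑ l', nsq (fun η => lowU (fun _ => 1) (PP uY (g l') (PP uX (g l) φ)) η -
        ((((M / 2 - c l : ℝ)) : ℂ) + (-Complex.I) * (((M / 2 - c l' : ℝ)) : ℂ)) *
          PP uY (g l') (PP uX (g l) φ) η) ≤
        (6 * (W : ℝ) ^ 2 + 3 * M ^ 2 / (W : ℝ) ^ 2) * nsq (PP uX (g l) φ) := by
      intro l
      set χ := PP uX (g l) φ with hχ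
      set cx : ℂ := (((M / 2 - c l : ℝ)) : ℂ) with hcx
      have a1 : ∀ l', nsq (fun η => lowU (fun _ => 1) (PP uY (g l') χ) η -
          (cx + (-Complex.I) * (((M / 2 - c l' : ℝ)) : ℂ)) * PP uY (g l') χ η) ≤
          2 * (2 * nsq (PP uY (g l') (XX χ - cx • χ)) +
            2 * nsq (XX (PP uY (g l') χ) - PP uY (g l') (XX χ))) +
          2 * ((W : ℝ) ^ 2 * nsq (PP uY (g l') χ)) := by
        intro l'
        have hlin : PP uY (g l') (XX χ - cx • χ) = PP uY (g l') (XX χ) - cx • PP uY (g l') χ := by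
          have hm : mg (g l') (pt uY (XX χ - cx • χ)) =
              mg (g l') (pt uY (XX χ)) - cx • mg (g l') (pt uY χ) := by
            rw [pt_sub, pt_smul]
            funext σ
            simp only [mg, Pi.sub_apply, Pi.smul_apply, smul_eq_mul]
            ring
          rw [PP, PP, PP, hm, pt_sub, pt_smul]
        have e : (fun η => lowU (fun _ => 1) (PP uY (g l') χ) η -
            (cx + (-Complex.I) * (((M / 2 - c l' : ℝ)) : ℂ)) * PP uY (g l') χ η) =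
            (PP uY (g l') (XX χ - cx • χ) + (XX (PP uY (g l') χ) - PP uY (g l') (XX χ))) +
            (YY (PP uY (g l') χ) - ((-Complex.I) * (((M / 2 - c l' : ℝ)) : ℂ)) •
              PP uY (g l') χ) := by
          rw [hlin, lowU_eq]
          funext η
          simp only [Pi.add_apply, Pi.sub_apply, Pi.smul_apply, smul_eq_mul]
          ring
        rw [e]
        refine (nsq_add_le _ _).trans ?_
        have b1 := nsq_add_le (PP uY (g l') (XX χ - cx • χ))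
          (XX (PP uY (g l') χ) - PP uY (g l') (XX χ))
        have b2 := varY (g l') (c l') W (fun k hk => h4 l' k hk) χ
        linarith
      refine (Finset.sum_le_sum fun l' _ => a1 l').trans ?_
      have b3 := varX (g l) (c l) W (fun k hk => h4 l k hk) φ
      have b4 := comm g (3 / (W : ℝ) ^ 2) h3 χ
      have e5 : ∑ l', (2 * (2 * nsq (PP uY (g l') (XX χ - cx • χ)) +
            2 * nsq (XX (PP uY (g l') χ) - PP uY (g l') (XX χ))) +
          2 * ((W : ℝ) ^ 2 * nsq (PP uY (g l') χ))) =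
          4 * ∑ l', nsq (PP uY (g l') (XX χ - cx • χ)) +
          4 * ∑ l', nsq (XX (PP uY (g l') χ) - PP uY (g l') (XX χ)) +
          2 * (W : ℝ) ^ 2 * ∑ l', nsq (PP uY (g l') χ) := by
        rw [Finset.mul_sum, Finset.mul_sum, Finset.mul_sum, ← Finset.sum_add_distrib,
          ← Finset.sum_add_distrib]
        exact Finset.sum_congr rfl fun l' _ => by ring
      rw [e5, sY, sY]
      have e6 : 4 * (1 / 4 * M ^ 2 * (3 / (W : ℝ) ^ 2) * nsq χ) =
          3 * M ^ 2 / (W : ℝ) ^ 2 * nsq χ := by ring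
      have b3' : nsq (XX χ - cx • χ) ≤ (W : ℝ) ^ 2 * nsq χ := b3
      nlinarith [b3', b4, e6]
    refine (Finset.sum_le_sum fun l _ => key l).trans (le_of_eq ?_)
    rw [← Finset.mul_sum, sX]

end Pool.Agent.TH268.TB

namespace Pool.Agent.TH268.TB
open Pool.Agent.H11R2.BEC in
theorem localizeC {Q : Type} [Fintype Q] [DecidableEq Q] (W : ℕ) (hW : 1 ≤ W) :
    ∃ (A : Type) (_ : Fintype A) (L : A → WF Q → WF Q) (c : A → ℂ),
      Fintype.card A = (Fintype.card Q + 2 * W + 1) ^ 2 ∧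
      (∀ α, ∃ L' : WF Q → WF Q, (∀ φ χ, ip (L α φ) χ = ip φ (L' χ)) ∧ ∀ χ, nsq (L' χ) ≤ nsq χ) ∧
      ∀ φ : WF Q,
      (∑ α, nsq (L α φ) = nsq φ) ∧
      (∀ x y, |∑ α, cor (L α φ) x y - cor φ x y| ≤ 12 / (W : ℝ) ^ 2 * nsq φ) ∧
      (∀ x y, |∑ α, pd (L α φ) x y - pd φ x y| ≤ 12 / (W : ℝ) ^ 2 * nsq φ) ∧
      ∑ α, nsq (fun η => lowU (fun _ => 1) (L α φ) η - c α * L α φ η) ≤
        (6 * (W : ℝ) ^ 2 + 3 * (Fintype.card Q : ℝ) ^ 2 / (W : ℝ) ^ 2) * nsq φ :=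
  localizeC_aux W hW

end Pool.Agent.TH268.TB
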