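import Mathlib
set_option autoImplicit false
open Finset BigOperators
namespace Pool.Agent.TH268.TB
/-- mean-field free energy -/
noncomputable def mfG (β μ lam e : ℝ) : ℝ :=
  (e ^ 2 - μ ^ 2 / 4) / lam - μ / 2 - (1 / β) * Real.log (2 * Real.cosh (β * e))

lemma tanh_hasDeriv (z : ℝ) : HasDerivAt Real.tanh (1 / Real.cosh z ^ 2) z := by
  have h1 := (Real.hasDerivAt_sinh z).div (Real.hasDerivAt_cosh z) (Real.cosh_pos z).ne'
  have h2 : (fun x => Real.sinh x / Real.cosh x) = Real.tanh := by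
    funext x; exact (Real.tanh_eq_sinh_div_cosh x).symm
  have h3 : Real.sinh / Real.cosh = Real.tanh := by
    funext x; exact (Real.tanh_eq_sinh_div_cosh x).symm
  rw [h3] at h1
  refine h1.congr_deriv ?_
  congr 1
  nlinarith [Real.cosh_sq z]

/-- `tanh (c y) / y` is strictly decreasing on `(0,∞)` -/
lemma ratio_anti (c : ℝ) (hc : 0 < c) :
    StrictAntiOn (fun y : ℝ => Real.tanh (c * y) / y) (Set.Ioi 0) := by
  have hd : ∀ y ∈ Set.Ioi (0 : ℝ), HasDerivAt (fun y : ℝ => Real.tanh (c * y) / y)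
      ((1 / Real.cosh (c * y) ^ 2 * c * y - Real.tanh (c * y) * 1) / y ^ 2) y := by
    intro y hy
    have h1 : HasDerivAt (fun y : ℝ => Real.tanh (c * y)) (1 / Real.cosh (c * y) ^ 2 * c) y := by
      have h0 : HasDerivAt (fun y : ℝ => c * y) c y := by
        simpa using (hasDerivAt_id y).const_mul c
      exact (tanh_hasDeriv (c * y)).comp y h0
    exact h1.div (hasDerivAt_id y) (ne_of_gt hy)
  apply strictAntiOn_of_deriv_neg (convex_Ioi 0)
  · intro y hy
    exact (hd y hy).continuousAt.continuousWithinAt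
  · intro y hy
    rw [interior_Ioi] at hy
    rw [(hd y hy).deriv]
    have hy0 : 0 < y := hy
    apply div_neg_of_neg_of_pos _ (by positivity)
    have hz : 0 < c * y := by positivity
    have hch := Real.cosh_pos (c * y)
    rw [Real.tanh_eq_sinh_div_cosh]
    have h2 : c * y < Real.sinh (c * y) * Real.cosh (c * y) := by
      have := Real.self_lt_sinh_iff.2 (show 0 < 2 * (c * y) by positivity)
      rw [Real.sinh_two_mul] at this
      linarith
    have : 1 / Real.cosh (c * y) ^ 2 * c * y - Real.sinh (c * y) / Real.cosh (c * y) * 1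
        = (c * y - Real.sinh (c * y) * Real.cosh (c * y)) / Real.cosh (c * y) ^ 2 := by
      field_simp
    rw [this]
    apply div_neg_of_neg_of_pos _ (by positivity)
    linarith

lemma mfG_hasDeriv (β μ lam e : ℝ) (hβ : 0 < β) (hl : 0 < lam) :
    HasDerivAt (fun e => mfG β μ lam e) (2 * e / lam - Real.tanh (β * e)) e := by
  unfold mfG
  have h1 : HasDerivAt (fun e : ℝ => (e ^ 2 - μ ^ 2 / 4) / lam - μ / 2) (2 * e / lam) e := by
    have := (((hasDerivAt_pow 2 e).sub_const (μ ^ 2 / 4)).div_const lam).sub_const (μ / 2)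
    simpa using this
  have h2 : HasDerivAt (fun e : ℝ => (1 / β) * Real.log (2 * Real.cosh (β * e)))
      (Real.tanh (β * e)) e := by
    have hc := Real.cosh_pos (β * e)
    have h3 : HasDerivAt (fun e : ℝ => 2 * Real.cosh (β * e)) (2 * (Real.sinh (β * e) * β)) e := by
      have h0 : HasDerivAt (fun y : ℝ => β * y) β e := by
        simpa using (hasDerivAt_id e).const_mul β
      exact ((Real.hasDerivAt_cosh (β * e)).comp e h0).const_mul 2
    have h4 := (h3.log (by positivity)).const_mul (1 / β)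
    refine h4.congr_deriv ?_
    rw [Real.tanh_eq_sinh_div_cosh]
    field_simp
  exact h1.sub h2

lemma mfG_cont (β μ lam : ℝ) (hβ : 0 < β) (hl : 0 < lam) : Continuous (fun e => mfG β μ lam e) :=
  continuous_iff_continuousAt.2 fun e => (mfG_hasDeriv β μ lam e hβ hl).continuousAt

/-- decreasing on `[0, y0/2]` -/
lemma mfG_anti (β μ lam y0 : ℝ) (hβ : 0 < β) (hl : 0 < lam) (hy : 0 < y0)
    (h : y0 / lam < Real.tanh (β * (y0 / 2))) :
    StrictAntiOn (fun e => mfG β μ lam e) (Set.Icc 0 (y0 / 2)) := by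
  apply strictAntiOn_of_deriv_neg (convex_Icc _ _)
  · exact (mfG_cont β μ lam hβ hl).continuousOn
  · intro e he
    rw [interior_Icc] at he
    rw [(mfG_hasDeriv β μ lam e hβ hl).deriv]
    have h1 := ratio_anti β hβ (show e ∈ Set.Ioi (0 : ℝ) from he.1)
      (show y0 / 2 ∈ Set.Ioi (0 : ℝ) from by simp; positivity) he.2
    simp only at h1
    have he0 := he.1
    have h2 : y0 / lam / (y0 / 2) < Real.tanh (β * (y0 / 2)) / (y0 / 2) :=
      div_lt_div_of_pos_right h (by positivity)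
    have h3 : y0 / lam / (y0 / 2) = 2 / lam := by field_simp
    rw [h3] at h2
    have h4 : 2 / lam < Real.tanh (β * e) / e := h2.trans h1
    rw [lt_div_iff₀ he0] at h4
    have : 2 * e / lam = 2 / lam * e := by ring
    linarith

/-- increasing on `[y1/2, ∞)` -/
lemma mfG_mono (β μ lam y1 R : ℝ) (hβ : 0 < β) (hl : 0 < lam) (hy : 0 < y1) (hR : y1 / 2 ≤ R)
    (h : Real.tanh (β * (y1 / 2)) < y1 / lam) :
    StrictMonoOn (fun e => mfG β μ lam e) (Set.Ici R) := by
  apply strictMonoOn_of_deriv_pos (convex_Ici _)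
  · exact (mfG_cont β μ lam hβ hl).continuousOn
  · intro e he
    rw [interior_Ici] at he
    rw [(mfG_hasDeriv β μ lam e hβ hl).deriv]
    have he' : y1 / 2 < e := lt_of_le_of_lt hR he
    have he0 : 0 < e := by linarith
    have h1 := ratio_anti β hβ (show y1 / 2 ∈ Set.Ioi (0 : ℝ) from by simp; positivity)
      (show e ∈ Set.Ioi (0 : ℝ) from he0) he'
    simp only at h1
    have h2 : Real.tanh (β * (y1 / 2)) / (y1 / 2) < y1 / lam / (y1 / 2) :=
      div_lt_div_of_pos_right h (by positivity)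
    have h3 : y1 / lam / (y1 / 2) = 2 / lam := by field_simp
    rw [h3] at h2
    have h4 : Real.tanh (β * e) / e < 2 / lam := h1.trans h2
    rw [div_lt_iff₀ he0] at h4
    have : 2 * e / lam = 2 / lam * e := by ring
    linarith

/-- existence of a minimiser in a window -/
lemma mfG_min (β μ lam y1 a : ℝ) (hβ : 0 < β) (hl : 0 < lam) (hy : 0 < y1) (ha : 0 ≤ a)
    (h : Real.tanh (β * (y1 / 2)) < y1 / lam) :
    ∃ e0, a ≤ e0 ∧ e0 ≤ max a (y1 / 2) ∧ ∀ e, a ≤ e → mfG β μ lam e0 ≤ mfG β μ lam e := by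
  obtain ⟨e0, he0, hmin⟩ := (isCompact_Icc (a := a) (b := max a (y1 / 2))).exists_isMinOn
    ⟨a, by simp⟩ (mfG_cont β μ lam hβ hl).continuousOn
  refine ⟨e0, he0.1, he0.2, fun e he => ?_⟩
  by_cases hR : e ≤ max a (y1 / 2)
  · exact hmin ⟨he, hR⟩
  · push Not at hR
    have h1 := (mfG_mono β μ lam y1 (max a (y1 / 2)) hβ hl hy (le_max_right _ _) h)
      (Set.mem_Ici.2 (le_refl (max a (y1 / 2))))
      (Set.mem_Ici.2 hR.le) hR
    have h2 : mfG β μ lam e0 ≤ mfG β μ lam (max a (y1 / 2)) := hmin ⟨le_max_left _ _, le_refl _⟩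
    exact h2.trans h1.le

lemma tanh_lt_self' (z : ℝ) (hz : 0 < z) : Real.tanh z < z := by
  have hanti : StrictAntiOn (fun z : ℝ => Real.tanh z - z) (Set.Ici 0) := by
    apply strictAntiOn_of_deriv_neg (convex_Ici 0)
    · exact (continuous_iff_continuousAt.2 fun z =>
        ((tanh_hasDeriv z).sub (hasDerivAt_id z)).continuousAt).continuousOn
    · intro y hy
      rw [interior_Ici] at hy
      have hd : deriv (fun z : ℝ => Real.tanh z - z) y = 1 / Real.cosh y ^ 2 - 1 :=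
        ((tanh_hasDeriv y).sub (hasDerivAt_id y)).deriv
      rw [hd]
      have h1 : 1 < Real.cosh y := Real.one_lt_cosh.2 (ne_of_gt hy)
      have h2 : 1 / Real.cosh y ^ 2 < 1 := by
        rw [div_lt_one (by positivity)]
        nlinarith
      linarith
  have := hanti (Set.mem_Ici.2 (le_refl (0:ℝ))) (Set.mem_Ici.2 hz.le) hz
  simp only [Real.tanh_zero] at this
  linarith

lemma tanh_cont : Continuous Real.tanh :=
  continuous_iff_continuousAt.2 fun z => (tanh_hasDeriv z).continuousAt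

lemma choose_t (β y0 y1 : ℝ) (P : Prop)
    (h1 : Real.tanh (β * (y1 / 2)) < y1) (h0 : P → y0 < Real.tanh (β * (y0 / 2))) :
    ∃ t : ℝ, 0 < t ∧ t < 1 ∧ Real.tanh (β * (y1 / 2)) < y1 / (1 + t) ∧
      (P → y0 / (1 - t) < Real.tanh (β * (y0 / 2))) := by
  have c1 : ContinuousAt (fun t : ℝ => y1 / (1 + t)) 0 := by
    apply ContinuousAt.div continuousAt_const (by fun_prop) (by norm_num)
  have c0 : ContinuousAt (fun t : ℝ => y0 / (1 - t)) 0 := by
    apply ContinuousAt.div continuousAt_const (by fun_prop) (by norm_num)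
  have e1 : ∀ᶠ t in nhds (0 : ℝ), Real.tanh (β * (y1 / 2)) < y1 / (1 + t) :=
    c1.eventually (lt_mem_nhds (by simpa using h1))
  have e0 : ∀ᶠ t in nhds (0 : ℝ), P → y0 / (1 - t) < Real.tanh (β * (y0 / 2)) := by
    by_cases hP : P
    · have h0' : y0 / (1 - 0) < Real.tanh (β * (y0 / 2)) := by simpa using h0 hP
      have := c0.eventually (gt_mem_nhds h0')
      filter_upwards [this] with t ht _ using ht
    · exact Filter.Eventually.of_forall fun t h => absurd h hP
  have e2 : ∀ᶠ t in nhdsWithin (0 : ℝ) (Set.Ioi 0), t < 1 :=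
    (gt_mem_nhds (by norm_num : (0 : ℝ) < 1)).filter_mono nhdsWithin_le_nhds
  have e3 := (e1.filter_mono (nhdsWithin_le_nhds (s := Set.Ioi 0))).and
    ((e0.filter_mono (nhdsWithin_le_nhds (s := Set.Ioi 0))).and (e2.and self_mem_nhdsWithin))
  obtain ⟨t, ht1, ht0, ht2, ht3⟩ := e3.exists
  exact ⟨t, ht3, ht2, ht1, ht0⟩

lemma choose_d (β y0 y1 t : ℝ) (P : Prop)
    (h1 : Real.tanh (β * (y1 / 2)) < y1 / (1 + t))
    (h0 : P → y0 / (1 - t) < Real.tanh (β * (y0 / 2))) :
    ∃ d : ℝ, 0 < d ∧ ∀ β', |β' - β| ≤ d → Real.tanh (β' * (y1 / 2)) < y1 / (1 + t) ∧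
      (P → y0 / (1 - t) < Real.tanh (β' * (y0 / 2))) := by
  have c : ∀ y : ℝ, ContinuousAt (fun b : ℝ => Real.tanh (b * (y / 2))) β := by
    intro y
    exact (tanh_cont.comp (by fun_prop : Continuous fun b : ℝ => b * (y / 2))).continuousAt
  have e1 : ∀ᶠ b in nhds β, Real.tanh (b * (y1 / 2)) < y1 / (1 + t) :=
    (c y1).eventually (gt_mem_nhds h1)
  have e0 : ∀ᶠ b in nhds β, P → y0 / (1 - t) < Real.tanh (b * (y0 / 2)) := by
    by_cases hP : P
    · filter_upwards [(c y0).eventually (lt_mem_nhds (h0 hP))] with b hb _ using hb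
    · exact Filter.Eventually.of_forall fun t h => absurd h hP
  obtain ⟨d, hd, hd2⟩ := Metric.eventually_nhds_iff.1 (e1.and e0)
  refine ⟨d / 2, by positivity, fun β' hb => hd2 ?_⟩
  rw [Real.dist_eq]
  linarith

theorem mf_stability (β h ε m : ℝ) (hβ : 0 < β) (hε : 0 < ε) (hm : 0 ≤ m)
    (hm1 : m = Real.tanh (β * m / 2)) (hm2 : 0 < m ∨ β ≤ 2) :
    ∃ δ : ℝ, 0 < δ ∧ ∃ t : ℝ, 0 < t ∧ t < 1 ∧ ∀ β' μ f x : ℝ, 0 < β' → |β' - β| ≤ δ → |μ - h| ≤ δ →
      (∀ e, |μ| / 2 ≤ e → f ≤ mfG β' μ 1 e) →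
      (∀ F : ℝ, (∀ e, |μ| / 2 ≤ e → F ≤ mfG β' μ (1 - t) e) → F - δ ≤ f + t * x) →
      (∀ F : ℝ, (∀ e, |μ| / 2 ≤ e → F ≤ mfG β' μ (1 + t) e) → F - δ ≤ f - t * x) →
      |x - max 0 ((m ^ 2 - h ^ 2) / 4)| ≤ ε := by
  -- choice of `η`
  obtain ⟨η, hη, hη1, hη2⟩ : ∃ η : ℝ, 0 < η ∧ η * m + η ^ 2 ≤ ε / 4 ∧ (0 < m → 2 * η < m) := by
    have hA : ∃ η1 : ℝ, 0 < η1 ∧ (0 < m → 2 * η1 < m) := by
      by_cases h0 : 0 < m
      · exact ⟨m / 4, by positivity, fun _ => by linarith⟩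
      · exact ⟨1, one_pos, fun h => absurd h h0⟩
    obtain ⟨η1, hη1, hη1'⟩ := hA
    have hm1' : 0 < m + 1 := by linarith
    refine ⟨min η1 (min 1 (ε / (4 * (m + 1)))), by positivity, ?_, ?_⟩
    · set η := min η1 (min 1 (ε / (4 * (m + 1)))) with hdef
      have a1 : η ≤ 1 := (min_le_right _ _).trans (min_le_left _ _)
      have a2 : η ≤ ε / (4 * (m + 1)) := (min_le_right _ _).trans (min_le_right _ _)
      have a0 : 0 < η := by positivity
      rw [le_div_iff₀ (by positivity)] at a2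
      nlinarith
    · intro h0
      have a0 : min η1 (min 1 (ε / (4 * (m + 1)))) ≤ η1 := min_le_left _ _
      have := hη1' h0
      linarith
  set y1 := m + 2 * η with hy1
  set y0 := m - 2 * η with hy0
  have hy1p : 0 < y1 := by positivity
  have H1 : Real.tanh (β * (y1 / 2)) < y1 := by
    rcases lt_or_eq_of_le hm with h0 | h0
    · have h3 := ratio_anti β hβ (show m / 2 ∈ Set.Ioi (0 : ℝ) from by simp; exact h0)
        (show y1 / 2 ∈ Set.Ioi (0 : ℝ) from by simp; exact hy1p) (by rw [hy1]; linarith)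
      simp only at h3
      have h4 : Real.tanh (β * (m / 2)) / (m / 2) = 2 := by
        have : β * (m / 2) = β * m / 2 := by ring
        rw [this, ← hm1]; field_simp
      rw [h4, div_lt_iff₀ (by positivity)] at h3
      linarith
    · have h5 : β ≤ 2 := by
        rcases hm2 with h | h
        · rw [← h0] at h; exact absurd h (lt_irrefl _)
        · exact h
      have h6 := tanh_lt_self' (β * (y1 / 2)) (by positivity)
      nlinarith
  have H0 : 0 < m → y0 < Real.tanh (β * (y0 / 2)) := by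
    intro h0
    have hy0p : 0 < y0 := by have := hη2 h0; rw [hy0]; linarith
    have h3 := ratio_anti β hβ (show y0 / 2 ∈ Set.Ioi (0 : ℝ) from by simp; exact hy0p)
        (show m / 2 ∈ Set.Ioi (0 : ℝ) from by simp; exact h0) (by rw [hy0]; linarith)
    simp only at h3
    have h4 : Real.tanh (β * (m / 2)) / (m / 2) = 2 := by
      have : β * (m / 2) = β * m / 2 := by ring
      rw [this, ← hm1]; field_simp
    rw [h4, lt_div_iff₀ (by positivity)] at h3
    linarith
  obtain ⟨t, ht0, ht1, T1, T0⟩ := choose_t β y0 y1 (0 < m) H1 H0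
  obtain ⟨d, hd, hd2⟩ := choose_d β y0 y1 t (0 < m) T1 T0
  refine ⟨min d (min (t * ε / 2) (min 1 (ε / (2 * |h| + 1)))), by positivity, t, ht0, ht1, ?_⟩
  intro β' μ f x hβ' hb hμ hf hL hU
  set δ := min d (min (t * ε / 2) (min 1 (ε / (2 * |h| + 1)))) with hδ
  have d1 : δ ≤ d := min_le_left _ _
  have d2 : δ ≤ t * ε / 2 := (min_le_right _ _).trans (min_le_left _ _)
  have d3 : δ ≤ 1 := (min_le_right _ _).trans ((min_le_right _ _).trans (min_le_left _ _))
  have d4 : δ ≤ ε / (2 * |h| + 1) :=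
    (min_le_right _ _).trans ((min_le_right _ _).trans (min_le_right _ _))
  have dpos : 0 < δ := by positivity
  have habs := abs_nonneg h
  have hmu : |μ ^ 2 - h ^ 2| ≤ ε := by
    have e1 : μ ^ 2 - h ^ 2 = (μ - h) * (μ + h) := by ring
    rw [e1, abs_mul]
    have e2 : |μ + h| ≤ 2 * |h| + 1 := by
      have : μ + h = (μ - h) + 2 * h := by ring
      rw [this]
      refine (abs_add_le _ _).trans ?_
      rw [abs_mul, abs_two]
      linarith
    rw [le_div_iff₀ (by positivity)] at d4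
    calc |μ - h| * |μ + h| ≤ δ * (2 * |h| + 1) :=
          mul_le_mul hμ e2 (abs_nonneg _) dpos.le
      _ ≤ ε := d4
  obtain ⟨B1, B0⟩ := hd2 β' (hb.trans d1)
  have hmu2 := abs_nonneg μ
  have t1 : 0 < 1 - t := by linarith
  -- minimisers
  have B1' : Real.tanh (β' * (y1 / 2)) < y1 / (1 - t) := by
    refine B1.trans_le ?_
    exact div_le_div_of_nonneg_left hy1p.le t1 (by linarith)
  obtain ⟨e1, e1a, e1b, e1c⟩ := mfG_min β' μ (1 - t) y1 (|μ| / 2) hβ' t1 hy1p (by positivity) B1'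
  obtain ⟨e2, e2a, e2b, e2c⟩ :=
    mfG_min β' μ (1 + t) y1 (|μ| / 2) hβ' (by linarith) hy1p (by positivity) B1
  have L1 := hL _ e1c
  have U1 := hU _ e2c
  have f1 := hf e1 e1a
  have f2 := hf e2 e2a
  have sqm : |μ| ^ 2 = μ ^ 2 := sq_abs μ
  have q1 : 0 ≤ e1 ^ 2 - μ ^ 2 / 4 := by nlinarith
  have q2 : 0 ≤ e2 ^ 2 - μ ^ 2 / 4 := by nlinarith
  have g1 : mfG β' μ (1 - t) e1 - mfG β' μ 1 e1 = (e1 ^ 2 - μ ^ 2 / 4) * t / (1 - t) := by
    unfold mfG; field_simp; ring
  have g2 : mfG β' μ 1 e2 - mfG β' μ (1 + t) e2 = (e2 ^ 2 - μ ^ 2 / 4) * t / (1 + t) := by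
    unfold mfG; field_simp; ring
  have k1 : (e1 ^ 2 - μ ^ 2 / 4) * t ≤ (e1 ^ 2 - μ ^ 2 / 4) * t / (1 - t) :=
    le_div_self (mul_nonneg q1 ht0.le) t1 (by linarith)
  have k2 : (e2 ^ 2 - μ ^ 2 / 4) * t / (1 + t) ≤ (e2 ^ 2 - μ ^ 2 / 4) * t :=
    div_le_self (mul_nonneg q2 ht0.le) (by linarith)
  have x1 : (e1 ^ 2 - μ ^ 2 / 4) - ε / 2 ≤ x := by
    have : (e1 ^ 2 - μ ^ 2 / 4) * t - t * ε / 2 ≤ t * x := by linarith
    have h8 : t * ((e1 ^ 2 - μ ^ 2 / 4) - ε / 2) = (e1 ^ 2 - μ ^ 2 / 4) * t - t * ε / 2 := by ring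
    have h9 : t * ((e1 ^ 2 - μ ^ 2 / 4) - ε / 2) ≤ t * x := by rw [h8]; exact this
    exact le_of_mul_le_mul_left h9 ht0
  have x2 : x ≤ (e2 ^ 2 - μ ^ 2 / 4) + ε / 2 := by
    have h8 : t * ((e2 ^ 2 - μ ^ 2 / 4) + ε / 2) = (e2 ^ 2 - μ ^ 2 / 4) * t + t * ε / 2 := by ring
    have h9 : t * x ≤ t * ((e2 ^ 2 - μ ^ 2 / 4) + ε / 2) := by rw [h8]; linarith
    exact le_of_mul_le_mul_left h9 ht0
  rw [abs_le] at hmu
  obtain ⟨m1, m2⟩ := hmu
  rw [abs_le]
  constructor
  · -- lower bound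
    rcases le_or_gt ((m ^ 2 - h ^ 2) / 4) 0 with hc | hc
    · rw [max_eq_left hc]; linarith
    · rw [max_eq_right hc.le]
      rcases lt_or_eq_of_le hm with h0 | h0
      · have hy0p : 0 < y0 := by have := hη2 h0; rw [hy0]; linarith
        have e1y : y0 / 2 ≤ e1 := by
          by_contra hcon
          push Not at hcon
          have hanti := mfG_anti β' μ (1 - t) y0 hβ' t1 hy0p (B0 h0)
          have h10 : 0 ≤ e1 := by linarith
          have h11 := hanti (Set.mem_Icc.2 ⟨h10, hcon.le⟩) (Set.mem_Icc.2 ⟨by positivity, le_refl _⟩) hcon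
          have h12 := e1c (y0 / 2) (by linarith)
          simp only at h11
          linarith
        have h13 : (y0 / 2) ^ 2 ≤ e1 ^ 2 := by
          apply pow_le_pow_left₀ (by positivity) e1y
        have h14 : (y0 / 2) ^ 2 = m ^ 2 / 4 - η * m + η ^ 2 := by rw [hy0]; ring
        have h15 := sq_nonneg η
        linarith
      · exfalso
        rw [← h0] at hc
        nlinarith [sq_nonneg h]
  · rcases le_max_iff.1 e2b with hc | hc
    · have h15 : e2 ^ 2 ≤ μ ^ 2 / 4 := by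
        have : e2 = |μ| / 2 := le_antisymm hc e2a
        rw [this]; nlinarith
      have := le_max_left 0 ((m ^ 2 - h ^ 2) / 4)
      linarith
    · have h16 : e2 ^ 2 ≤ (y1 / 2) ^ 2 := by
        apply pow_le_pow_left₀ (by linarith) hc
      have h14 : (y1 / 2) ^ 2 = m ^ 2 / 4 + η * m + η ^ 2 := by rw [hy1]; ring
      have := le_max_right 0 ((m ^ 2 - h ^ 2) / 4)
      linarith

end Pool.Agent.TH268.TB
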