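import Pool.Agent.TH268.TB.Sub
import Pool.Agent.TH268.TB.MF

/-!
# One-site forms, and their product bases
-/

set_option autoImplicit false

open Finset BigOperators

namespace Pool.Agent.TH268.TB

open Pool.Agent.H11R2.BEC

/-- the eigenvalues of the one-site form -/
noncomputable def sg (μ e : ℝ) (k : Bool) : ℝ := -μ / 2 + (if k then e else -e)

/-- half angle -/
theorem half_angle (μ e ρ : ℝ) (he : 0 ≤ e) (hρ : 0 ≤ ρ) (h : e ^ 2 = μ ^ 2 / 4 + ρ ^ 2) :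
    ∃ a b : ℝ, a ^ 2 + b ^ 2 = 1 ∧ e * (a ^ 2 - b ^ 2) = μ / 2 ∧ 2 * e * (a * b) = ρ := by
  rcases he.eq_or_lt with h0 | h0
  · refine ⟨1, 0, by norm_num, ?_, ?_⟩
    · rw [← h0] at h ⊢
      have : μ = 0 := by nlinarith [sq_nonneg μ, sq_nonneg ρ]
      rw [this]; ring
    · rw [← h0] at h
      have : ρ = 0 := by nlinarith [sq_nonneg μ, sq_nonneg ρ]
      rw [this]; ring
  · have hmu : |μ / (2 * e)| ≤ 1 := by
      rw [abs_div, abs_of_pos (by positivity : 0 < 2 * e), div_le_one (by positivity)]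
      exact abs_le_of_sq_le_sq (by nlinarith [sq_nonneg ρ]) (by positivity)
    obtain ⟨h1, h2⟩ := abs_le.1 hmu
    have ha : 0 ≤ (1 + μ / (2 * e)) / 2 := by linarith
    have hb : 0 ≤ (1 - μ / (2 * e)) / 2 := by linarith
    refine ⟨Real.sqrt ((1 + μ / (2 * e)) / 2), Real.sqrt ((1 - μ / (2 * e)) / 2), ?_, ?_, ?_⟩
    · rw [Real.sq_sqrt ha, Real.sq_sqrt hb]; ring
    · rw [Real.sq_sqrt ha, Real.sq_sqrt hb]
      field_simp
      ring
    · rw [← Real.sqrt_mul ha]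
      have h3 : (1 + μ / (2 * e)) / 2 * ((1 - μ / (2 * e)) / 2) = (ρ / (2 * e)) ^ 2 := by
        field_simp
        nlinarith
      rw [h3, Real.sqrt_sq (by positivity)]
      field_simp

theorem nrm2 (x y : ℝ) (P m : ℂ) : ‖(x : ℂ) * P + (y : ℂ) * m‖ ^ 2 =
    x ^ 2 * ‖P‖ ^ 2 + y ^ 2 * ‖m‖ ^ 2 + 2 * x * y * ((starRingEnd ℂ) m * P).re := by
  have hn : ∀ z : ℂ, ‖z‖ ^ 2 = z.re ^ 2 + z.im ^ 2 := by
    intro z
    rw [← Complex.normSq_eq_norm_sq, Complex.normSq_apply]; ring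
  rw [hn, hn, hn]
  simp only [Complex.add_re, Complex.add_im, Complex.mul_re, Complex.mul_im,
    Complex.ofReal_re, Complex.ofReal_im, Complex.conj_re, Complex.conj_im]
  ring

theorem one_site (μ e : ℝ) (γ : ℂ) (he : 0 ≤ e) (h : e ^ 2 = μ ^ 2 / 4 + ‖γ‖ ^ 2) :
    ∃ U : Matrix Bool Bool ℂ,
      (∀ w : Bool → ℂ, ∑ k, ‖∑ ζ, U k ζ * w ζ‖ ^ 2 = ∑ ζ, ‖w ζ‖ ^ 2) ∧
      (∀ k, ∑ ζ, ‖U k ζ‖ ^ 2 = 1) ∧
      (∀ w : Bool → ℂ, ∑ k, sg μ e k * ‖∑ ζ, U k ζ * w ζ‖ ^ 2 =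
        -2 * ((starRingEnd ℂ) γ * ((starRingEnd ℂ) (w false) * w true)).re
          - μ * ‖w true‖ ^ 2) := by
  obtain ⟨a, b, h1, h2, h3⟩ := half_angle μ e ‖γ‖ he (norm_nonneg _) h
  -- the phase
  obtain ⟨p, hp, hγ⟩ : ∃ p : ℂ, ‖p‖ = 1 ∧ γ = ‖γ‖ * p := by
    by_cases hg : γ = 0
    · exact ⟨1, norm_one, by rw [hg]; simp⟩
    · refine ⟨γ / ‖γ‖, ?_, ?_⟩
      · rw [norm_div, Complex.norm_real, norm_norm, div_self (norm_ne_zero_iff.2 hg)]
      · rw [mul_div_cancel₀]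
        exact_mod_cast norm_ne_zero_iff.2 hg
  obtain ⟨U, hUdef⟩ : ∃ U : Matrix Bool Bool ℂ, U = Matrix.of fun k ζ =>
    if k then (if ζ then ((-b : ℝ) : ℂ) * (starRingEnd ℂ) p else (a : ℂ))
    else (if ζ then (a : ℂ) * (starRingEnd ℂ) p else (b : ℂ)) := ⟨_, rfl⟩
  have hU1 : ∀ (w : Bool → ℂ), ∑ ζ, U true ζ * w ζ =
      ((-b : ℝ) : ℂ) * ((starRingEnd ℂ) p * w true) + (a : ℂ) * w false := by
    intro w
    rw [Fintype.sum_bool, hUdef]
    simp [mul_assoc]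
  have hU2 : ∀ (w : Bool → ℂ), ∑ ζ, U false ζ * w ζ =
      (a : ℂ) * ((starRingEnd ℂ) p * w true) + (b : ℂ) * w false := by
    intro w
    rw [Fintype.sum_bool, hUdef]
    simp [mul_assoc]
  have hP : ∀ w : Bool → ℂ, ‖(starRingEnd ℂ) p * w true‖ = ‖w true‖ := by
    intro w
    rw [norm_mul, Complex.norm_conj, hp, one_mul]
  refine ⟨U, ?_, ?_, ?_⟩
  · intro w
    rw [Fintype.sum_bool (fun k => ‖∑ ζ, U k ζ * w ζ‖ ^ 2), Fintype.sum_bool (fun ζ => ‖w ζ‖ ^ 2),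
      hU1, hU2, nrm2, nrm2, hP]
    have e1 : a ^ 2 = 1 - b ^ 2 := by linarith
    linear_combination (‖w true‖ ^ 2 + ‖w false‖ ^ 2) * h1
  · intro k
    rw [Fintype.sum_bool, hUdef]
    cases k
    · simp [hp]
      linarith
    · simp [hp]
      linarith
  · intro w
    rw [Fintype.sum_bool (fun k => sg μ e k * ‖∑ ζ, U k ζ * w ζ‖ ^ 2), hU1, hU2, nrm2, nrm2, hP]
    have e2 : ((starRingEnd ℂ) γ * ((starRingEnd ℂ) (w false) * w true)).re =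
        ‖γ‖ * ((starRingEnd ℂ) (w false) * ((starRingEnd ℂ) p * w true)).re := by
      conv_lhs => rw [hγ]
      rw [map_mul, Complex.conj_ofReal, mul_assoc, Complex.re_ofReal_mul]
      congr 2
      ring
    rw [e2]
    unfold sg
    simp only [if_true, Bool.false_eq_true, if_false]
    linear_combination (-μ / 2 * (‖w true‖ ^ 2 + ‖w false‖ ^ 2)) * h1 +
      (‖w false‖ ^ 2 - ‖w true‖ ^ 2) * h2 -
      2 * ((starRingEnd ℂ) (w false) * ((starRingEnd ℂ) p * w true)).re * h3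

section pb
variable {Q : Type} [Fintype Q] [DecidableEq Q]

/-- the product basis -/
noncomputable def pb (U : Matrix Bool Bool ℂ) (K : Q → Bool) : WF Q :=
  fun η => ∏ y, (starRingEnd ℂ) (U (K y) (η y))

theorem gip_pb (U : Matrix Bool Bool ℂ) (K : Q → Bool) (v : WF Q) :
    gip (pb U K) v = tt (fun _ => U) v K := by
  unfold gip pb tt
  refine Finset.sum_congr rfl fun η _ => ?_
  rw [map_prod]
  simp only [Complex.conj_conj]

theorem gns_pb {U : Matrix Bool Bool ℂ} (hU : ∀ k, ∑ ζ, ‖U k ζ‖ ^ 2 = 1) (K : Q → Bool) :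
    gns (pb U K) = 1 := by
  unfold gns pb
  have h1 : ∀ η : Q → Bool, ‖∏ y, (starRingEnd ℂ) (U (K y) (η y))‖ ^ 2 =
      ∏ y, ‖U (K y) (η y)‖ ^ 2 := by
    intro η
    rw [norm_prod, ← Finset.prod_pow]
    exact Finset.prod_congr rfl fun y _ => by rw [Complex.norm_conj]
  rw [Finset.sum_congr rfl fun η _ => h1 η, ← Fintype.piFinset_univ,
    ← Finset.prod_univ_sum (fun _ => (univ : Finset Bool)) (fun y ζ => ‖U (K y) ζ‖ ^ 2)]
  exact Finset.prod_eq_one fun y _ => hU (K y)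

theorem pb_onb {U : Matrix Bool Bool ℂ}
    (hU : ∀ w : Bool → ℂ, ∑ k, ‖∑ ζ, U k ζ * w ζ‖ ^ 2 = ∑ ζ, ‖w ζ‖ ^ 2)
    (hU1 : ∀ k, ∑ ζ, ‖U k ζ‖ ^ 2 = 1) : ONB (pb U : (Q → Bool) → WF Q) where
  norm := gns_pb hU1
  pars := by
    intro v
    rw [← tt_iso (fun _ => U) (fun _ => hU) v]
    unfold gns
    exact Finset.sum_congr rfl fun K _ => by rw [gip_pb]

theorem pb_marg {U : Matrix Bool Bool ℂ}
    (hU : ∀ w : Bool → ℂ, ∑ k, ‖∑ ζ, U k ζ * w ζ‖ ^ 2 = ∑ ζ, ‖w ζ‖ ^ 2)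
    (s : Bool → ℝ) (F : (Bool → ℂ) → ℝ)
    (hF : ∀ w : Bool → ℂ, ∑ k, s k * ‖∑ ζ, U k ζ * w ζ‖ ^ 2 = F w) (χ : WF Q) (y : Q) :
    2 * ∑ K : Q → Bool, s (K y) * ‖gip (pb U K) χ‖ ^ 2 =
      ∑ K : Q → Bool, F (fun ζ => χ (Function.update K y ζ)) := by
  have h1 : ∀ k : Bool, 2 * ∑ K : Q → Bool, (if K y = k then ‖gip (pb U K) χ‖ ^ 2 else 0) =
      ∑ K : Q → Bool, ‖∑ ζ, U k ζ * χ (Function.update K y ζ)‖ ^ 2 := by
    intro k
    have h := tt_marg (fun _ : Q => U) (fun _ => hU) y k χ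
    simp only [Fintype.card_bool, Nat.cast_ofNat, ← gip_pb] at h
    exact h
  have h2 : ∑ K : Q → Bool, F (fun ζ => χ (Function.update K y ζ)) =
      ∑ k, s k * ∑ K : Q → Bool, ‖∑ ζ, U k ζ * χ (Function.update K y ζ)‖ ^ 2 := by
    simp only [Finset.mul_sum]
    rw [Finset.sum_comm]
    exact Finset.sum_congr rfl fun K _ => (hF _).symm
  rw [h2, Finset.mul_sum]
  simp only [← h1]
  simp only [Finset.mul_sum]
  rw [Finset.sum_comm]
  refine Finset.sum_congr rfl fun K _ => ?_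
  rw [Finset.sum_eq_single (K y)]
  · rw [if_pos rfl]; ring
  · intro k _ hk
    rw [if_neg (Ne.symm hk)]; ring
  · intro h; exact absurd (Finset.mem_univ _) h

/-- the one-site form in the product basis -/
theorem pb_form {U : Matrix Bool Bool ℂ} {μ e : ℝ} {γ : ℂ}
    (hU : ∀ w : Bool → ℂ, ∑ k, ‖∑ ζ, U k ζ * w ζ‖ ^ 2 = ∑ ζ, ‖w ζ‖ ^ 2)
    (hF : ∀ w : Bool → ℂ, ∑ k, sg μ e k * ‖∑ ζ, U k ζ * w ζ‖ ^ 2 =
        -2 * ((starRingEnd ℂ) γ * ((starRingEnd ℂ) (w false) * w true)).re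
          - μ * ‖w true‖ ^ 2) (χ : WF Q) (y : Q) :
    ∑ K : Q → Bool, sg μ e (K y) * ‖gip (pb U K) χ‖ ^ 2 =
      -2 * ((starRingEnd ℂ) γ * ip χ (low y χ)).re - μ * pd χ y y := by
  have h1 := pb_marg hU (sg μ e) _ hF χ y
  have h2 := sum_fiber y (fun K : Q → Bool => ((starRingEnd ℂ) γ *
    ((starRingEnd ℂ) (χ K) * low y χ K)).re)
  have h3 := sum_fiber y (fun K : Q → Bool => if (K y = true ∧ K y = true) then ‖χ K‖ ^ 2 else 0)
  simp only [Fintype.card_bool, Nat.cast_ofNat] at h2 h3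
  have h4 : ∑ K : Q → Bool, ((starRingEnd ℂ) γ * ((starRingEnd ℂ) (χ K) * low y χ K)).re =
      ((starRingEnd ℂ) γ * ip χ (low y χ)).re := by
    unfold ip
    rw [Finset.mul_sum, Complex.re_sum]
  have h5 : ∑ K : Q → Bool, (if (K y = true ∧ K y = true) then ‖χ K‖ ^ 2 else 0) = pd χ y y := rfl
  rw [h4] at h2
  rw [h5] at h3
  have h6 : ∑ K : Q → Bool, (-2 * ((starRingEnd ℂ) γ * ((starRingEnd ℂ)
      (χ (Function.update K y false)) * χ (Function.update K y true))).re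
          - μ * ‖χ (Function.update K y true)‖ ^ 2) =
      -2 * (2 * ((starRingEnd ℂ) γ * ip χ (low y χ)).re) - μ * (2 * pd χ y y) := by
    rw [← h2, ← h3, Finset.mul_sum, Finset.mul_sum, ← Finset.sum_sub_distrib]
    refine Finset.sum_congr rfl fun K _ => ?_
    rw [Fintype.sum_bool, Fintype.sum_bool]
    simp [low]
  rw [h6] at h1
  linarith

end pb

end Pool.Agent.TH268.TB
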