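import Pool.Agent.TH268.TB.Sub
import Pool.Agent.TH268.TB.MF
import Pool.Agent.TH268.TB.OneSite

/-!
# The mean-field upper bound of the free energy
-/

set_option autoImplicit false

open Finset BigOperators

namespace Pool.Agent.TH268.TB

open Pool.Agent.H11R2.BEC

/-- completing the square -/
theorem square_id {Q : Type} [Fintype Q] [DecidableEq Q] (χ a : WF Q) (c : ℂ) :
    - nsq a + nsq (fun η => a η - c * χ η) =
      ‖c‖ ^ 2 * nsq χ - 2 * ((starRingEnd ℂ) c * ip χ a).re := by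
  unfold nsq ip
  rw [Finset.mul_sum, Finset.mul_sum, Complex.re_sum, Finset.mul_sum, ← Finset.sum_neg_distrib,
    ← Finset.sum_add_distrib, ← Finset.sum_sub_distrib]
  refine Finset.sum_congr rfl fun η _ => ?_
  have hn : ∀ z : ℂ, ‖z‖ ^ 2 = z.re ^ 2 + z.im ^ 2 := by
    intro z
    rw [← Complex.normSq_eq_norm_sq, Complex.normSq_apply]; ring
  rw [hn, hn, hn, hn]
  simp only [Complex.sub_re, Complex.sub_im, Complex.mul_re, Complex.mul_im,
    Complex.conj_re, Complex.conj_im]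
  ring

theorem site_zero_sub (d : ℕ) (x : Site d 0) : x = 0 := by
  funext ν
  have : Subsingleton (ZMod (2 ^ 0)) := by
    rw [pow_zero]; infer_instance
  exact Subsingleton.elim _ _

theorem rhs_zero {d J : ℕ} (q μ : ℝ) (c : ℂ) (χ : WF (Site d 0)) :
    rhs q μ 1 J c χ = ‖c‖ ^ 2 * nsq χ +
      (-2 * ((starRingEnd ℂ) c * ip χ (low 0 χ)).re - μ * pd χ 0 0) := by
  unfold rhs
  rw [t8_av_zero]
  have h1 := square_id χ (low 0 χ) c
  have h2 : rho χ = pd χ 0 0 := by
    unfold rho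
    rw [Finset.sum_eq_single (0 : Site d 0)]
    · simp
    · intro x _ hx
      exact absurd (site_zero_sub d x) hx
    · intro h; exact absurd (Finset.mem_univ _) h
  rw [h2, Finset.range_zero, Finset.sum_empty]
  linarith

/-- the partition function of one site -/
theorem Z1_eq (μ e β : ℝ) : ∑ k, Real.exp (-(β * sg μ e k)) =
    Real.exp (β * μ / 2) * (2 * Real.cosh (β * e)) := by
  rw [Fintype.sum_bool, Real.cosh_eq]
  unfold sg
  simp only [if_true, Bool.false_eq_true, if_false]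
  rw [show -(β * (-μ / 2 + e)) = β * μ / 2 + -(β * e) by ring,
    show -(β * (-μ / 2 + -e)) = β * μ / 2 + β * e by ring, Real.exp_add, Real.exp_add]
  ring

theorem log_Z1 (μ e β : ℝ) : Real.log (∑ k, Real.exp (-(β * sg μ e k))) =
    β * μ / 2 + Real.log (2 * Real.cosh (β * e)) := by
  have := Real.cosh_pos (β * e)
  rw [Z1_eq, Real.log_mul (Real.exp_pos _).ne' (by positivity), Real.log_exp]

theorem Z1_pos (μ e β : ℝ) : 0 < ∑ k, Real.exp (-(β * sg μ e k)) :=
  Finset.sum_pos (fun _ _ => Real.exp_pos _) Finset.univ_nonempty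

/-- TB-E -/
theorem mf_upper {d J : ℕ} {q μ β : ℝ} (hq0 : 0 ≤ q) (hq1 : q ≤ 1) (hβ : 0 < β)
    {ψ : (Site d J → Bool) → WF (Site d J)} {E : (Site d J → Bool) → ℝ} (hψ : ONB ψ)
    (hE : ∀ χ : WF (Site d J), (2 : ℝ) ^ (d * J) * en q 0 μ χ = ∑ m, E m * ‖gip (ψ m) χ‖ ^ 2)
    (e : ℝ) (he : |μ| / 2 ≤ e) :
    - ((1 / β) * (Real.log (∑ m, Real.exp (-(β * E m))) / 2 ^ (d * J))) ≤ mfG β μ 1 e := by
  have he0 : 0 ≤ e := le_trans (by positivity) he
  have hsq : μ ^ 2 / 4 ≤ e ^ 2 := by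
    have h := pow_le_pow_left₀ (by positivity) he 2
    rw [div_pow, sq_abs] at h
    norm_num at h
    linarith
  set c : ℝ := Real.sqrt (e ^ 2 - μ ^ 2 / 4) with hc
  have hc2 : c ^ 2 = e ^ 2 - μ ^ 2 / 4 := Real.sq_sqrt (by linarith)
  have hcn : ‖(c : ℂ)‖ ^ 2 = c ^ 2 := by
    rw [Complex.norm_real, Real.norm_eq_abs, sq_abs]
  obtain ⟨U, hU, hU1, hF⟩ := one_site μ e (c : ℂ) he0 (by rw [hcn, hc2]; ring)
  have honb : ONB (pb U : (Site d 0 → Bool) → WF (Site d 0)) := pb_onb hU hU1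
  set Z : ℝ := ∑ k, Real.exp (-(β * sg μ e k)) with hZ
  have hZ0 : 0 < Z := Z1_pos μ e β
  -- the sum over the configurations of one site
  have hsum : ∀ f : Bool → ℝ, ∑ K : Site d 0 → Bool, f (K 0) = ∑ k, f k := by
    intro f
    let eqv : (Site d 0 → Bool) ≃ Bool :=
      { toFun := fun K => K 0
        invFun := fun k _ => k
        left_inv := fun K => by funext x; rw [site_zero_sub d x]
        right_inv := fun k => rfl }
    exact Equiv.sum_comp eqv f
  have hns : ∀ K : Site d 0 → Bool, nsq (pb U K : WF (Site d 0)) = 1 := honb.norm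
  have hrhs : ∀ K : Site d 0 → Bool, rhs q μ 1 J (c : ℂ) (pb U K : WF (Site d 0)) =
      c ^ 2 + sg μ e (K 0) := by
    intro K
    rw [rhs_zero, hns, hcn, mul_one, ← pb_form hU hF]
    congr 1
    rw [Finset.sum_eq_single K]
    · rw [honb.orth, if_pos rfl, mul_one]
    · intro K' _ hK
      rw [honb.orth, if_neg hK, mul_zero]
    · intro h; exact absurd (Finset.mem_univ _) h
  have hr1 : ∑ k : Bool, Real.exp (-(β * sg μ e k)) / Z = 1 := by
    rw [← Finset.sum_div, div_self hZ0.ne']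
  have key := trialT (d := d) (J := J) (j := 0) (Nat.zero_le _) hq0 hq1 hβ hψ hE
    (pb U) (fun K => Real.exp (-(β * sg μ e (K 0))) / Z) (fun K => by positivity) 1
    (by
      simp only [hns, mul_one]
      rw [hsum (fun k => Real.exp (-(β * sg μ e k)) / Z), hr1]) one_pos
    (fun v => (honb.pars v).le) (c : ℂ) one_pos
  simp only [hns, hrhs, mul_one, one_mul, Real.log_one, sub_zero, Nat.mul_zero, pow_zero,
    div_one] at key
  rw [hsum (fun k => Real.exp (-(β * sg μ e k)) / Z * (c ^ 2 + sg μ e k)),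
    hsum (fun k => Real.exp (-(β * sg μ e k)) / Z * Real.log (Real.exp (-(β * sg μ e k)) / Z))]
    at key
  have h1 : ∀ k, Real.log (Real.exp (-(β * sg μ e k)) / Z) = -(β * sg μ e k) - Real.log Z := by
    intro k
    rw [Real.log_div (Real.exp_pos _).ne' hZ0.ne', Real.log_exp]
  have h2 : -(β * ∑ k, Real.exp (-(β * sg μ e k)) / Z * (c ^ 2 + sg μ e k)) -
      ∑ k, Real.exp (-(β * sg μ e k)) / Z * Real.log (Real.exp (-(β * sg μ e k)) / Z) =
      (-(β * c ^ 2) + Real.log Z) * ∑ k : Bool, Real.exp (-(β * sg μ e k)) / Z := by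
    rw [Finset.mul_sum, Finset.mul_sum, ← Finset.sum_neg_distrib, ← Finset.sum_sub_distrib]
    refine Finset.sum_congr rfl fun k _ => ?_
    rw [h1]; ring
  rw [h2, hr1, mul_one, hZ, log_Z1] at key
  unfold mfG
  have h3 := mul_le_mul_of_nonneg_left key (show 0 ≤ 1 / β by positivity)
  have h4 : 1 / β * (-(β * c ^ 2) + (β * μ / 2 + Real.log (2 * Real.cosh (β * e)))) =
      -(c ^ 2) + μ / 2 + 1 / β * Real.log (2 * Real.cosh (β * e)) := by
    field_simp
    ring
  rw [h4, hc2] at h3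
  linarith

end Pool.Agent.TH268.TB
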