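import Pool.Agent.TH268.TB.Sub
import Pool.Agent.TH268.TB.MF
import Pool.Agent.TH268.TB.LocC
import Pool.Agent.TH268.TB.MFUp

/-!
# The lower bound of the free energy of one cube by mean-field theory
-/

set_option autoImplicit false

open Finset BigOperators

namespace Pool.Agent.TH268.TB

open Pool.Agent.H11R2.BEC

/-- the Gibbs weights of a product of sites -/
noncomputable def bw {Q : Type} [Fintype Q] (β μ e : ℝ) (K : Q → Bool) : ℝ :=
  ∏ y, (Real.exp (-(β * sg μ e (K y))) / ∑ k, Real.exp (-(β * sg μ e k)))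

theorem bw_pos {Q : Type} [Fintype Q] (β μ e : ℝ) (K : Q → Bool) : 0 < bw β μ e K :=
  Finset.prod_pos fun _ _ => div_pos (Real.exp_pos _) (Z1_pos μ e β)

theorem bw_sum {Q : Type} [Fintype Q] [DecidableEq Q] (β μ e : ℝ) :
    ∑ K : Q → Bool, bw β μ e K = 1 := by
  unfold bw
  refine sum_prod_one (I := Q) (fun k => Real.exp (-(β * sg μ e k)) /
    ∑ k, Real.exp (-(β * sg μ e k))) ?_
  rw [← Finset.sum_div, div_self (Z1_pos μ e β).ne']

theorem log_bw {Q : Type} [Fintype Q] (β μ e : ℝ) (K : Q → Bool) :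
    Real.log (bw β μ e K) = -(β * ∑ y, sg μ e (K y)) -
      Fintype.card Q * Real.log (∑ k, Real.exp (-(β * sg μ e k))) := by
  unfold bw
  rw [Real.log_prod (fun y _ => (div_pos (Real.exp_pos _) (Z1_pos μ e β)).ne')]
  have h1 : ∀ y, Real.log (Real.exp (-(β * sg μ e (K y))) / ∑ k, Real.exp (-(β * sg μ e k))) =
      -(β * sg μ e (K y)) - Real.log (∑ k, Real.exp (-(β * sg μ e k))) := by
    intro y
    rw [Real.log_div (Real.exp_pos _).ne' (Z1_pos μ e β).ne', Real.log_exp]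
  rw [Finset.sum_congr rfl fun y _ => h1 y, Finset.sum_sub_distrib, Finset.sum_neg_distrib,
    ← Finset.mul_sum, Finset.sum_const, Finset.card_univ, nsmul_eq_mul]

/-- the entropy estimate -/
theorem cube_entropy {Q A : Type} [Fintype Q] [DecidableEq Q] [Fintype A] (β μ : ℝ)
    (φ : (Q → Bool) → WF Q) (r : (Q → Bool) → ℝ)
    (hφ : ONB φ) (hr : ∀ x, 0 ≤ r x) (hr1 : ∑ x, r x = 1)
    (L : A → WF Q → WF Q)
    (hL : ∀ α, ∃ L' : WF Q → WF Q, (∀ φ χ, ip (L α φ) χ = ip φ (L' χ)) ∧ ∀ χ, nsq (L' χ) ≤ nsq χ)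
    (hs : ∀ φ, ∑ α, nsq (L α φ) = nsq φ)
    (U : A → Matrix Bool Bool ℂ)
    (hU : ∀ α, ∀ w : Bool → ℂ, ∑ k, ‖∑ ζ, U α k ζ * w ζ‖ ^ 2 = ∑ ζ, ‖w ζ‖ ^ 2)
    (hU1 : ∀ α k, ∑ ζ, ‖U α k ζ‖ ^ 2 = 1) (e : A → ℝ) :
    - (∑ x, r x * Real.log (r x)) - β * (∑ x, r x * ∑ α, ∑ K : Q → Bool,
        (∑ y, sg μ (e α) (K y)) * ‖gip (pb (U α) K) (L α (φ x))‖ ^ 2)
      - Fintype.card Q * (∑ x, r x * ∑ α, Real.log (∑ k, Real.exp (-(β * sg μ (e α) k))) *
        nsq (L α (φ x))) ≤ Real.log (Fintype.card A) := by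
  have honb : ∀ α, ONB (pb (U α) : (Q → Bool) → WF Q) := fun α => pb_onb (hU α) (hU1 α)
  have hn1 : ∀ x, ∑ α, nsq (L α (φ x)) = 1 := fun x => by rw [hs]; exact hφ.norm x
  set p : (A × (Q → Bool)) × (Q → Bool) → ℝ :=
    fun t => ‖gip (pb (U t.1.1) t.1.2) (L t.1.1 (φ t.2))‖ ^ 2 with hp
  have hpe : ∀ α K x, p ((α, K), x) = ‖gip (pb (U α) K) (L α (φ x))‖ ^ 2 := fun _ _ _ => rfl
  have hnn : ∀ α x, ∑ K : Q → Bool, ‖gip (pb (U α) K) (L α (φ x))‖ ^ 2 = nsq (L α (φ x)) :=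
    fun α x => (honb α).pars (L α (φ x))
  have hpn : ∀ t, 0 ≤ p t := fun t => by rw [hp]; positivity
  have hsum : ∑ t : (A × (Q → Bool)) × (Q → Bool), r t.2 * p t = 1 := by
    rw [Fintype.sum_prod_type_right, ← hr1]
    refine Finset.sum_congr rfl fun x _ => ?_
    dsimp only
    rw [← Finset.mul_sum, Fintype.sum_prod_type]
    have : ∀ α, ∑ K : Q → Bool, p ((α, K), x) = nsq (L α (φ x)) := by
      intro α
      simp only [hpe]
      exact hnn α x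
    rw [Finset.sum_congr rfl fun α _ => this α, hn1, mul_one]
  have hJ := jensen_log p (fun t => r t.2) (fun t => bw β μ (e t.1.1) t.1.2) hpn
    (fun t => hr t.2) (fun t => (bw_pos _ _ _ _).le) hsum
    (fun t h => absurd h (bw_pos _ _ _ _).ne')
  have hpos := jensen_pos p (fun t => r t.2) (fun t => bw β μ (e t.1.1) t.1.2) hpn hsum
    (fun t => bw_pos _ _ _ _)
  have hle : ∑ t : (A × (Q → Bool)) × (Q → Bool), bw β μ (e t.1.1) t.1.2 * p t ≤
      (Fintype.card A : ℝ) := by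
    rw [Fintype.sum_prod_type, Fintype.sum_prod_type]
    have h1 : ∀ α, ∑ K : Q → Bool, ∑ x : Q → Bool,
        bw β μ (e α) K * p ((α, K), x) ≤ 1 := by
      intro α
      obtain ⟨L', hL1, hL2⟩ := hL α
      rw [← bw_sum (Q := Q) β μ (e α)]
      refine Finset.sum_le_sum fun K _ => ?_
      rw [← Finset.mul_sum]
      have h2 : ∑ x : Q → Bool, p ((α, K), x) ≤ 1 := by
        have h3 : ∀ x : Q → Bool, p ((α, K), x) = ‖gip (φ x) (L' (pb (U α) K))‖ ^ 2 := by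
          intro x
          have h4 : gip (L α (φ x)) (pb (U α) K) = gip (φ x) (L' (pb (U α) K)) :=
            hL1 (φ x) (pb (U α) K)
          rw [hpe, ← h4, gip_norm_comm]
        rw [Finset.sum_congr rfl fun x _ => h3 x, hφ.pars, ← (honb α).norm K]
        exact hL2 (pb (U α) K)
      calc _ ≤ bw β μ (e α) K * 1 := mul_le_mul_of_nonneg_left h2 (bw_pos _ _ _ _).le
        _ = _ := mul_one _
    refine (Finset.sum_le_sum fun α _ => h1 α).trans (le_of_eq ?_)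
    simp
  refine le_trans (le_of_eq ?_) (hJ.trans (Real.log_le_log hpos hle))
  rw [Fintype.sum_prod_type_right, Finset.mul_sum, Finset.mul_sum, ← Finset.sum_neg_distrib,
    ← Finset.sum_sub_distrib, ← Finset.sum_sub_distrib]
  refine Finset.sum_congr rfl fun x _ => ?_
  rw [Fintype.sum_prod_type]
  dsimp only
  have h5 : ∀ α, ∑ K : Q → Bool, r x * p ((α, K), x) *
      (Real.log (bw β μ (e α) K) - Real.log (r x)) =
      r x * (-(β * ∑ K : Q → Bool,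
        (∑ y, sg μ (e α) (K y)) * ‖gip (pb (U α) K) (L α (φ x))‖ ^ 2) -
        Fintype.card Q * (Real.log (∑ k, Real.exp (-(β * sg μ (e α) k))) * nsq (L α (φ x))) -
        Real.log (r x) * nsq (L α (φ x))) := by
    intro α
    rw [← hnn α x]
    simp only [Finset.mul_sum]
    rw [← Finset.sum_neg_distrib, ← Finset.sum_sub_distrib, ← Finset.sum_sub_distrib,
      Finset.mul_sum]
    refine Finset.sum_congr rfl fun K _ => ?_
    rw [log_bw, hpe]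
    ring
  rw [Finset.sum_congr rfl fun α _ => h5 α, ← Finset.mul_sum, Finset.sum_sub_distrib,
    Finset.sum_sub_distrib, Finset.sum_neg_distrib, ← Finset.mul_sum, ← Finset.mul_sum,
    ← Finset.mul_sum, hn1]
  ring

theorem ip_lowU {Q : Type} [Fintype Q] [DecidableEq Q] (χ : WF Q) :
    ip χ (lowU (fun _ => 1) χ) = ∑ y, ip χ (low y χ) := by
  unfold ip lowU
  rw [Finset.sum_comm]
  refine Finset.sum_congr rfl fun η _ => ?_
  rw [Finset.mul_sum]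
  refine Finset.sum_congr rfl fun y _ => ?_
  simp

/-- the energy estimate -/
theorem cube_energy {Q A : Type} [Fintype Q] [DecidableEq Q] [Fintype A] {lam μ : ℝ}
    (hlam : 0 < lam) (W : ℕ) (M : ℝ) (hM0 : 0 < M) (hM : M = Fintype.card Q)
    (L : A → WF Q → WF Q) (c : A → ℂ) (φ : WF Q) (hφ : nsq φ = 1)
    (h2 : ∀ x y, |∑ α, cor (L α φ) x y - cor φ x y| ≤ 12 / (W : ℝ) ^ 2 * nsq φ)
    (h3 : ∀ x y, |∑ α, pd (L α φ) x y - pd φ x y| ≤ 12 / (W : ℝ) ^ 2 * nsq φ)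
    (h4 : ∑ α, nsq (fun η => lowU (fun _ => 1) (L α φ) η - c α * L α φ η) ≤
        (6 * (W : ℝ) ^ 2 + 3 * (Fintype.card Q : ℝ) ^ 2 / (W : ℝ) ^ 2) * nsq φ) :
    ∑ α, (‖((lam / M : ℝ) : ℂ) * c α‖ ^ 2 / lam * nsq (L α φ) + (1 / M) * ∑ y,
        (-2 * ((starRingEnd ℂ) (((lam / M : ℝ) : ℂ) * c α) * ip (L α φ) (low y (L α φ))).re
          - μ * pd (L α φ) y y)) - ((lam + |μ|) * (12 / (W : ℝ) ^ 2) +
        lam * ((6 * (W : ℝ) ^ 2 + 3 * M ^ 2 / (W : ℝ) ^ 2) / M ^ 2)) ≤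
      - (lam * ((1 / M ^ 2) * nsq (lowU (fun _ => 1) φ))) - μ * ((1 / M) * ∑ y, pd φ y y) := by
  rw [hφ, mul_one] at h4
  simp only [hφ, mul_one] at h2 h3
  -- the condensate
  have k1 := ki_stab (fun α => L α φ) φ (12 / (W : ℝ) ^ 2) h2 (fun _ => 1)
  have k2 : (∑ _x : Q, |(1 : ℝ)|) ^ 2 = M ^ 2 := by
    rw [abs_one, Finset.sum_const, Finset.card_univ, nsmul_eq_mul, mul_one, hM]
  rw [k2] at k1
  have k3 := (abs_le.1 k1).1
  -- the density
  have k4 : μ * ∑ y, pd φ y y ≤ μ * ∑ y, ∑ α, pd (L α φ) y y + |μ| * (12 / (W : ℝ) ^ 2 * M) := by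
    have e1 : |∑ y, ∑ α, pd (L α φ) y y - ∑ y, pd φ y y| ≤ 12 / (W : ℝ) ^ 2 * M := by
      rw [← Finset.sum_sub_distrib]
      refine (Finset.abs_sum_le_sum_abs _ _).trans ?_
      refine (Finset.sum_le_sum fun y _ => h3 y y).trans (le_of_eq ?_)
      rw [Finset.sum_const, Finset.card_univ, nsmul_eq_mul, ← hM]
      ring
    have e2 : |μ * (∑ y, ∑ α, pd (L α φ) y y - ∑ y, pd φ y y)| ≤ |μ| * (12 / (W : ℝ) ^ 2 * M) := by
      rw [abs_mul]
      exact mul_le_mul_of_nonneg_left e1 (abs_nonneg _)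
    have e3 := (abs_le.1 e2).1
    linarith
  -- completing the square
  have k5 : ∀ α, ‖((lam / M : ℝ) : ℂ) * c α‖ ^ 2 / lam * nsq (L α φ) + (1 / M) * ∑ y,
        (-2 * ((starRingEnd ℂ) (((lam / M : ℝ) : ℂ) * c α) * ip (L α φ) (low y (L α φ))).re
          - μ * pd (L α φ) y y) =
      lam / M ^ 2 * (- nsq (lowU (fun _ => 1) (L α φ)) +
        nsq (fun η => lowU (fun _ => 1) (L α φ) η - c α * L α φ η)) -
        (1 / M) * (μ * ∑ y, pd (L α φ) y y) := by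
    intro α
    have e0 : ((starRingEnd ℂ) (c α) * ∑ y, ip (L α φ) (low y (L α φ))).re =
        ∑ y, ((starRingEnd ℂ) (c α) * ip (L α φ) (low y (L α φ))).re := by
      rw [Finset.mul_sum, Complex.re_sum]
    rw [square_id, ip_lowU, Finset.sum_sub_distrib, ← Finset.mul_sum, ← Finset.mul_sum, e0]
    have e1 : ∀ y, ((starRingEnd ℂ) (((lam / M : ℝ) : ℂ) * c α) *
        ip (L α φ) (low y (L α φ))).re = lam / M *
        ((starRingEnd ℂ) (c α) * ip (L α φ) (low y (L α φ))).re := by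
      intro y
      rw [map_mul, Complex.conj_ofReal, mul_assoc, Complex.re_ofReal_mul]
    rw [Finset.sum_congr rfl fun y _ => e1 y, ← Finset.mul_sum, norm_mul, mul_pow,
      Complex.norm_real, Real.norm_eq_abs, sq_abs]
    field_simp
    ring
  rw [Finset.sum_congr rfl fun α _ => k5 α, Finset.sum_sub_distrib, ← Finset.mul_sum,
    Finset.sum_add_distrib, Finset.sum_neg_distrib, ← Finset.mul_sum, ← Finset.mul_sum]
  rw [← hM] at h4
  have h5 : ∑ α, ∑ y, pd (L α φ) y y = ∑ y, ∑ α, pd (L α φ) y y := Finset.sum_comm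
  rw [h5]
  have hl : 0 < lam / M ^ 2 := by positivity
  have k6 := mul_le_mul_of_nonneg_left h4 hl.le
  have k7 := mul_le_mul_of_nonneg_left k3 hl.le
  have k8 := mul_le_mul_of_nonneg_left k4 (show 0 ≤ 1 / M by positivity)
  have e1 : lam / M ^ 2 * -(12 / (W : ℝ) ^ 2 * M ^ 2) = -(lam * (12 / (W : ℝ) ^ 2)) := by
    field_simp
  have e2 : 1 / M * (μ * ∑ y, ∑ α, pd (L α φ) y y + |μ| * (12 / (W : ℝ) ^ 2 * M)) =
      1 / M * (μ * ∑ y, ∑ α, pd (L α φ) y y) + |μ| * (12 / (W : ℝ) ^ 2) := by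
    field_simp
  have e3 : lam / M ^ 2 * (6 * (W : ℝ) ^ 2 + 3 * M ^ 2 / (W : ℝ) ^ 2) =
      lam * ((6 * (W : ℝ) ^ 2 + 3 * M ^ 2 / (W : ℝ) ^ 2) / M ^ 2) := by ring
  have e4 : lam * (1 / M ^ 2 * nsq (lowU (fun _ => 1) φ)) =
      lam / M ^ 2 * nsq (lowU (fun _ => 1) φ) := by ring
  have e5 : μ * (1 / M * ∑ y, pd φ y y) = 1 / M * (μ * ∑ y, pd φ y y) := by ring
  rw [e1] at k7
  rw [e2] at k8
  rw [e3] at k6
  rw [e4, e5]
  linarith

/-- TB-D -/
theorem cube_lower {Q : Type} [Fintype Q] [DecidableEq Q] [Nonempty Q] {β lam μ : ℝ} (hβ : 0 < β)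
    (hlam : 0 < lam) (W : ℕ) (hW : 1 ≤ W) (φ : (Q → Bool) → WF Q) (r : (Q → Bool) → ℝ)
    (hφ : ONB φ) (hr : ∀ x, 0 ≤ r x) (hr1 : ∑ x, r x = 1) (M : ℝ) (hM : M = Fintype.card Q)
    (F : ℝ) (hF : ∀ e, |μ| / 2 ≤ e → F ≤ mfG β μ lam e) :
    F - ((lam + |μ|) * (12 / (W : ℝ) ^ 2) +
        lam * ((6 * (W : ℝ) ^ 2 + 3 * M ^ 2 / (W : ℝ) ^ 2) / M ^ 2) +
        (1 / (β * M)) * Real.log ((M + 2 * W + 1) ^ 2)) ≤
      - (lam * ∑ x, r x * ((1 / M ^ 2) * nsq (lowU (fun _ => 1) (φ x))))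
      - μ * ∑ x, r x * ((1 / M) * ∑ y, pd (φ x) y y)
      + (1 / (β * M)) * ∑ x, r x * Real.log (r x) := by
  have hM0 : 0 < M := by
    rw [hM]; exact_mod_cast Fintype.card_pos
  obtain ⟨A, hA, L, c, hcard, hadj, hL⟩ := localizeC (Q := Q) W hW
  have hs : ∀ φ, ∑ α, nsq (L α φ) = nsq φ := fun φ => (hL φ).1
  have hφn : ∀ x, nsq (φ x) = 1 := hφ.norm
  -- the one-site bases
  obtain ⟨γ, hγ⟩ : ∃ γ : A → ℂ, γ = fun α => ((lam / M : ℝ) : ℂ) * c α := ⟨_, rfl⟩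
  obtain ⟨e, he⟩ : ∃ e : A → ℝ, e = fun α => Real.sqrt (μ ^ 2 / 4 + ‖γ α‖ ^ 2) := ⟨_, rfl⟩
  have he0 : ∀ α, 0 ≤ e α := fun α => by rw [he]; exact Real.sqrt_nonneg _
  have he2 : ∀ α, e α ^ 2 = μ ^ 2 / 4 + ‖γ α‖ ^ 2 := fun α => by
    rw [he]; exact Real.sq_sqrt (by positivity)
  have hem : ∀ α, |μ| / 2 ≤ e α := by
    intro α
    apply abs_le_of_sq_le_sq' _ (he0 α) |>.2
    rw [he2, div_pow, sq_abs]
    have := sq_nonneg ‖γ α‖
    linarith
  have hex := fun α => one_site μ (e α) (γ α) (he0 α) (he2 α)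
  choose U hU hU1 hUF using hex
  -- the entropy
  have hent := cube_entropy β μ φ r hφ hr hr1 L hadj hs U hU hU1 e
  have hcardM : (Fintype.card A : ℝ) = (M + 2 * W + 1) ^ 2 := by
    rw [hcard, hM]; push_cast; ring
  rw [hcardM, ← hM] at hent
  -- the form
  have hform : ∀ α x, ∑ K : Q → Bool, (∑ y, sg μ (e α) (K y)) *
      ‖gip (pb (U α) K) (L α (φ x))‖ ^ 2 = ∑ y, (-2 * ((starRingEnd ℂ) (γ α) *
        ip (L α (φ x)) (low y (L α (φ x)))).re - μ * pd (L α (φ x)) y y) := by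
    intro α x
    simp only [Finset.sum_mul]
    rw [Finset.sum_comm]
    exact Finset.sum_congr rfl fun y _ => pb_form (hU α) (hUF α) _ y
  -- the energy
  have hen : ∀ x, ∑ α, (‖γ α‖ ^ 2 / lam * nsq (L α (φ x)) + (1 / M) *
      ∑ K : Q → Bool, (∑ y, sg μ (e α) (K y)) * ‖gip (pb (U α) K) (L α (φ x))‖ ^ 2) -
        ((lam + |μ|) * (12 / (W : ℝ) ^ 2) +
        lam * ((6 * (W : ℝ) ^ 2 + 3 * M ^ 2 / (W : ℝ) ^ 2) / M ^ 2)) ≤
      - (lam * ((1 / M ^ 2) * nsq (lowU (fun _ => 1) (φ x)))) -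
        μ * ((1 / M) * ∑ y, pd (φ x) y y) := by
    intro x
    obtain ⟨_, h2, h3, h4⟩ := hL (φ x)
    have := cube_energy (μ := μ) hlam W M hM0 hM L c (φ x) (hφn x) h2 h3 h4
    simp only [hform]
    rw [hγ]
    exact this
  -- the mean-field function
  have hmf : ∀ α, mfG β μ lam (e α) = ‖γ α‖ ^ 2 / lam -
      (1 / β) * Real.log (∑ k, Real.exp (-(β * sg μ (e α) k))) := by
    intro α
    rw [log_Z1]
    unfold mfG
    rw [he2]
    field_simp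
    ring
  have hn1 : ∀ x, ∑ α, nsq (L α (φ x)) = 1 := fun x => by rw [hs, hφn]
  have hF2 : F ≤ ∑ x, r x * ∑ α, (‖γ α‖ ^ 2 / lam -
      (1 / β) * Real.log (∑ k, Real.exp (-(β * sg μ (e α) k)))) * nsq (L α (φ x)) := by
    have h1 : F = ∑ x, r x * ∑ α, F * nsq (L α (φ x)) := by
      simp only [← Finset.mul_sum, hn1, mul_one]
      rw [← Finset.sum_mul, hr1, one_mul]
    rw [h1]
    refine Finset.sum_le_sum fun x _ => mul_le_mul_of_nonneg_left ?_ (hr x)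
    refine Finset.sum_le_sum fun α _ => mul_le_mul_of_nonneg_right ?_ (ki_nsq_nonneg _)
    rw [← hmf]
    exact hF _ (hem α)
  -- sum of the energies
  obtain ⟨D, hD⟩ : ∃ D : A → (Q → Bool) → ℝ, D = fun α x => ∑ K : Q → Bool,
    (∑ y, sg μ (e α) (K y)) * ‖gip (pb (U α) K) (L α (φ x))‖ ^ 2 := ⟨_, rfl⟩
  obtain ⟨Z, hZ⟩ : ∃ Z : A → ℝ, Z = fun α => Real.log (∑ k, Real.exp (-(β * sg μ (e α) k))) :=
    ⟨_, rfl⟩
  have hD' : ∀ α x, ∑ K : Q → Bool, (∑ y, sg μ (e α) (K y)) *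
    ‖gip (pb (U α) K) (L α (φ x))‖ ^ 2 = D α x := fun α x => by rw [hD]
  have hZ' : ∀ α, Real.log (∑ k, Real.exp (-(β * sg μ (e α) k))) = Z α := fun α => by rw [hZ]
  simp only [hD'] at hen hent
  simp only [hZ'] at hF2 hent
  set err : ℝ := (lam + |μ|) * (12 / (W : ℝ) ^ 2) +
        lam * ((6 * (W : ℝ) ^ 2 + 3 * M ^ 2 / (W : ℝ) ^ 2) / M ^ 2) with herr
  have hsumE := Finset.sum_le_sum (s := (univ : Finset (Q → Bool))) fun x _ =>
    mul_le_mul_of_nonneg_left (hen x) (hr x)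
  have e1 : ∑ x, r x * (∑ α, (‖γ α‖ ^ 2 / lam * nsq (L α (φ x)) + 1 / M * D α x) - err) =
      ∑ x, r x * ∑ α, ‖γ α‖ ^ 2 / lam * nsq (L α (φ x)) + 1 / M * (∑ x, r x * ∑ α, D α x) - err := by
    have : ∀ x, r x * (∑ α, (‖γ α‖ ^ 2 / lam * nsq (L α (φ x)) + 1 / M * D α x) - err) =
        r x * ∑ α, ‖γ α‖ ^ 2 / lam * nsq (L α (φ x)) + 1 / M * (r x * ∑ α, D α x) - r x * err := by
      intro x
      rw [Finset.sum_add_distrib, ← Finset.mul_sum]
      ring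
    rw [Finset.sum_congr rfl fun x _ => this x, Finset.sum_sub_distrib, Finset.sum_add_distrib,
      ← Finset.mul_sum, ← Finset.sum_mul, hr1, one_mul]
  have e2 : ∑ x, r x * (- (lam * ((1 / M ^ 2) * nsq (lowU (fun _ => 1) (φ x)))) -
        μ * ((1 / M) * ∑ y, pd (φ x) y y)) =
      - (lam * ∑ x, r x * ((1 / M ^ 2) * nsq (lowU (fun _ => 1) (φ x))))
      - μ * ∑ x, r x * ((1 / M) * ∑ y, pd (φ x) y y) := by
    rw [Finset.mul_sum, Finset.mul_sum, ← Finset.sum_neg_distrib, ← Finset.sum_sub_distrib]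
    exact Finset.sum_congr rfl fun x _ => by ring
  rw [e1, e2] at hsumE
  have e3 : ∑ x, r x * ∑ α, (‖γ α‖ ^ 2 / lam - (1 / β) * Z α) * nsq (L α (φ x)) =
      ∑ x, r x * ∑ α, ‖γ α‖ ^ 2 / lam * nsq (L α (φ x)) -
        (1 / β) * ∑ x, r x * ∑ α, Z α * nsq (L α (φ x)) := by
    rw [Finset.mul_sum, ← Finset.sum_sub_distrib]
    refine Finset.sum_congr rfl fun x _ => ?_
    rw [mul_left_comm (1 / β), ← mul_sub]
    congr 1
    rw [Finset.mul_sum, ← Finset.sum_sub_distrib]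
    exact Finset.sum_congr rfl fun α _ => by ring
  rw [e3] at hF2
  have hent2 := mul_le_mul_of_nonneg_left hent (show 0 ≤ 1 / (β * M) by positivity)
  have e4 : 1 / (β * M) * (-∑ x, r x * Real.log (r x) - β * ∑ x, r x * ∑ α, D α x -
      M * ∑ x, r x * ∑ α, Z α * nsq (L α (φ x))) =
      -(1 / (β * M) * ∑ x, r x * Real.log (r x)) - 1 / M * (∑ x, r x * ∑ α, D α x) -
        1 / β * ∑ x, r x * ∑ α, Z α * nsq (L α (φ x)) := by
    field_simp
  rw [e4] at hent2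
  linarith

end Pool.Agent.TH268.TB
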