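import Pool.Agent.TH268.TB.KeyT

/-!
# The key inequality at positive temperature, continued
-/

set_option autoImplicit false

open Finset BigOperators

namespace Pool.Agent.TH268.TB

open Pool.Agent.H11R2.BEC Pool.Agent.H11R2.BEC.T2c

/-- the Gibbs state of `2^(dJ) * en q 0 μ` at the inverse temperature `β` -/
structure IsGibbs {d J : ℕ} (q μ β : ℝ) (ψ : (Site d J → Bool) → WF (Site d J))
    (E lam : (Site d J → Bool) → ℝ) : Prop where
  onb : ONB ψ
  en : ∀ χ : WF (Site d J), (2 : ℝ) ^ (d * J) * en q 0 μ χ = ∑ m, E m * ‖gip (ψ m) χ‖ ^ 2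
  lam : ∀ m, lam m = Real.exp (-(β * E m)) / ∑ m, Real.exp (-(β * E m))

section

variable {d J j : ℕ} {q μ β : ℝ} {ψ : (Site d J → Bool) → WF (Site d J)}
    {E lam : (Site d J → Bool) → ℝ}

theorem IsGibbs.Zpos (_h : IsGibbs q μ β ψ E lam) : 0 < ∑ m, Real.exp (-(β * E m)) :=
  Finset.sum_pos (fun _ _ => Real.exp_pos _) Finset.univ_nonempty

theorem IsGibbs.nonneg (h : IsGibbs q μ β ψ E lam) (m : Site d J → Bool) : 0 ≤ lam m := by
  rw [h.lam]
  exact div_nonneg (Real.exp_pos _).le h.Zpos.le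

theorem IsGibbs.sum (h : IsGibbs q μ β ψ E lam) : ∑ m, lam m = 1 := by
  rw [Finset.sum_congr rfl fun m _ => h.lam m, ← Finset.sum_div, div_self h.Zpos.ne']

theorem IsGibbs.nsq (h : IsGibbs q μ β ψ E lam) (m : Site d J → Bool) :
    Pool.Agent.H11R2.BEC.nsq (ψ m) = 1 := h.onb.norm m

theorem IsGibbs.E_eq (h : IsGibbs q μ β ψ E lam) (m : Site d J → Bool) :
    E m = (2 : ℝ) ^ (d * J) * Pool.Agent.H11R2.BEC.en q 0 μ (ψ m) := by
  rw [h.en (ψ m), Finset.sum_eq_single m]
  · rw [h.onb.orth]; simp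
  · intro y _ hy
    rw [h.onb.orth, if_neg hy, mul_zero]
  · intro hk; exact absurd (Finset.mem_univ _) hk

/-- the free energy -/
theorem IsGibbs.free (h : IsGibbs q μ β ψ E lam) :
    Real.log (∑ m, Real.exp (-(β * E m))) / 2 ^ (d * J) =
      - (β * ∑ m, lam m * Pool.Agent.H11R2.BEC.en q 0 μ (ψ m)) -
        (1 / (2 : ℝ) ^ (d * J)) * ∑ m, lam m * Real.log (lam m) := by
  have hV : (0 : ℝ) < 2 ^ (d * J) := by positivity
  set Z := ∑ m, Real.exp (-(β * E m)) with hZ
  have hZ0 : 0 < Z := h.Zpos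
  have h1 : ∀ m, lam m * Real.log (lam m) =
      - (β * 2 ^ (d * J)) * (lam m * Pool.Agent.H11R2.BEC.en q 0 μ (ψ m)) - lam m * Real.log Z := by
    intro m
    have h2 : Real.log (lam m) = - (β * E m) - Real.log Z := by
      rw [h.lam, Real.log_div (Real.exp_pos _).ne' hZ0.ne', Real.log_exp]
    rw [h2, h.E_eq m]
    ring
  rw [Finset.sum_congr rfl fun m _ => h1 m, Finset.sum_sub_distrib, ← Finset.mul_sum,
    ← Finset.sum_mul, h.sum]
  field_simp
  ring

/-- The key inequality at the scale `2^j`. -/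
theorem keyT (hj : j < J) (hq0 : 0 ≤ q) (hq1 : q ≤ 1) (hβ : 0 < β) (h : IsGibbs q μ β ψ E lam)
    (W : ℕ) (hW : 1 ≤ W) {θ : ℝ} (hθ : 0 < θ) (hθ1 : θ ≤ 1) :
    ∑ s ∈ range (J + 1), cf q J s * (∑ m, lam m * coh j (ψ m) - ∑ m, lam m * coh s (ψ m)) +
      ∑ s ∈ range j, cf q J s * ∑ m, lam m * us s j (ψ m) ≤
      err d j W 0 μ θ +
        1 / (β * 2 ^ (d * j)) * Real.log (((2 : ℝ) ^ (d * j) + 2 * W + 1) ^ 2) := by
  classical
  obtain ⟨κ, hκ⟩ : ∃ κ : ℝ, κ = 12 / (W : ℝ) ^ 2 := ⟨_, rfl⟩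
  obtain ⟨v, hv⟩ : ∃ v : ℝ, v = (6 * (W : ℝ) ^ 2 + 3 * ((2 : ℝ) ^ (d * j)) ^ 2 / (W : ℝ) ^ 2) /
    ((2 : ℝ) ^ (d * j)) ^ 2 := ⟨_, rfl⟩
  have hκ0 : 0 ≤ κ := by rw [hκ]; positivity
  have hv0 : 0 ≤ v := by rw [hv]; positivity
  have herr : err d j W 0 μ θ = κ + v + 4 * θ + 4 * κ + v / θ + |μ| * κ := by
    unfold err; rw [hκ, hv]; simp
  set M : ℝ := (2 : ℝ) ^ (d * j) with hM
  set V : ℝ := (2 : ℝ) ^ (d * J) with hV
  have hM0 : 0 < M := by positivity
  have hV0 : 0 < V := by positivity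
  set LA : ℝ := Real.log ((M + 2 * W + 1) ^ 2) with hLA
  -- the marginals
  have hex := fun w => exists_marg (j := j) lam h.nonneg ψ w
  choose φ r hMg using hex
  have hS := subadd hj.le h.nonneg h.sum h.onb φ r hMg
  rw [← hM] at hS
  set S := ∑ m, lam m * Real.log (lam m) with hSdef
  set en0 := ∑ m, lam m * en q 0 μ (ψ m) with hen0
  set c0 : ℝ := κ + v + 4 * κ + v / θ + |μ| * κ with hc0
  set B : Site d J → (Site d J → Bool) → ℝ := fun w m => - nsq (av j w (ψ m)) -
    ∑ s ∈ range j, cf q J s * ((1 / M) *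
        ∑ z ∈ inn j s, ((1 - θ) * nsq (fun η => av s (emb w z) (ψ m) η - av j w (ψ m) η)))
        - μ * ((1 / M) * ∑ x : Site d j, pd (ψ m) (emb w x) (emb w x)) with hB
  have hw : ∀ w : Site d J, - (β * (∑ m, lam m * B w m + c0)) - (1 / M) *
      (∑ k, r w k * Real.log (r w k) + LA) ≤ - (β * en0) - (1 / V) * S := by
    intro w
    have h1 := step2 hj.le hq0 hq1 hβ h.onb h.en W hW hθ hθ1 κ v hκ hv (φ w) (r w) (hMg w).onb
      (hMg w).nn ((hMg w).total hj.le h.onb h.sum)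
    rw [h.free] at h1
    refine le_trans ?_ h1
    have h2 := sum_rhs2 (w := w) hj (μ := μ) hq0 hq1 hκ0 hv0 hθ hθ1 h.onb h.sum (hMg w)
    have h3 := mul_le_mul_of_nonneg_left h2 hβ.le
    have h4 : ∑ m, lam m * (- nsq (av j w (ψ m)) - ∑ s ∈ range j, cf q J s *
        ((1 / (2 : ℝ) ^ (d * j)) *
        ∑ z ∈ inn j s, ((1 - θ) * nsq (fun η => av s (emb w z) (ψ m) η - av j w (ψ m) η)))
        - μ * ((1 / (2 : ℝ) ^ (d * j)) * ∑ x : Site d j, pd (ψ m) (emb w x) (emb w x))) =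
        ∑ m, lam m * B w m := rfl
    rw [h4] at h3
    linarith
  have hsum := Finset.sum_le_sum (s := (univ : Finset (Site d J))) fun w _ => hw w
  have hcV : (Fintype.card (Site d J) : ℝ) = V := ki_card_site d J
  simp only [Finset.sum_sub_distrib, Finset.sum_neg_distrib, ← Finset.mul_sum,
    Finset.sum_add_distrib, Finset.sum_const, Finset.card_univ, nsmul_eq_mul, hcV] at hsum
  -- the average of `B`
  have hBw : ∑ w : Site d J, ∑ m, lam m * B w m = V * (∑ m, lam m * (- coh j (ψ m) - (1 - θ) *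
      ∑ s ∈ range j, cf q J s * us s j (ψ m) - μ * rho (ψ m))) := by
    rw [Finset.sum_comm, Finset.mul_sum]
    refine Finset.sum_congr rfl fun m _ => ?_
    rw [← Finset.mul_sum]
    have := avg_w (j := j) q μ θ (ψ m)
    rw [← hM] at this
    have h4 : ∑ w : Site d J, B w m = V * (- coh j (ψ m) - (1 - θ) *
      ∑ s ∈ range j, cf q J s * us s j (ψ m) - μ * rho (ψ m)) := this
    rw [h4]
    ring
  rw [hBw] at hsum
  set a : ℕ → ℝ := fun s => ∑ m, lam m * coh s (ψ m) with ha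
  set u : ℕ → ℝ := fun s => ∑ m, lam m * us s j (ψ m) with hu
  set rh : ℝ := ∑ m, lam m * rho (ψ m) with hrh
  have hBm : ∑ m, lam m * (- coh j (ψ m) - (1 - θ) *
      ∑ s ∈ range j, cf q J s * us s j (ψ m) - μ * rho (ψ m)) =
      - a j - (1 - θ) * ∑ s ∈ range j, cf q J s * u s - μ * rh := by
    have t1 : ∀ m, lam m * (- coh j (ψ m) - (1 - θ) *
      ∑ s ∈ range j, cf q J s * us s j (ψ m) - μ * rho (ψ m)) =
      - (lam m * coh j (ψ m)) - (1 - θ) * (∑ s ∈ range j, cf q J s * (lam m * us s j (ψ m))) -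
        μ * (lam m * rho (ψ m)) := by
      intro m
      have : ∑ s ∈ range j, cf q J s * (lam m * us s j (ψ m)) =
          lam m * ∑ s ∈ range j, cf q J s * us s j (ψ m) := by
        rw [Finset.mul_sum]
        exact Finset.sum_congr rfl fun s _ => by ring
      rw [this]; ring
    rw [Finset.sum_congr rfl fun m _ => t1 m, Finset.sum_sub_distrib, Finset.sum_sub_distrib,
      Finset.sum_neg_distrib, ← Finset.mul_sum, ← Finset.mul_sum, Finset.sum_comm]
    simp only [← Finset.mul_sum]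
    rfl
  rw [hBm] at hsum
  have hen1 : en0 = - ∑ s ∈ range (J + 1), cf q J s * a s - μ * rh := by
    rw [hen0]
    unfold en
    have t1 : ∀ m, lam m * (-∑ s ∈ range (J + 1), cf q J s * coh s (ψ m) + 0 * nn (ψ m) -
        μ * rho (ψ m)) = - (∑ s ∈ range (J + 1), cf q J s * (lam m * coh s (ψ m))) -
        μ * (lam m * rho (ψ m)) := by
      intro m
      have : ∑ s ∈ range (J + 1), cf q J s * (lam m * coh s (ψ m)) =
          lam m * ∑ s ∈ range (J + 1), cf q J s * coh s (ψ m) := by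
        rw [Finset.mul_sum]
        exact Finset.sum_congr rfl fun s _ => by ring
      rw [this]; ring
    rw [Finset.sum_congr rfl fun m _ => t1 m, Finset.sum_sub_distrib,
      Finset.sum_neg_distrib, ← Finset.mul_sum, Finset.sum_comm]
    simp only [← Finset.mul_sum]
    rfl
  rw [hen1] at hsum
  -- the bound of `u`
  have hu4 : ∀ s, u s ≤ 4 := by
    intro s
    calc u s ≤ ∑ m, lam m * 4 :=
          Finset.sum_le_sum fun m _ => mul_le_mul_of_nonneg_left (ki_us_le s j (h.nsq m)) (h.nonneg m)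
      _ = 4 := by rw [← Finset.sum_mul, h.sum, one_mul]
  have hcu : ∑ s ∈ range j, cf q J s * u s ≤ 4 := by
    calc ∑ s ∈ range j, cf q J s * u s ≤ ∑ s ∈ range j, cf q J s * 4 :=
          Finset.sum_le_sum fun s _ => mul_le_mul_of_nonneg_left (hu4 s) (ki_cf_nonneg hq0 hq1 J s)
      _ ≤ 4 := by
          rw [← Finset.sum_mul, ki_cf_partial q J j hj.le]
          have : 0 ≤ q ^ j := by positivity
          linarith
  have hco : ∑ s ∈ range (J + 1), cf q J s * (a j - a s) =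
      a j - ∑ s ∈ range (J + 1), cf q J s * a s := by
    simp only [mul_sub]
    rw [Finset.sum_sub_distrib, ← Finset.sum_mul, ki_cf_sum, one_mul]
  have hgoal : a j - ∑ s ∈ range (J + 1), cf q J s * a s + ∑ s ∈ range j, cf q J s * u s ≤
      κ + v + 4 * θ + 4 * κ + v / θ + |μ| * κ + 1 / (β * M) * LA := by
    set CU := ∑ s ∈ range j, cf q J s * u s with hCU
    set CA := ∑ s ∈ range (J + 1), cf q J s * a s with hCA
    set R := ∑ w : Site d J, ∑ k, r w k * Real.log (r w k) with hR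
    have h5 : V * (β * (a j - CA + (1 - θ) * CU)) ≤ V * (β * c0 + (1 / M) * LA) := by
      have h6 : (1 / M) * R ≤ S := hS
      have h7 : V * ((1 / V) * S) = S := by field_simp
      have h8 : 1 / M * (R + V * LA) = 1 / M * R + V * ((1 / M) * LA) := by ring
      rw [h8] at hsum
      have h9 : V * -(β * (-CA - μ * rh)) = V * (β * CA) + V * (β * (μ * rh)) := by ring
      have h10 : β * (V * (-a j - (1 - θ) * CU - μ * rh) + V * c0) =
        - (V * (β * (a j + (1 - θ) * CU))) - V * (β * (μ * rh)) + V * (β * c0) := by ring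
      have h11 : V * (β * (a j - CA + (1 - θ) * CU)) =
        V * (β * (a j + (1 - θ) * CU)) - V * (β * CA) := by ring
      have h12 : V * (β * c0 + (1 / M) * LA) = V * (β * c0) + V * ((1 / M) * LA) := by ring
      rw [h11, h12]
      nlinarith [hsum, h6, h7, h9, h10]
    have h13 := le_of_mul_le_mul_left h5 hV0
    have h14 : a j - CA + (1 - θ) * CU ≤ c0 + 1 / (β * M) * LA := by
      have h15 : β * (c0 + 1 / (β * M) * LA) = β * c0 + (1 / M) * LA := by
        field_simp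
      rw [← h15] at h13
      exact le_of_mul_le_mul_left h13 hβ
    have h16 : θ * CU ≤ θ * 4 := mul_le_mul_of_nonneg_left hcu hθ.le
    rw [hc0] at h14
    linarith
  rw [herr]
  change ∑ s ∈ range (J + 1), cf q J s * (a j - a s) + ∑ s ∈ range j, cf q J s * u s ≤ _
  rw [hco]
  exact hgoal

end

end Pool.Agent.TH268.TB
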