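import Pool.Agent.TH268.TB.Abs
import Pool.Agent.TH268.TB.Link

/-!
# Bose-Einstein condensation at positive temperature: assembly
-/

set_option autoImplicit false

open Finset BigOperators

namespace Pool.Agent.TH268.TB

open Pool.Agent.H11R2.BEC Pool.Agent.H11R2.BEC.Ker
open Pool.Agent.H11R2.LatticeBose (hopping hopping_pos hopping_neg hopping_sum hopping_decay tz t0_le le_t0)
open Pool.Agent.TH268.ThermalBose

/-- existence of the mean-field magnetization -/
theorem exists_mag (β : ℝ) (hβ : 0 < β) :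
    ∃ m : ℝ, 0 ≤ m ∧ m < 1 ∧ m = Real.tanh (β * m / 2) ∧ (0 < m ↔ 2 < β) := by
  rcases le_or_gt β 2 with h | h
  · exact ⟨0, le_rfl, one_pos, by simp, by constructor <;> intro h1 <;> linarith⟩
  · -- the intermediate value theorem
    have hcont : Continuous (fun y : ℝ => Real.tanh (β * y / 2) - y) :=
      (tanh_cont.comp (by fun_prop)).sub continuous_id
    -- a point where the function is positive
    obtain ⟨y0, hy0, hy01, hy0p⟩ : ∃ y0 : ℝ, 0 < y0 ∧ y0 < 1 ∧ 0 < Real.tanh (β * y0 / 2) - y0 := by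
      have hd : HasDerivAt (fun y : ℝ => Real.tanh (β * y / 2) - y)
          (1 / Real.cosh (β * 0 / 2) ^ 2 * (β / 2) - 1) 0 := by
        have h0 : HasDerivAt (fun y : ℝ => β * y / 2) (β / 2) 0 := by
          have := ((hasDerivAt_id (0 : ℝ)).const_mul β).div_const 2
          simpa using this
        exact ((tanh_hasDeriv (β * 0 / 2)).comp (0 : ℝ) h0).sub (hasDerivAt_id 0)
      have hpos : 0 < 1 / Real.cosh (β * 0 / 2) ^ 2 * (β / 2) - 1 := by
        simp only [mul_zero, zero_div, Real.cosh_zero]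
        linarith
      have hslope := hd.tendsto_slope_zero_right
      have hev := hslope.eventually (lt_mem_nhds hpos)
      have hev2 : ∀ᶠ t : ℝ in nhdsWithin 0 (Set.Ioi 0), t < 1 :=
        mem_nhdsWithin_of_mem_nhds (Iio_mem_nhds one_pos)
      have hev3 : ∀ᶠ t : ℝ in nhdsWithin 0 (Set.Ioi 0), 0 < t := self_mem_nhdsWithin
      obtain ⟨t, ht1, ht2, ht3⟩ := (hev.and (hev2.and hev3)).exists
      refine ⟨t, ht3, ht2, ?_⟩
      simp only [zero_add, mul_zero, zero_div, Real.tanh_zero, sub_zero, smul_eq_mul] at ht1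
      exact (mul_pos_iff_of_pos_left (inv_pos.2 ht3)).1 ht1
    have h1 : Real.tanh (β * 1 / 2) - 1 < 0 := by
      have := Real.tanh_lt_one (β * 1 / 2)
      linarith
    have hivt := intermediate_value_Icc' hy01.le hcont.continuousOn
    have hmem : (0 : ℝ) ∈ Set.Icc (Real.tanh (β * 1 / 2) - 1) (Real.tanh (β * y0 / 2) - y0) :=
      ⟨h1.le, hy0p.le⟩
    obtain ⟨m, ⟨hm1, hm2⟩, hm3⟩ := hivt hmem
    have hm3' : m = Real.tanh (β * m / 2) := by
      have : Real.tanh (β * m / 2) - m = 0 := hm3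
      linarith
    refine ⟨m, by linarith, ?_, hm3', ?_⟩
    · rw [hm3']; exact Real.tanh_lt_one _
    · exact ⟨fun _ => h, fun _ => by linarith⟩

theorem thermal (d : ℕ) (hd : 1 ≤ d) (β h ε m : ℝ) (hβ : 0 < β) (hε : 0 < ε) (hm : 0 ≤ m)
    (hm1 : m = Real.tanh (β * m / 2)) (hm2 : 0 < m ∨ β ≤ 2) :
    ∃ σ₀ : ℝ, 0 < σ₀ ∧ ∃ J₀ : ℕ, ∀ σ : ℝ, 0 < σ → σ ≤ σ₀ → ∀ J ≥ J₀,
      |thermalCondensate (hopping d σ) h β J - max 0 ((m ^ 2 - h ^ 2) / 4)| ≤ ε ∧
      |thermalDensity (hopping d σ) h β J - mfRho β h m| ≤ ε := by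
  obtain ⟨δ, hδ, J₀, hmain⟩ := bec_abs d hd β h ε m hβ hε hm hm1 hm2
  -- choice of `σ₀`
  set σ₀ : ℝ := min (min δ (1 / 4)) (min (δ / (4 * β)) (δ / (4 * (|h| + 1)))) with hσ₀
  have hσ₀p : 0 < σ₀ := by rw [hσ₀]; positivity
  obtain ⟨n, hn⟩ := exists_pow_lt_of_lt_one (show 0 < δ / 2 by positivity)
    (show (1 / 2 : ℝ) < 1 by norm_num)
  refine ⟨σ₀, hσ₀p, max J₀ n, ?_⟩
  intro σ hσ hσle J hJ
  have hJ1 : J₀ ≤ J := (le_max_left _ _).trans hJ
  have hJ2 : n ≤ J := (le_max_right _ _).trans hJ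
  have g1 : σ ≤ δ := hσle.trans ((min_le_left _ _).trans (min_le_left _ _))
  have g2 : σ ≤ 1 / 4 := hσle.trans ((min_le_left _ _).trans (min_le_right _ _))
  have g3 : σ ≤ δ / (4 * β) := hσle.trans ((min_le_right _ _).trans (min_le_left _ _))
  have g4 : σ ≤ δ / (4 * (|h| + 1)) := hσle.trans ((min_le_right _ _).trans (min_le_right _ _))
  set q : ℝ := (2 : ℝ) ^ (-σ) with hq
  have hq0 : 0 ≤ q := by positivity
  have hq1 : q < 1 := two_rpow_lt_one hσ
  have hqσ : 1 - σ ≤ q := one_sub_le hσ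
  set k0 : ℝ := ker d q 0 with hk0
  have hk0n : 0 ≤ k0 := ker_nonneg hq0 hq1 0
  have hk0l : k0 ≤ 2 * σ := by
    have := ker_zero_le hd hq0 hq1
    rw [← hk0] at this
    linarith
  have hD : 0 < 1 - k0 := hopping_pos hd hσ
  have hD2 : 1 / 2 ≤ 1 - k0 := by linarith
  have htz1 : tz d J q ≤ k0 + 1 / 2 ^ (d * J) := t0_le hq0 hq1
  have htz0 : k0 ≤ tz d J q := le_t0 hq0 hq1
  have hpow : 1 / (2 : ℝ) ^ (d * J) ≤ δ / 2 := by
    have h1 : 1 / (2 : ℝ) ^ (d * J) ≤ (1 / 2 : ℝ) ^ n := by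
      rw [one_div, ← inv_pow, ← one_div]
      apply pow_le_pow_of_le_one (by norm_num) (by norm_num)
      have : J ≤ d * J := Nat.le_mul_of_pos_left _ (by omega)
      omega
    exact h1.trans hn.le
  obtain ⟨ψ, E, hψ, hE, hB⟩ := gibbs_link (d := d) (J := J) hd hσ h β
  obtain ⟨e1, e2⟩ := hB (β / (1 - k0)) rfl
  set β' : ℝ := β / (1 - k0) with hβ'
  set μ : ℝ := h * (1 - k0) - tz d J q with hμ
  set Z : ℝ := ∑ m, Real.exp (-(β' * E m)) with hZ
  have hG : IsGibbs q μ β' ψ E (fun m => Real.exp (-(β' * E m)) / Z) :=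
    ⟨hψ, hE, fun m => rfl⟩
  have hβ1 : |β' - β| ≤ δ := by
    have h1 : β' - β = β * k0 / (1 - k0) := by rw [hβ']; field_simp; ring
    rw [h1, abs_of_nonneg (by positivity), div_le_iff₀ hD]
    have h2 : β * k0 ≤ δ / 2 := by
      calc β * k0 ≤ β * (2 * (δ / (4 * β))) :=
            mul_le_mul_of_nonneg_left (hk0l.trans (by linarith)) hβ.le
        _ = δ / 2 := by field_simp; ring
    nlinarith
  have hμ1 : |μ - h| ≤ δ := by
    have h1 : |μ - h| ≤ |h| * k0 + tz d J q := by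
      have h2 : μ - h = - (h * k0) - tz d J q := by rw [hμ]; ring
      have h3 : |h * k0| = |h| * k0 := by rw [abs_mul, abs_of_nonneg hk0n]
      rw [h2, abs_le]
      have h4 := abs_le.1 (le_of_eq h3)
      constructor <;> linarith [h4.1, h4.2]
    have h5 : (|h| + 1) * k0 ≤ δ / 2 := by
      have hh : 0 < |h| + 1 := by positivity
      calc (|h| + 1) * k0 ≤ (|h| + 1) * (2 * (δ / (4 * (|h| + 1)))) :=
            mul_le_mul_of_nonneg_left (hk0l.trans (by linarith)) hh.le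
        _ = δ / 2 := by field_simp; ring
    linarith
  have hfin := hmain q (by linarith) hq1 β' μ hβ1 hμ1 J hJ1 ψ E _ hG
  have e3 : ∀ F : (Site d J → Bool) → ℝ, ∑ m, Real.exp (-(β' * E m)) / Z * F m =
      (∑ m, Real.exp (-(β' * E m)) * F m) / Z := by
    intro F
    rw [Finset.sum_div]
    exact Finset.sum_congr rfl fun m _ => by ring
  rw [e3, e3, ← e1, ← e2] at hfin
  exact hfin

end Pool.Agent.TH268.TB
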