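import Pool.Agent.TH268.TB.KeyT2
import Pool.Agent.TH268.TB.CubeLow
import Pool.Agent.TH268.TB.MFUp

/-!
# Mean-field lower bound of the free energy of a state of the torus
-/

set_option autoImplicit false

open Finset BigOperators

namespace Pool.Agent.TH268.TB

open Pool.Agent.H11R2.BEC Pool.Agent.H11R2.BEC.T2c

/-- the error term -/
noncomputable def errC (d s W : ℕ) (β lm μ : ℝ) : ℝ :=
  (lm + |μ|) * (12 / (W : ℝ) ^ 2) +
    lm * ((6 * (W : ℝ) ^ 2 + 3 * ((2 : ℝ) ^ (d * s)) ^ 2 / (W : ℝ) ^ 2) / ((2 : ℝ) ^ (d * s)) ^ 2) +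
    (1 / (β * (2 : ℝ) ^ (d * s))) * Real.log (((2 : ℝ) ^ (d * s) + 2 * W + 1) ^ 2)

theorem lowerS {d J s : ℕ} (hs : s ≤ J) {β lm μ : ℝ} (hβ : 0 < β) (hlm : 0 < lm) (W : ℕ)
    (hW : 1 ≤ W) {lam : (Site d J → Bool) → ℝ} {ψ : (Site d J → Bool) → WF (Site d J)}
    (hψ : ONB ψ) (hlam : ∀ m, 0 ≤ lam m) (hlam1 : ∑ m, lam m = 1) (F : ℝ)
    (hF : ∀ e, |μ| / 2 ≤ e → F ≤ mfG β μ lm e) :
    F - errC d s W β lm μ ≤ - (lm * ∑ m, lam m * coh s (ψ m)) - μ * ∑ m, lam m * rho (ψ m) +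
      (1 / (β * 2 ^ (d * J))) * ∑ m, lam m * Real.log (lam m) := by
  classical
  set M : ℝ := (2 : ℝ) ^ (d * s) with hM
  set V : ℝ := (2 : ℝ) ^ (d * J) with hV
  have hM0 : 0 < M := by positivity
  have hV0 : 0 < V := by positivity
  have hex := fun w => exists_marg (j := s) lam hlam ψ w
  choose φ r hMg using hex
  have hS := subadd hs hlam hlam1 hψ φ r hMg
  rw [← hM] at hS
  have hw : ∀ w : Site d J, F - errC d s W β lm μ ≤
      - (lm * ∑ m, lam m * nsq (av s w (ψ m))) - μ * ∑ m, lam m * ((1 / M) *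
        ∑ x : Site d s, pd (ψ m) (emb w x) (emb w x)) +
      (1 / (β * M)) * ∑ k, r w k * Real.log (r w k) := by
    intro w
    have h1 := cube_lower (Q := Site d s) hβ hlm W hW (φ w) (r w) (hMg w).onb (hMg w).nn
      ((hMg w).total hs hψ hlam1) M (by rw [hM, ki_card_site]) F hF
    have h2 : ∀ k, (1 / M ^ 2) * nsq (lowU (fun _ => 1) (φ w k)) = nsq (av s 0 (φ w k)) := by
      intro k
      have e1 : av s 0 (φ w k) = fun η => (1 / (M : ℂ)) * lowU (fun _ => 1) (φ w k) η := by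
        funext η
        rw [ki_av_top, hM]
        push_cast
        rfl
      rw [e1, ki_nsq_smul]
      congr 1
      rw [norm_div, norm_one, Complex.norm_real, Real.norm_of_nonneg hM0.le, div_pow, one_pow]
    simp only [h2] at h1
    have h3 := (hMg w).av hs
    have h4 := (hMg w).rho hs
    unfold rho at h4
    rw [← hM] at h4
    rw [h3, h4] at h1
    exact h1
  have hsum := Finset.sum_le_sum (s := (univ : Finset (Site d J))) fun w _ => hw w
  have hcV : (Fintype.card (Site d J) : ℝ) = V := ki_card_site d J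
  simp only [Finset.sum_add_distrib, Finset.sum_sub_distrib, Finset.sum_neg_distrib,
    ← Finset.mul_sum, Finset.sum_const, Finset.card_univ, nsmul_eq_mul, hcV] at hsum
  have e1 : ∑ w : Site d J, ∑ m, lam m * nsq (av s w (ψ m)) =
      V * ∑ m, lam m * coh s (ψ m) := by
    rw [Finset.sum_comm, Finset.mul_sum]
    refine Finset.sum_congr rfl fun m _ => ?_
    rw [← Finset.mul_sum]
    unfold coh
    rw [← hV]
    field_simp
  have e6 : ∑ w : Site d J, ∑ m, lam m * ((1 / M) *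
        ∑ x : Site d s, pd (ψ m) (emb w x) (emb w x)) = V * ∑ m, lam m * rho (ψ m) := by
    rw [Finset.sum_comm, Finset.mul_sum]
    refine Finset.sum_congr rfl fun m _ => ?_
    rw [← Finset.mul_sum, ← Finset.mul_sum, Finset.sum_comm]
    rw [Finset.sum_congr rfl fun (x : Site d s) _ => ki_shift (fun w => pd (ψ m) w w) x]
    rw [Finset.sum_const, Finset.card_univ, nsmul_eq_mul, ki_card_site, ← hM]
    unfold rho
    rw [← hV]
    field_simp
  rw [e1, e6] at hsum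
  set R := ∑ w : Site d J, ∑ k, r w k * Real.log (r w k) with hR
  set S := ∑ m, lam m * Real.log (lam m) with hSdef
  have h5 : 1 / (β * M) * R ≤ (1 / β) * S := by
    have h6 : 1 / (β * M) * R = (1 / β) * ((1 / M) * R) := by field_simp
    rw [h6]
    exact mul_le_mul_of_nonneg_left hS (by positivity)
  have h7 : V * (1 / (β * V) * S) = (1 / β) * S := by field_simp
  refine le_of_mul_le_mul_left ?_ hV0
  calc V * (F - errC d s W β lm μ) ≤ _ := le_of_eq (by ring)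
    _ ≤ _ := hsum
    _ ≤ V * (-(lm * ∑ m, lam m * coh s (ψ m)) - μ * ∑ m, lam m * rho (ψ m) +
        1 / (β * V) * S) := by
        rw [mul_add, h7]
        linarith

/-- logarithms -/
theorem log_bound (d j : ℕ) {β : ℝ} (hβ : 0 < β) :
    1 / (β * 2 ^ (d * j)) * Real.log (((2 : ℝ) ^ (d * j) + 2 * ((2 ^ (d * j / 2) : ℕ) : ℝ) + 1) ^ 2)
      ≤ 8 / β * (1 / (2 : ℝ) ^ (d * j / 2)) := by
  set e : ℕ := d * j / 2 with he
  have h2 : d * j ≤ 2 * e + 1 := by omega
  have h1 : 2 * e ≤ d * j := by omega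
  have hWM : ((2 : ℝ) ^ e) ^ 2 ≤ 2 ^ (d * j) := by
    rw [← pow_mul]; exact pow_le_pow_right₀ (by norm_num) (by omega)
  have hMW : (2 : ℝ) ^ (d * j) ≤ 2 * ((2 : ℝ) ^ e) ^ 2 := by
    rw [← pow_mul, ← pow_succ']; exact pow_le_pow_right₀ (by norm_num) (by omega)
  push_cast
  set W : ℝ := (2 : ℝ) ^ e with hWdef
  set M : ℝ := (2 : ℝ) ^ (d * j) with hMdef
  have hM0 : 0 < M := by positivity
  have hW1 : 1 ≤ W := one_le_pow₀ (by norm_num)
  have hW0 : 0 < W := by positivity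
  have h3 : M + 2 * W + 1 ≤ 5 * W ^ 2 := by nlinarith
  have h4 : Real.log ((M + 2 * W + 1) ^ 2) ≤ 8 * W := by
    rw [Real.log_pow]
    have h5 : Real.log (M + 2 * W + 1) ≤ Real.log (5 * W ^ 2) :=
      Real.log_le_log (by positivity) h3
    have h6 : Real.log (5 * W ^ 2) = Real.log 5 + 2 * Real.log W := by
      rw [Real.log_mul (by norm_num) (by positivity), Real.log_pow]
      push_cast; ring
    have h7 : Real.log 5 ≤ 4 := by
      have := Real.log_le_sub_one_of_pos (show (0 : ℝ) < 5 by norm_num)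
      linarith
    have h8 : Real.log W ≤ W - 1 := Real.log_le_sub_one_of_pos hW0
    push_cast
    nlinarith
  calc 1 / (β * M) * Real.log ((M + 2 * W + 1) ^ 2) ≤ 1 / (β * M) * (8 * W) :=
        mul_le_mul_of_nonneg_left h4 (by positivity)
    _ ≤ 1 / (β * W ^ 2) * (8 * W) := by
        apply mul_le_mul_of_nonneg_right _ (by positivity)
        apply one_div_le_one_div_of_le (by positivity)
        exact mul_le_mul_of_nonneg_left hWM hβ.le
    _ = 8 / β * (1 / W) := by field_simp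

theorem pow_half_le {d : ℕ} (hd : 1 ≤ d) (j : ℕ) :
    1 / (2 : ℝ) ^ (d * j / 2) ≤ (1 / 2 : ℝ) ^ (j / 2) := by
  rw [one_div, ← inv_pow, ← one_div]
  apply pow_le_pow_of_le_one (by norm_num) (by norm_num)
  have : j ≤ d * j := Nat.le_mul_of_pos_left _ (by omega)
  omega

/-- elementary bounds of the variance -/
theorem var_bound (d j : ℕ) :
    (6 * ((2 ^ (d * j / 2) : ℕ) : ℝ) ^ 2 + 3 * ((2 : ℝ) ^ (d * j)) ^ 2 /
      ((2 ^ (d * j / 2) : ℕ) : ℝ) ^ 2) / ((2 : ℝ) ^ (d * j)) ^ 2 ≤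
      9 * (1 / (2 : ℝ) ^ (d * j / 2)) ^ 2 := by
  set e : ℕ := d * j / 2 with he
  have h1 : 2 * e ≤ d * j := by omega
  have hWM : ((2 : ℝ) ^ e) ^ 2 ≤ 2 ^ (d * j) := by
    rw [← pow_mul]; exact pow_le_pow_right₀ (by norm_num) (by omega)
  push_cast
  set W : ℝ := (2 : ℝ) ^ e with hWdef
  set M : ℝ := (2 : ℝ) ^ (d * j) with hMdef
  have hM0 : 0 < M := by positivity
  have hW0 : 0 < W := by positivity
  have : (6 * W ^ 2 + 3 * M ^ 2 / W ^ 2) / M ^ 2 = 6 * W ^ 2 / M ^ 2 + 3 / W ^ 2 := by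
    field_simp
  rw [this]
  have h3 : 6 * W ^ 2 / M ^ 2 ≤ 6 / W ^ 2 := by
    rw [div_le_div_iff₀ (by positivity) (by positivity)]
    have : W ^ 2 * W ^ 2 ≤ M * M := mul_le_mul hWM hWM (by positivity) (by positivity)
    nlinarith
  have h4 : 9 * (1 / W) ^ 2 = 6 / W ^ 2 + 3 / W ^ 2 := by ring
  rw [h4]; linarith

theorem errC_le {d : ℕ} (hd : 1 ≤ d) (s : ℕ) {β lm μ : ℝ} (hβ : 0 < β) (hlm : 0 < lm) :
    errC d s (2 ^ (d * s / 2)) β lm μ ≤
      (12 * (lm + |μ|) + 9 * lm + 8 / β) * (1 / 2 : ℝ) ^ (s / 2) := by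
  unfold errC
  have h1 := log_bound d s hβ
  have h2 := var_bound d s
  have h3 := pow_half_le hd s
  set w : ℝ := 1 / (2 : ℝ) ^ (d * s / 2) with hw
  have hw0 : 0 < w := by positivity
  have hw1 : w ≤ 1 := by
    rw [hw, div_le_one (by positivity)]
    exact one_le_pow₀ (by norm_num)
  have hww : w ^ 2 ≤ w := by nlinarith
  have h4 : 12 / (((2 ^ (d * s / 2) : ℕ) : ℝ)) ^ 2 = 12 * w ^ 2 := by
    rw [hw]; push_cast; ring
  rw [h4]
  have hx : 0 ≤ lm + |μ| := by positivity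
  have h5 : (lm + |μ|) * (12 * w ^ 2) ≤ 12 * (lm + |μ|) * w := by nlinarith
  have h6 : lm * ((6 * ((2 ^ (d * s / 2) : ℕ) : ℝ) ^ 2 + 3 * ((2 : ℝ) ^ (d * s)) ^ 2 /
      ((2 ^ (d * s / 2) : ℕ) : ℝ) ^ 2) / ((2 : ℝ) ^ (d * s)) ^ 2) ≤ 9 * lm * w := by
    calc _ ≤ lm * (9 * w ^ 2) := mul_le_mul_of_nonneg_left h2 hlm.le
      _ ≤ _ := by nlinarith
  have h7 : 0 ≤ 12 * (lm + |μ|) + 9 * lm + 8 / β := by positivity
  calc _ ≤ 12 * (lm + |μ|) * w + 9 * lm * w + 8 / β * w := by linarith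
    _ = (12 * (lm + |μ|) + 9 * lm + 8 / β) * w := by ring
    _ ≤ _ := mul_le_mul_of_nonneg_left h3 h7

theorem sum_half {q : ℝ} (hq0 : 0 ≤ q) (hq1 : q ≤ 1) (J : ℕ) :
    ∑ s ∈ range (J + 1), cf q J s * (1 / 2 : ℝ) ^ (s / 2) ≤ 4 * (1 - q) + (1 / 2 : ℝ) ^ (J / 2) := by
  have hsum : ∀ n : ℕ, ∑ s ∈ range n, (1 / 2 : ℝ) ^ (s / 2) ≤ 4 := by
    have h1 : ∀ k : ℕ, ∑ s ∈ range (2 * k), (1 / 2 : ℝ) ^ (s / 2) = 4 - 4 * (1 / 2 : ℝ) ^ k := by
      intro k
      induction k with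
      | zero => simp
      | succ k ih =>
        have e : 2 * (k + 1) = 2 * k + 1 + 1 := by ring
        rw [e, Finset.sum_range_succ, Finset.sum_range_succ, ih]
        have e1 : 2 * k / 2 = k := by omega
        have e2 : (2 * k + 1) / 2 = k := by omega
        rw [e1, e2, pow_succ]
        ring
    intro n
    calc ∑ s ∈ range n, (1 / 2 : ℝ) ^ (s / 2) ≤ ∑ s ∈ range (2 * n), (1 / 2 : ℝ) ^ (s / 2) :=
          Finset.sum_le_sum_of_subset_of_nonneg (by
            intro x hx; rw [Finset.mem_range] at *; omega) fun _ _ _ => by positivity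
      _ = 4 - 4 * (1 / 2 : ℝ) ^ n := h1 n
      _ ≤ 4 := by
          have : (0 : ℝ) ≤ (1 / 2 : ℝ) ^ n := by positivity
          linarith
  rw [Finset.sum_range_succ]
  have h2 : ∑ s ∈ range J, cf q J s * (1 / 2 : ℝ) ^ (s / 2) ≤ 4 * (1 - q) := by
    calc ∑ s ∈ range J, cf q J s * (1 / 2 : ℝ) ^ (s / 2)
        ≤ ∑ s ∈ range J, (1 - q) * (1 / 2 : ℝ) ^ (s / 2) := by
          refine Finset.sum_le_sum fun s hs => ?_
          apply mul_le_mul_of_nonneg_right _ (by positivity)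
          unfold cf
          rw [if_pos (Finset.mem_range.1 hs)]
          have h3 : q ^ s ≤ 1 := pow_le_one₀ hq0 hq1
          nlinarith
      _ = (1 - q) * ∑ s ∈ range J, (1 / 2 : ℝ) ^ (s / 2) := by rw [Finset.mul_sum]
      _ ≤ (1 - q) * 4 := mul_le_mul_of_nonneg_left (hsum J) (by linarith)
      _ = _ := by ring
  have h3 : cf q J J * (1 / 2 : ℝ) ^ (J / 2) ≤ (1 / 2 : ℝ) ^ (J / 2) := by
    have h4 : cf q J J ≤ 1 := by
      unfold cf
      rw [if_neg (lt_irrefl _)]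
      exact pow_le_one₀ hq0 hq1
    calc _ ≤ 1 * (1 / 2 : ℝ) ^ (J / 2) := mul_le_mul_of_nonneg_right h4 (by positivity)
      _ = _ := one_mul _
  linarith

/-- the lower bound of the free energy, all scales -/
theorem lowerH {d J : ℕ} (hd : 1 ≤ d) {q μ β : ℝ} (hq0 : 0 ≤ q) (hq1 : q ≤ 1) (hβ : 0 < β)
    {ψ : (Site d J → Bool) → WF (Site d J)} {E lam : (Site d J → Bool) → ℝ}
    (h : IsGibbs q μ β ψ E lam) {lm μ' : ℝ} (hlm : 0 < lm) (F : ℝ)
    (hF : ∀ e, |μ'| / 2 ≤ e → F ≤ mfG β μ' lm e) :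
    F - (12 * (lm + |μ'|) + 9 * lm + 8 / β) * (4 * (1 - q) + (1 / 2 : ℝ) ^ (J / 2)) ≤
      - ((1 / β) * (Real.log (∑ m, Real.exp (-(β * E m))) / 2 ^ (d * J))) +
      (1 - lm) * (∑ s ∈ range (J + 1), cf q J s * ∑ m, lam m * coh s (ψ m)) -
      (μ' - μ) * ∑ m, lam m * rho (ψ m) := by
  set V : ℝ := (2 : ℝ) ^ (d * J) with hV
  have hV0 : 0 < V := by positivity
  set a : ℕ → ℝ := fun s => ∑ m, lam m * coh s (ψ m) with ha
  set rh : ℝ := ∑ m, lam m * rho (ψ m) with hrh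
  set S := ∑ m, lam m * Real.log (lam m) with hSdef
  set C : ℝ := 12 * (lm + |μ'|) + 9 * lm + 8 / β with hC
  have hC0 : 0 ≤ C := by rw [hC]; positivity
  set X := ∑ s ∈ range (J + 1), cf q J s * a s with hX
  have h1 : ∀ s ∈ range (J + 1), cf q J s * (F - C * (1 / 2 : ℝ) ^ (s / 2)) ≤
      cf q J s * (-(lm * a s) - μ' * rh + 1 / (β * V) * S) := by
    intro s hs
    refine mul_le_mul_of_nonneg_left ?_ (ki_cf_nonneg hq0 hq1 J s)
    have h2 := lowerS (d := d) (s := s) (by have := Finset.mem_range.1 hs; omega) hβ hlm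
      (2 ^ (d * s / 2)) Nat.one_le_two_pow h.onb h.nonneg h.sum F hF
    have h3 := errC_le hd s (μ := μ') hβ hlm
    have h4 : F - C * (1 / 2 : ℝ) ^ (s / 2) ≤ F - errC d s (2 ^ (d * s / 2)) β lm μ' := by
      linarith
    exact h4.trans h2
  have h2 := Finset.sum_le_sum h1
  have h3 : ∑ s ∈ range (J + 1), cf q J s * (F - C * (1 / 2 : ℝ) ^ (s / 2)) =
      F - C * ∑ s ∈ range (J + 1), cf q J s * (1 / 2 : ℝ) ^ (s / 2) := by
    simp only [mul_sub, Finset.sum_sub_distrib]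
    rw [← Finset.sum_mul, ki_cf_sum, one_mul]
    congr 1
    rw [Finset.mul_sum]
    exact Finset.sum_congr rfl fun s _ => by ring
  have h4 : ∑ s ∈ range (J + 1), cf q J s * (-(lm * a s) - μ' * rh + 1 / (β * V) * S) =
      - (lm * X) - μ' * rh + 1 / (β * V) * S := by
    have e1 : ∀ s, cf q J s * (-(lm * a s) - μ' * rh + 1 / (β * V) * S) =
        - (lm * (cf q J s * a s)) + cf q J s * (- (μ' * rh) + 1 / (β * V) * S) := fun s => by ring
    rw [Finset.sum_congr rfl fun s _ => e1 s, Finset.sum_add_distrib, Finset.sum_neg_distrib,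
      ← Finset.mul_sum, ← Finset.sum_mul, ki_cf_sum, one_mul]
    ring
  rw [h3, h4] at h2
  have h5 := sum_half hq0 hq1 J
  have h6 := mul_le_mul_of_nonneg_left h5 hC0
  -- the free energy
  have h7 := h.free
  have hen1 : ∑ m, lam m * en q 0 μ (ψ m) = - X - μ * rh := by
    unfold en
    have t1 : ∀ m, lam m * (-∑ s ∈ range (J + 1), cf q J s * coh s (ψ m) + 0 * nn (ψ m) -
        μ * rho (ψ m)) = - (∑ s ∈ range (J + 1), cf q J s * (lam m * coh s (ψ m))) -
        μ * (lam m * rho (ψ m)) := by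
      intro m
      have : ∑ s ∈ range (J + 1), cf q J s * (lam m * coh s (ψ m)) =
          lam m * ∑ s ∈ range (J + 1), cf q J s * coh s (ψ m) := by
        rw [Finset.mul_sum]
        exact Finset.sum_congr rfl fun s _ => by ring
      rw [this]; ring
    rw [Finset.sum_congr rfl fun m _ => t1 m, Finset.sum_sub_distrib,
      Finset.sum_neg_distrib, ← Finset.mul_sum, Finset.sum_comm]
    simp only [← Finset.mul_sum]
    rfl
  rw [hen1, ← hV] at h7
  rw [h7]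
  have h8 : -(1 / β * (-(β * (-X - μ * rh)) - 1 / V * S)) = - X - μ * rh + 1 / (β * V) * S := by
    field_simp
    ring
  rw [h8]
  linarith

end Pool.Agent.TH268.TB
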