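import Pool.Agent.TH268.TB.Sub2
import Pool.Agent.TH268.TB.LocC
import Pool.Agent.H96R2.BEC.KeyE

/-!
# The trial inequality for one cube
-/

set_option autoImplicit false

open Finset BigOperators

namespace Pool.Agent.TH268.TB

open Pool.Agent.H11R2.BEC Pool.Agent.H11R2.BEC.T2c

/-- the bound after localisation -/
noncomputable def rhs2 {d j : ℕ} (q μ θ κ v : ℝ) (J : ℕ) (φ : WF (Site d j)) : ℝ :=
  - (nsq (av j 0 φ) - κ * nsq φ) + v * nsq φ
      - ∑ s ∈ range j, cf q J s * ((1 / (2 : ℝ) ^ (d * j)) * ∑ z ∈ inn j s,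
          ((1 - θ) * (nsq (fun η => av s z φ η - av j 0 φ η) - 4 * κ * nsq φ)
            - (v * nsq φ) / θ))
      + (- μ * rho φ + |μ| * κ * nsq φ)

/-- the sum over the pieces of the localisation -/
theorem step1 {d J j : ℕ} {q μ : ℝ} (hq0 : 0 ≤ q) (hq1 : q ≤ 1)
    {θ : ℝ} (hθ : 0 < θ) (hθ1 : θ ≤ 1)
    {A : Type} [Fintype A] (L : A → WF (Site d j)) (c : A → ℂ) (φ : WF (Site d j)) (κ R v : ℝ)
    (hκ : 0 ≤ κ) (hv : v = R / ((2 : ℝ) ^ (d * j)) ^ 2)
    (h2 : ∀ x y, |∑ α, cor (L α) x y - cor φ x y| ≤ κ * nsq φ)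
    (h3 : ∀ x y, |∑ α, pd (L α) x y - pd φ x y| ≤ κ * nsq φ)
    (h4 : ∑ α, nsq (fun η => lowU (fun _ => 1) (L α) η - c α * L α η) ≤ R * nsq φ) :
    ∑ α, rhs q μ θ J (c α / (((2 : ℝ) ^ (d * j) : ℝ) : ℂ)) (L α) ≤ rhs2 q μ θ κ v J φ := by
  set M : ℝ := (2 : ℝ) ^ (d * j) with hM
  have hM0 : 0 < M := by positivity
  have hn := ki_nsq_nonneg φ
  have hT2 : ∑ α, nsq (fun η => av j 0 (L α) η - c α / (M : ℂ) * L α η) ≤ v * nsq φ := by
    have e : ∀ α, nsq (fun η => av j 0 (L α) η - c α / (M : ℂ) * L α η) =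
        (1 / M ^ 2) * nsq (fun η => lowU (fun _ => 1) (L α) η - c α * L α η) := by
      intro α
      have e1 : (fun η => av j 0 (L α) η - c α / (M : ℂ) * L α η) =
          fun η => (1 / (M : ℂ)) * (lowU (fun _ => 1) (L α) η - c α * L α η) := by
        funext η
        rw [ki_av_top, hM]
        push_cast
        ring
      rw [e1, ki_nsq_smul]
      congr 1
      rw [norm_div, norm_one, Complex.norm_real, Real.norm_of_nonneg hM0.le, div_pow, one_pow]
    rw [Finset.sum_congr rfl fun α _ => e α, ← Finset.mul_sum]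
    calc 1 / M ^ 2 * ∑ α, nsq (fun η => lowU (fun _ => 1) (L α) η - c α * L α η)
        ≤ 1 / M ^ 2 * (R * nsq φ) := mul_le_mul_of_nonneg_left h4 (by positivity)
      _ = v * nsq φ := by rw [hv]; ring
  have hT1 : nsq (av j 0 φ) - κ * nsq φ ≤ ∑ α, nsq (av j 0 (L α)) := by
    have := ki_stab L φ (κ * nsq φ) h2 (kiW j 0)
    rw [ki_W_sum, one_pow, mul_one] at this
    simp only [← ki_av_lowU] at this
    have := (abs_le.mp this).1
    linarith
  have hX : ∀ (s : ℕ) (z : Site d j), nsq (fun η => av s z φ η - av j 0 φ η) - 4 * κ * nsq φ ≤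
      ∑ α, nsq (fun η => av s z (L α) η - av j 0 (L α) η) := by
    intro s z
    have := ki_stab L φ (κ * nsq φ) h2 (fun x => kiW s z x - kiW j 0 x)
    have e : ∀ χ : WF (Site d j), nsq (lowU (fun x => kiW s z x - kiW j 0 x) χ) =
        nsq (fun η => av s z χ η - av j 0 χ η) := by
      intro χ
      congr 1
      funext η
      rw [ki_lowU_sub, ki_av_lowU, ki_av_lowU]
    simp only [e] at this
    have h5 := (abs_le.mp this).1
    have h6 := ki_W_sub s z j (0 : Site d j)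
    have h7 : κ * nsq φ * (∑ x, |kiW s z x - kiW j 0 x|) ^ 2 ≤ κ * nsq φ * 4 :=
      mul_le_mul_of_nonneg_left h6 (by positivity)
    linarith
  have hT6 : |∑ α, rho (L α) - rho φ| ≤ κ * nsq φ := by
    have e : ∑ α, rho (L α) - rho φ = (1 / M) * ∑ x : Site d j, (∑ α, pd (L α) x x - pd φ x x) := by
      unfold rho
      rw [← Finset.mul_sum, ← mul_sub]
      congr 1
      rw [Finset.sum_comm, ← Finset.sum_sub_distrib]
    rw [e, abs_mul, abs_of_nonneg (by positivity : (0:ℝ) ≤ 1 / M)]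
    calc (1 / M) * |∑ x : Site d j, (∑ α, pd (L α) x x - pd φ x x)|
        ≤ (1 / M) * ∑ _x : Site d j, κ * nsq φ := by
          refine mul_le_mul_of_nonneg_left ?_ (by positivity)
          exact (Finset.abs_sum_le_sum_abs _ _).trans (Finset.sum_le_sum fun x _ => h3 x x)
      _ = κ * nsq φ := by
          rw [Finset.sum_const, Finset.card_univ, nsmul_eq_mul, ki_card_site, ← hM]
          field_simp
  have hT3 : ∑ s ∈ range j, cf q J s * ((1 / M) * ∑ z ∈ inn j s,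
          ((1 - θ) * (nsq (fun η => av s z φ η - av j 0 φ η) - 4 * κ * nsq φ)
            - (v * nsq φ) / θ)) ≤
      ∑ α, ∑ s ∈ range j, cf q J s * ((1 / M) * ∑ z ∈ inn j s,
          ((1 - θ) * nsq (fun η => av s z (L α) η - av j 0 (L α) η)
            - nsq (fun η => av j 0 (L α) η - c α / (M : ℂ) * L α η) / θ)) := by
    rw [Finset.sum_comm]
    refine Finset.sum_le_sum fun s _ => ?_
    rw [← Finset.mul_sum]
    refine mul_le_mul_of_nonneg_left ?_ (ki_cf_nonneg hq0 hq1 J s)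
    rw [← Finset.mul_sum]
    refine mul_le_mul_of_nonneg_left ?_ (by positivity)
    rw [Finset.sum_comm]
    refine Finset.sum_le_sum fun z _ => ?_
    rw [Finset.sum_sub_distrib, ← Finset.mul_sum, ← Finset.sum_div]
    have a1 := mul_le_mul_of_nonneg_left (hX s z) (by linarith : (0:ℝ) ≤ 1 - θ)
    have a2 := div_le_div_of_nonneg_right hT2 hθ.le
    linarith
  have hg6 : - (μ * ∑ α, rho (L α)) ≤ - μ * rho φ + |μ| * κ * nsq φ := by
    have b1 : - μ * (∑ α, rho (L α) - rho φ) ≤ |μ| * |∑ α, rho (L α) - rho φ| := by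
      rw [← abs_neg μ, ← abs_mul]; exact le_abs_self _
    have b2 : |μ| * |∑ α, rho (L α) - rho φ| ≤ |μ| * (κ * nsq φ) :=
      mul_le_mul_of_nonneg_left hT6 (abs_nonneg _)
    linarith
  unfold rhs rhs2
  simp only [← hM]
  rw [Finset.sum_sub_distrib, Finset.sum_sub_distrib, Finset.sum_add_distrib,
    Finset.sum_neg_distrib, ← Finset.mul_sum]
  linarith

theorem entropy_le_card {A : Type} [Fintype A] (P : A → ℝ) (hP : ∀ α, 0 ≤ P α)
    (hP1 : ∑ α, P α = 1) : - ∑ α, P α * Real.log (P α) ≤ Real.log (Fintype.card A) := by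
  have h := jensen_log (fun _ => 1) P (fun _ => 1) (fun _ => zero_le_one) hP
    (fun _ => zero_le_one) (by simpa using hP1) (fun t ht => absurd ht one_ne_zero)
  simp only [mul_one, Real.log_one, zero_sub, mul_neg, Finset.sum_neg_distrib, Finset.sum_const,
    Finset.card_univ, nsmul_eq_mul] at h
  exact h

/-- the trial inequality for one cube -/
theorem step2 {d J j : ℕ} (hj : j ≤ J) {q μ β : ℝ} (hq0 : 0 ≤ q) (hq1 : q ≤ 1) (hβ : 0 < β)
    {ψ : (Site d J → Bool) → WF (Site d J)} {E : (Site d J → Bool) → ℝ} (hψ : ONB ψ)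
    (hE : ∀ χ : WF (Site d J), (2 : ℝ) ^ (d * J) * en q 0 μ χ = ∑ m, E m * ‖gip (ψ m) χ‖ ^ 2)
    (W : ℕ) (hW : 1 ≤ W) {θ : ℝ} (hθ : 0 < θ) (hθ1 : θ ≤ 1) (κ v : ℝ) (hκ : κ = 12 / (W : ℝ) ^ 2)
    (hv : v = (6 * (W : ℝ) ^ 2 + 3 * ((2 : ℝ) ^ (d * j)) ^ 2 / (W : ℝ) ^ 2) /
      ((2 : ℝ) ^ (d * j)) ^ 2)
    (φ : (Site d j → Bool) → WF (Site d j)) (r : (Site d j → Bool) → ℝ) (hφ : ONB φ)
    (hr : ∀ k, 0 ≤ r k) (hr1 : ∑ k, r k = 1) :
    - (β * ∑ k, r k * rhs2 q μ θ κ v J (φ k)) - (1 / (2 : ℝ) ^ (d * j)) *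
        (∑ k, r k * Real.log (r k) + Real.log (((2 : ℝ) ^ (d * j) + 2 * W + 1) ^ 2)) ≤
      Real.log (∑ m, Real.exp (-(β * E m))) / 2 ^ (d * J) := by
  classical
  obtain ⟨A, hA, L, c, hcard, hadj, hL⟩ := localizeC (Q := Site d j) W hW
  set M : ℝ := (2 : ℝ) ^ (d * j) with hM
  have hM0 : 0 < M := by positivity
  set p : ℝ := Real.log (∑ m, Real.exp (-(β * E m))) / 2 ^ (d * J) with hp
  have hκ0 : 0 ≤ κ := by rw [hκ]; positivity
  set P : A → ℝ := fun α => ∑ k, r k * nsq (L α (φ k)) with hP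
  have hP0 : ∀ α, 0 ≤ P α := fun α =>
    Finset.sum_nonneg fun k _ => mul_nonneg (hr k) (ki_nsq_nonneg _)
  have hφ1 : ∀ k, nsq (φ k) = 1 := fun k => hφ.norm k
  have hP1 : ∑ α, P α = 1 := by
    simp only [hP]
    rw [Finset.sum_comm, ← hr1]
    refine Finset.sum_congr rfl fun k _ => ?_
    rw [← Finset.mul_sum, (hL (φ k)).1, hφ1, mul_one]
  have hbes : ∀ α, ∀ u : WF (Site d j), ∑ k, ‖ip (L α (φ k)) u‖ ^ 2 ≤ nsq u := by
    intro α u
    obtain ⟨L', h1, h2⟩ := hadj α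
    simp only [h1]
    exact (hφ.pars (L' u)).le.trans (h2 u)
  have hT : ∀ α, - (β * ∑ k, r k * rhs q μ θ J (c α / (M : ℂ)) (L α (φ k))) - (1 / M) *
        (∑ k, r k * nsq (L α (φ k)) * Real.log (r k) - P α * Real.log (P α)) ≤ P α * p := by
    intro α
    rcases (hP0 α).eq_or_lt with h0 | h0
    · have h1 : ∀ k, r k = 0 ∨ nsq (L α (φ k)) = 0 := by
        intro k
        have h2 := (Finset.sum_eq_zero_iff_of_nonneg (fun k _ => mul_nonneg (hr k)
          (ki_nsq_nonneg (L α (φ k))))).1 h0.symm k (Finset.mem_univ k)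
        exact mul_eq_zero.1 h2
      have h3 : ∀ k, r k * rhs q μ θ J (c α / (M : ℂ)) (L α (φ k)) = 0 := by
        intro k
        rcases h1 k with h | h
        · rw [h, zero_mul]
        · have h4 : L α (φ k) = fun η => (0 : ℂ) * (L α (φ k)) η := by
            rw [nsq_eq_zero h]
            funext η; simp
          rw [h4, rhs_smul]
          simp
      have h5 : ∀ k, r k * nsq (L α (φ k)) * Real.log (r k) = 0 := by
        intro k
        rcases h1 k with h | h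
        · rw [h]; simp
        · rw [h]; simp
      rw [Finset.sum_congr rfl fun k _ => h3 k, Finset.sum_congr rfl fun k _ => h5 k, ← h0]
      simp
    · exact trialT hj hq0 hq1 hβ hψ hE (fun k => L α (φ k)) r hr (P α) rfl h0 (hbes α) _ hθ
  have hsum := Finset.sum_le_sum (s := (univ : Finset A)) fun α _ => hT α
  rw [← Finset.sum_mul, hP1, one_mul] at hsum
  refine le_trans ?_ hsum
  rw [Finset.sum_sub_distrib, Finset.sum_neg_distrib, ← Finset.mul_sum, ← Finset.mul_sum,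
    Finset.sum_sub_distrib]
  have e1 : ∑ α, ∑ k, r k * rhs q μ θ J (c α / (M : ℂ)) (L α (φ k)) ≤
      ∑ k, r k * rhs2 q μ θ κ v J (φ k) := by
    rw [Finset.sum_comm]
    refine Finset.sum_le_sum fun k _ => ?_
    rw [← Finset.mul_sum]
    refine mul_le_mul_of_nonneg_left ?_ (hr k)
    exact step1 hq0 hq1 hθ hθ1 (fun α => L α (φ k)) c (φ k) κ
      (6 * (W : ℝ) ^ 2 + 3 * M ^ 2 / (W : ℝ) ^ 2) v hκ0 hv
      (by rw [hκ]; exact (hL (φ k)).2.1) (by rw [hκ]; exact (hL (φ k)).2.2.1)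
      (by have := (hL (φ k)).2.2.2; rw [ki_card_site, ← hM] at this; exact this)
  have e2 : ∑ α, ∑ k, r k * nsq (L α (φ k)) * Real.log (r k) = ∑ k, r k * Real.log (r k) := by
    rw [Finset.sum_comm]
    refine Finset.sum_congr rfl fun k _ => ?_
    rw [← Finset.sum_mul, ← Finset.mul_sum, (hL (φ k)).1, hφ1, mul_one]
  have e3 := entropy_le_card P hP0 hP1
  have e4 : (Fintype.card A : ℝ) = (M + 2 * W + 1) ^ 2 := by
    rw [hcard]
    push_cast
    rw [ki_card_site]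
  rw [e4] at e3
  rw [e2]
  have e5 := mul_le_mul_of_nonneg_left e1 hβ.le
  have e6 : (1 / M) * (∑ k, r k * Real.log (r k) - ∑ α, P α * Real.log (P α)) ≤
      (1 / M) * (∑ k, r k * Real.log (r k) + Real.log ((M + 2 * W + 1) ^ 2)) :=
    mul_le_mul_of_nonneg_left (by linarith) (by positivity)
  linarith

end Pool.Agent.TH268.TB
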