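import Pool.Agent.TH268.TB.MF
set_option autoImplicit false
open Finset BigOperators
namespace Pool.Agent.TH268.TB

/-- the mean-field density -/
noncomputable def mfRho (β h m : ℝ) : ℝ :=
  if |h| < m then (1 + h) / 2 else (1 + Real.tanh (β * h / 2)) / 2

namespace Rho

lemma tanh_pos' (z : ℝ) (hz : 0 < z) : 0 < Real.tanh z := by
  rw [Real.tanh_eq_sinh_div_cosh]
  exact div_pos (Real.sinh_pos_iff.2 hz) (Real.cosh_pos z)

/-- tangent line inequality for `e ^ 2 ↦ (1 / b) log (2 cosh (b e))` -/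
lemma tangent (b e : ℝ) (hb : 0 < b) (he : 0 ≤ e) : ∃ R : ℝ, 0 ≤ R ∧ R ≤ b ∧
    (0 < e → R = Real.tanh (b * e) / e) ∧ ∀ u : ℝ, 0 ≤ u →
    (1 / b) * Real.log (2 * Real.cosh (b * u)) - (1 / b) * Real.log (2 * Real.cosh (b * e)) ≤
      R / 2 * (u ^ 2 - e ^ 2) := by
  rcases lt_or_eq_of_le he with h0 | h0
  · have hR : 0 < Real.tanh (b * e) / e := div_pos (tanh_pos' _ (by positivity)) h0
    refine ⟨Real.tanh (b * e) / e, hR.le, ?_, fun _ => rfl, ?_⟩
    · rw [div_le_iff₀ h0]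
      exact (tanh_lt_self' _ (by positivity)).le
    · intro u hu
      obtain ⟨R, hRdef⟩ : ∃ R : ℝ, R = Real.tanh (b * e) / e := ⟨_, rfl⟩
      rw [← hRdef] at hR ⊢
      have hl : 0 < 2 / R := by positivity
      have hcont := mfG_cont b 0 (2 / R) hb hl
      have hder : ∀ v, deriv (fun v => mfG b 0 (2 / R) v) v = R * v - Real.tanh (b * v) := by
        intro v
        rw [(mfG_hasDeriv b 0 (2 / R) v hb hl).deriv]
        field_simp
      have key : mfG b 0 (2 / R) e ≤ mfG b 0 (2 / R) u := by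
        rcases le_total e u with h1 | h1
        · have hm : MonotoneOn (fun v => mfG b 0 (2 / R) v) (Set.Ici e) := by
            apply monotoneOn_of_deriv_nonneg (convex_Ici e) hcont.continuousOn
            · intro v _
              exact (mfG_hasDeriv b 0 (2 / R) v hb hl).differentiableAt.differentiableWithinAt
            · intro v hv
              rw [interior_Ici] at hv
              rw [hder]
              have hv0 : 0 < v := h0.trans hv
              have h2 := ratio_anti b hb (Set.mem_Ioi.2 h0) (Set.mem_Ioi.2 hv0) hv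
              simp only at h2
              rw [← hRdef, div_lt_iff₀ hv0] at h2
              linarith
          exact hm (Set.mem_Ici.2 le_rfl) (Set.mem_Ici.2 h1) h1
        · have hm : AntitoneOn (fun v => mfG b 0 (2 / R) v) (Set.Icc 0 e) := by
            apply antitoneOn_of_deriv_nonpos (convex_Icc 0 e) hcont.continuousOn
            · intro v _
              exact (mfG_hasDeriv b 0 (2 / R) v hb hl).differentiableAt.differentiableWithinAt
            · intro v hv
              rw [interior_Icc] at hv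
              rw [hder]
              have hv0 : 0 < v := hv.1
              have h2 := ratio_anti b hb (Set.mem_Ioi.2 hv0) (Set.mem_Ioi.2 h0) hv.2
              simp only at h2
              rw [← hRdef, lt_div_iff₀ hv0] at h2
              linarith
          exact hm (Set.mem_Icc.2 ⟨hu, h1⟩) (Set.mem_Icc.2 ⟨he, le_rfl⟩) h1
      unfold mfG at key
      have e1 : ∀ v : ℝ, (v ^ 2 - 0 ^ 2 / 4) / (2 / R) = R / 2 * v ^ 2 := by
        intro v
        field_simp
        ring
      rw [e1, e1] at key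
      linarith
  · subst h0
    refine ⟨b, hb.le, le_rfl, fun h => absurd h (lt_irrefl _), fun u hu => ?_⟩
    rw [mul_zero, Real.cosh_zero, mul_one, Real.log_mul two_ne_zero (Real.cosh_pos _).ne']
    have h1 : Real.log (Real.cosh (b * u)) ≤ (b * u) ^ 2 / 2 := by
      rw [Real.log_le_iff_le_exp (Real.cosh_pos _)]
      exact Real.cosh_le_exp_half_sq _
    have h2 : (1 / b) * Real.log (Real.cosh (b * u)) ≤ (1 / b) * ((b * u) ^ 2 / 2) :=
      mul_le_mul_of_nonneg_left h1 (by positivity)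
    have h3 : (1 / b) * ((b * u) ^ 2 / 2) = b / 2 * u ^ 2 := by
      field_simp
    rw [h3] at h2
    linarith

/-- comparison of the problems at `μ` and at `μ + s` -/
lemma side (b μ s f e' : ℝ) (hb : 0 < b) (hf : ∀ e, |μ| / 2 ≤ e → f ≤ mfG b μ 1 e)
    (he' : |μ + s| / 2 ≤ e') : ∃ e R : ℝ, 0 ≤ e ∧ e ^ 2 = e' ^ 2 - (2 * μ * s + s ^ 2) / 4 ∧
      0 ≤ R ∧ R ≤ b ∧ (0 < e → R = Real.tanh (b * e) / e) ∧
      f - mfG b (μ + s) 1 e' ≤ s / 2 + R / 8 * (2 * μ * s + s ^ 2) := by
  have hpos : 0 ≤ |μ + s| := abs_nonneg _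
  have hsq : |μ + s| ^ 2 = (μ + s) ^ 2 := sq_abs _
  have hc : 0 ≤ e' ^ 2 - (μ + s) ^ 2 / 4 := by nlinarith
  obtain ⟨e, hedef⟩ : ∃ e : ℝ, e = Real.sqrt (μ ^ 2 / 4 + (e' ^ 2 - (μ + s) ^ 2 / 4)) := ⟨_, rfl⟩
  have he0 : 0 ≤ e := by rw [hedef]; exact Real.sqrt_nonneg _
  have he2 : e ^ 2 = μ ^ 2 / 4 + (e' ^ 2 - (μ + s) ^ 2 / 4) := by
    rw [hedef, Real.sq_sqrt (by positivity)]
  have hμe : |μ| / 2 ≤ e := by
    apply le_of_sq_le_sq _ he0
    rw [div_pow, sq_abs, he2]
    linarith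
  obtain ⟨R, hR0, hRb, hR, hu⟩ := tangent b e hb he0
  refine ⟨e, R, he0, by rw [he2]; ring, hR0, hRb, hR, ?_⟩
  have h1 := hf e hμe
  have h2 := hu e' (by linarith)
  unfold mfG at h1 ⊢
  rw [he2] at h1 h2
  have e1 : R / 2 * (e' ^ 2 - (μ ^ 2 / 4 + (e' ^ 2 - (μ + s) ^ 2 / 4))) =
      R / 8 * (2 * μ * s + s ^ 2) := by ring
  rw [e1] at h2
  linarith

/-- the position of the minimiser -/
lemma loc (β η m : ℝ) (hβ : 0 < β) (hη : 0 < η) (hm : 0 ≤ m) (hm1 : m = Real.tanh (β * m / 2))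
    (hm2 : 0 < m ∨ β ≤ 2) :
    ∃ d : ℝ, 0 < d ∧ ∀ b ν : ℝ, 0 < b → |b - β| ≤ d → ∃ e0 : ℝ, |ν| / 2 ≤ e0 ∧
      (∀ e, |ν| / 2 ≤ e → mfG b ν 1 e0 ≤ mfG b ν 1 e) ∧ |e0 - max (|ν| / 2) (m / 2)| ≤ η := by
  -- a smaller `η`
  obtain ⟨η', hη', hη1, hη2⟩ : ∃ η' : ℝ, 0 < η' ∧ η' ≤ η ∧ (0 < m → 2 * η' < m) := by
    by_cases h0 : 0 < m
    · exact ⟨min η (m / 4), by positivity, min_le_left _ _, fun _ => by
        have := min_le_right η (m / 4); linarith⟩
    · exact ⟨η, hη, le_rfl, fun h => absurd h h0⟩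
  set y1 := m + 2 * η' with hy1
  set y0 := m - 2 * η' with hy0
  have hy1p : 0 < y1 := by positivity
  have H1 : Real.tanh (β * (y1 / 2)) < y1 := by
    rcases lt_or_eq_of_le hm with h0 | h0
    · have h3 := ratio_anti β hβ (show m / 2 ∈ Set.Ioi (0 : ℝ) from by simp; exact h0)
        (show y1 / 2 ∈ Set.Ioi (0 : ℝ) from by simp; exact hy1p) (by rw [hy1]; linarith)
      simp only at h3
      have h4 : Real.tanh (β * (m / 2)) / (m / 2) = 2 := by
        have : β * (m / 2) = β * m / 2 := by ring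
        rw [this, ← hm1]; field_simp
      rw [h4, div_lt_iff₀ (by positivity)] at h3
      linarith
    · have h5 : β ≤ 2 := by
        rcases hm2 with h | h
        · rw [← h0] at h; exact absurd h (lt_irrefl _)
        · exact h
      have h6 := tanh_lt_self' (β * (y1 / 2)) (by positivity)
      nlinarith
  have H0 : 0 < m → y0 < Real.tanh (β * (y0 / 2)) := by
    intro h0
    have hy0p : 0 < y0 := by have := hη2 h0; rw [hy0]; linarith
    have h3 := ratio_anti β hβ (show y0 / 2 ∈ Set.Ioi (0 : ℝ) from by simp; exact hy0p)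
        (show m / 2 ∈ Set.Ioi (0 : ℝ) from by simp; exact h0) (by rw [hy0]; linarith)
    simp only at h3
    have h4 : Real.tanh (β * (m / 2)) / (m / 2) = 2 := by
      have : β * (m / 2) = β * m / 2 := by ring
      rw [this, ← hm1]; field_simp
    rw [h4, lt_div_iff₀ (by positivity)] at h3
    linarith
  obtain ⟨d, hd, hd2⟩ := choose_d β y0 y1 0 (0 < m) (by simpa using H1) (by simpa using H0)
  refine ⟨d, hd, fun b ν hb hbd => ?_⟩
  obtain ⟨B1, B0⟩ := hd2 b hbd
  rw [add_zero, div_one] at B1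
  obtain ⟨e0, ea, eb, ec⟩ := mfG_min b ν 1 y1 (|ν| / 2) hb one_pos hy1p (by positivity)
    (by rw [div_one]; exact B1)
  refine ⟨e0, ea, ec, ?_⟩
  have hν := abs_nonneg ν
  rw [abs_le]
  constructor
  · rcases lt_or_eq_of_le hm with h0 | h0
    · have hy0p : 0 < y0 := by have := hη2 h0; rw [hy0]; linarith
      have B0' := B0 h0
      rw [sub_zero, div_one] at B0'
      have e1y : y0 / 2 ≤ e0 := by
        by_contra hcon
        push Not at hcon
        have hanti := mfG_anti b ν 1 y0 hb one_pos hy0p (by rw [div_one]; exact B0')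
        have h10 : 0 ≤ e0 := by linarith
        have h11 := hanti (Set.mem_Icc.2 ⟨h10, hcon.le⟩)
          (Set.mem_Icc.2 ⟨by positivity, le_refl _⟩) hcon
        have h12 := ec (y0 / 2) (by linarith)
        simp only at h11
        linarith
      have h13 : max (|ν| / 2) (m / 2) ≤ e0 + η := by
        apply max_le
        · linarith
        · rw [hy0] at e1y; linarith
      linarith
    · have h13 : max (|ν| / 2) (m / 2) ≤ e0 := by
        apply max_le ea
        rw [← h0]; linarith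
      linarith
  · have h13 : e0 ≤ max (|ν| / 2) (m / 2) + η := by
      refine eb.trans (max_le ?_ ?_)
      · have := le_max_left (|ν| / 2) (m / 2); linarith
      · have := le_max_right (|ν| / 2) (m / 2)
        rw [hy1]; linarith
    linarith

/-- the density as a limit -/
lemma cont (β h ε m : ℝ) (hβ : 0 < β) (hε : 0 < ε) (hm : 0 ≤ m)
    (hm1 : m = Real.tanh (β * m / 2)) :
    ∃ ρ : ℝ, 0 < ρ ∧ ρ ≤ 1 ∧ ∀ b μ e R : ℝ, |b - β| ≤ ρ → |μ - h| ≤ ρ →
      |e - max (|h| / 2) (m / 2)| ≤ ρ → 0 ≤ e → 0 ≤ R → R ≤ b →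
      (0 < e → R = Real.tanh (b * e) / e) → |1 / 2 + R * μ / 4 - mfRho β h m| ≤ ε := by
  by_cases h0 : h = 0
  · subst h0
    have hρ0 : mfRho β 0 m = 1 / 2 := by
      unfold mfRho
      split_ifs <;> simp
    refine ⟨min 1 (ε / (β + 1)), by positivity, min_le_left _ _, ?_⟩
    intro b μ e R hb hμ _ _ hR0 hRb _
    have r1 : min 1 (ε / (β + 1)) ≤ 1 := min_le_left _ _
    have r2 : min 1 (ε / (β + 1)) ≤ ε / (β + 1) := min_le_right _ _
    rw [le_div_iff₀ (by positivity)] at r2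
    rw [hρ0]
    have e1 : 1 / 2 + R * μ / 4 - 1 / 2 = R * μ / 4 := by ring
    rw [e1, abs_div, abs_mul, abs_of_nonneg hR0]
    rw [sub_zero] at hμ
    have h4 : |(4 : ℝ)| = 4 := by norm_num
    rw [h4]
    have hb1 : b ≤ β + 1 := by linarith [(abs_le.1 hb).2]
    have h5 : R * |μ| ≤ (β + 1) * min 1 (ε / (β + 1)) :=
      mul_le_mul (hRb.trans hb1) hμ (abs_nonneg _) (by positivity)
    linarith
  · have hh : 0 < |h| := abs_pos.2 h0
    obtain ⟨E, hE⟩ : ∃ E : ℝ, E = max (|h| / 2) (m / 2) := ⟨_, rfl⟩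
    have hE0 : 0 < E := by
      rw [hE]; exact lt_of_lt_of_le (by positivity) (le_max_left _ _)
    have hval : 1 / 2 + Real.tanh (β * E) / E * h / 4 = mfRho β h m := by
      unfold mfRho
      split_ifs with hc
      · have hE' : E = m / 2 := by rw [hE]; exact max_eq_right (by linarith)
        have hm0 : 0 < m := hh.trans hc
        have e1 : β * E = β * m / 2 := by rw [hE']; ring
        rw [e1, ← hm1, hE']
        field_simp
        ring
      · push Not at hc
        have hE' : E = |h| / 2 := by rw [hE]; exact max_eq_left (by linarith)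
        rw [hE']
        rcases lt_or_gt_of_ne h0 with h1 | h1
        · rw [abs_of_neg h1]
          have e1 : β * (-h / 2) = -(β * h / 2) := by ring
          rw [e1, Real.tanh_neg]
          field_simp
          ring
        · rw [abs_of_pos h1]
          have e1 : β * (h / 2) = β * h / 2 := by ring
          rw [e1]
          field_simp
          ring
    have hcont : ContinuousAt (fun p : ℝ × ℝ × ℝ => 1 / 2 + Real.tanh (p.1 * p.2.2) / p.2.2 *
        p.2.1 / 4) (β, h, E) := by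
      have c1 : Continuous (fun p : ℝ × ℝ × ℝ => Real.tanh (p.1 * p.2.2)) :=
        tanh_cont.comp (by fun_prop)
      have c2 : ContinuousAt (fun p : ℝ × ℝ × ℝ => Real.tanh (p.1 * p.2.2) / p.2.2) (β, h, E) :=
        c1.continuousAt.div (by fun_prop) hE0.ne'
      exact ((c2.mul (by fun_prop)).div_const 4).const_add (1 / 2) |> fun t => t
    obtain ⟨δ, hδ, hc⟩ := Metric.continuousAt_iff.1 hcont ε hε
    refine ⟨min 1 (min (δ / 2) (E / 2)), by positivity, min_le_left _ _, ?_⟩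
    intro b μ e R hb hμ he he0 hR0 hRb hR
    rw [← hE] at he
    have r2 : min 1 (min (δ / 2) (E / 2)) ≤ δ / 2 := (min_le_right _ _).trans (min_le_left _ _)
    have r3 : min 1 (min (δ / 2) (E / 2)) ≤ E / 2 := (min_le_right _ _).trans (min_le_right _ _)
    have hep : 0 < e := by linarith [(abs_le.1 he).1]
    have hd : dist (b, μ, e) (β, h, E) < δ := by
      rw [Prod.dist_eq, Prod.dist_eq, Real.dist_eq, Real.dist_eq, Real.dist_eq]
      refine max_lt (by linarith) (max_lt (by linarith) (by linarith))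
    have h5 := hc hd
    simp only at h5
    rw [hval, Real.dist_eq, ← hR hep] at h5
    exact h5.le

end Rho

open Rho in
/-- TB-G -/
theorem mf_density (β h ε m : ℝ) (hβ : 0 < β) (hε : 0 < ε) (hm : 0 ≤ m)
    (hm1 : m = Real.tanh (β * m / 2)) (hm2 : 0 < m ∨ β ≤ 2) :
    ∃ δ : ℝ, 0 < δ ∧ ∃ t : ℝ, 0 < t ∧ t < 1 ∧ ∀ β' μ f x : ℝ, 0 < β' → |β' - β| ≤ δ → |μ - h| ≤ δ →
      (∀ e, |μ| / 2 ≤ e → f ≤ mfG β' μ 1 e) →
      (∀ F : ℝ, (∀ e, |μ + t| / 2 ≤ e → F ≤ mfG β' (μ + t) 1 e) → F - δ ≤ f - t * x) →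
      (∀ F : ℝ, (∀ e, |μ - t| / 2 ≤ e → F ≤ mfG β' (μ - t) 1 e) → F - δ ≤ f + t * x) →
      |x - mfRho β h m| ≤ ε := by
  obtain ⟨ρ, hρ, hρ1, hcont⟩ := cont β h (ε / 2) m hβ (by positivity) hm hm1
  obtain ⟨d, hd, hloc⟩ := loc β (ρ / 4) m hβ (by positivity) hm hm1 hm2
  have hh := abs_nonneg h
  obtain ⟨t, ht0, ht1, ht2, ht3, ht4⟩ : ∃ t : ℝ, 0 < t ∧ t < 1 ∧ t ≤ ρ / 4 ∧
      (|h| + 2) * t ≤ ρ ^ 2 / 8 ∧ (β + 1) * t ≤ ε := by
    refine ⟨min (1 / 2) (min (ρ / 4) (min (ρ ^ 2 / 8 / (|h| + 2)) (ε / (β + 1)))),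
      by positivity, ?_, ?_, ?_, ?_⟩
    · exact (min_le_left _ _).trans_lt (by norm_num)
    · exact (min_le_right _ _).trans (min_le_left _ _)
    · have h1 : min (1 / 2) (min (ρ / 4) (min (ρ ^ 2 / 8 / (|h| + 2)) (ε / (β + 1)))) ≤
          ρ ^ 2 / 8 / (|h| + 2) :=
        (min_le_right _ _).trans ((min_le_right _ _).trans (min_le_left _ _))
      rw [le_div_iff₀ (by positivity)] at h1
      linarith
    · have h1 : min (1 / 2) (min (ρ / 4) (min (ρ ^ 2 / 8 / (|h| + 2)) (ε / (β + 1)))) ≤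
          ε / (β + 1) :=
        (min_le_right _ _).trans ((min_le_right _ _).trans (min_le_right _ _))
      rw [le_div_iff₀ (by positivity)] at h1
      linarith
  refine ⟨min d (min (ρ / 4) (t * ε / 4)), by positivity, t, ht0, ht1, ?_⟩
  intro b μ f x hb hbβ hμ hf hU hL
  set δ := min d (min (ρ / 4) (t * ε / 4)) with hδ
  have d1 : δ ≤ d := min_le_left _ _
  have d2 : δ ≤ ρ / 4 := (min_le_right _ _).trans (min_le_left _ _)
  have d3 : δ ≤ t * ε / 4 := (min_le_right _ _).trans (min_le_right _ _)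
  have dpos : 0 < δ := by positivity
  have hμh : |μ| ≤ |h| + 1 := by
    have e1 : μ = (μ - h) + h := by ring
    have := abs_add_le (μ - h) h
    rw [← e1] at this
    linarith
  have hb1 : b ≤ β + 1 := by linarith [(abs_le.1 hbβ).2]
  -- the common estimate
  have key : ∀ s : ℝ, |s| = t → ∃ R F : ℝ, 0 ≤ R ∧ R ≤ b ∧
      (∀ e, |μ + s| / 2 ≤ e → F ≤ mfG b (μ + s) 1 e) ∧
      f - F ≤ s / 2 + R / 8 * (2 * μ * s + s ^ 2) ∧
      |1 / 2 + R * μ / 4 - mfRho β h m| ≤ ε / 2 := by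
    intro s hs
    obtain ⟨e', ea, ec, eloc⟩ := hloc b (μ + s) hb (hbβ.trans d1)
    obtain ⟨e, R, he0, he2, hR0, hRb, hR, hfin⟩ := side b μ s f e' hb hf ea
    refine ⟨R, mfG b (μ + s) 1 e', hR0, hRb, ec, hfin, ?_⟩
    apply hcont b μ e R (by linarith) (by linarith) _ he0 hR0 hRb hR
    have he'0 : 0 ≤ e' := le_trans (by positivity) ea
    have hss : s ^ 2 = t ^ 2 := by rw [← sq_abs, hs]
    -- `|e - e'| ≤ ρ / 4`
    have c1 : |e - e'| ≤ ρ / 4 := by
      apply abs_le_of_sq_le_sq _ (by positivity)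
      have c2 : |e ^ 2 - e' ^ 2| ≤ (|h| + 2) * t / 2 := by
        rw [he2]
        have e3 : e' ^ 2 - (2 * μ * s + s ^ 2) / 4 - e' ^ 2 = -((2 * μ * s + s ^ 2) / 4) := by ring
        rw [e3, abs_neg, abs_div]
        have h4 : |(4 : ℝ)| = 4 := by norm_num
        rw [h4]
        have c3 : |2 * μ * s + s ^ 2| ≤ 2 * |μ| * t + t ^ 2 := by
          refine (abs_add_le _ _).trans ?_
          rw [abs_mul, abs_mul, hs, abs_two, hss, abs_of_nonneg (by positivity : 0 ≤ t ^ 2)]
        have c4 : 2 * |μ| * t + t ^ 2 ≤ 2 * ((|h| + 2) * t) := by nlinarith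
        linarith
      have c5 : (e - e') ^ 2 ≤ |e ^ 2 - e' ^ 2| := by
        have e4 : e ^ 2 - e' ^ 2 = (e - e') * (e + e') := by ring
        rw [e4, abs_mul, ← sq_abs (e - e'), pow_two]
        apply mul_le_mul_of_nonneg_left _ (abs_nonneg _)
        rw [abs_of_nonneg (by positivity : 0 ≤ e + e'), abs_le]
        constructor <;> linarith
      have : (ρ / 4) ^ 2 = ρ ^ 2 / 8 / 2 := by ring
      rw [this]
      linarith
    have c6 : |max (|μ + s| / 2) (m / 2) - max (|h| / 2) (m / 2)| ≤ ρ / 4 := by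
      refine (abs_max_sub_max_le_max _ _ _ _).trans ?_
      rw [sub_self, abs_zero]
      apply max_le _ (by positivity)
      have e5 : |μ + s| / 2 - |h| / 2 = (|μ + s| - |h|) / 2 := by ring
      rw [e5, abs_div, abs_two]
      have c7 := abs_abs_sub_abs_le (μ + s) h
      have c8 : |μ + s - h| ≤ |μ - h| + |s| := by
        have e6 : μ + s - h = (μ - h) + s := by ring
        rw [e6]; exact abs_add_le _ _
      rw [hs] at c8
      linarith
    have e7 : e - max (|h| / 2) (m / 2) = (e - e') + (e' - max (|μ + s| / 2) (m / 2)) +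
        (max (|μ + s| / 2) (m / 2) - max (|h| / 2) (m / 2)) := by ring
    rw [e7]
    refine (abs_add_le _ _).trans ?_
    have := abs_add_le (e - e') (e' - max (|μ + s| / 2) (m / 2))
    linarith
  obtain ⟨R, F, hR0, hRb, hF, hfF, hc⟩ := key t (abs_of_pos ht0)
  obtain ⟨R', F', hR0', hRb', hF', hfF', hc'⟩ := key (-t) (by rw [abs_neg, abs_of_pos ht0])
  have u1 := hU F hF
  have u2 := hL F' (by
    intro e he
    exact hF' e he)
  have hRt : R * t ≤ ε := (mul_le_mul_of_nonneg_right (hRb.trans hb1) ht0.le).trans ht4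
  have hRt' : R' * t ≤ ε := (mul_le_mul_of_nonneg_right (hRb'.trans hb1) ht0.le).trans ht4
  have w1 : x ≤ 1 / 2 + R * μ / 4 + ε / 2 := by
    have h1 : t * x ≤ t * (1 / 2 + R * μ / 4 + ε / 2) := by
      have e8 : t * (1 / 2 + R * μ / 4 + ε / 2) =
        t / 2 + R / 8 * (2 * μ * t) + t * ε / 2 := by ring
      rw [e8]
      have e9 : R / 8 * (2 * μ * t + t ^ 2) = R / 8 * (2 * μ * t) + (R * t) * t / 8 := by ring
      rw [e9] at hfF
      have e10 : (R * t) * t ≤ ε * t := mul_le_mul_of_nonneg_right hRt ht0.le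
      linarith
    exact le_of_mul_le_mul_left h1 ht0
  have w2 : 1 / 2 + R' * μ / 4 - ε / 2 ≤ x := by
    have h1 : t * (1 / 2 + R' * μ / 4 - ε / 2) ≤ t * x := by
      have e8 : t * (1 / 2 + R' * μ / 4 - ε / 2) =
        t / 2 + R' / 8 * (2 * μ * t) - t * ε / 2 := by ring
      rw [e8]
      have e9 : R' / 8 * (2 * μ * -t + (-t) ^ 2) = -(R' / 8 * (2 * μ * t)) + (R' * t) * t / 8 := by
        ring
      rw [e9] at hfF'
      have e10 : (R' * t) * t ≤ ε * t := mul_le_mul_of_nonneg_right hRt' ht0.le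
      linarith
    exact le_of_mul_le_mul_left h1 ht0
  rw [abs_le] at hc hc' ⊢
  constructor <;> linarith

end Pool.Agent.TH268.TB
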