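import Pool.Agent.TH268.TB.Multi
import Pool.Agent.TH268.TB.MFRho

/-!
# Bose-Einstein condensation in the abstract model
-/

set_option autoImplicit false

open Finset BigOperators

namespace Pool.Agent.TH268.TB

open Pool.Agent.H11R2.BEC

theorem bec_abs (d : ℕ) (hd : 1 ≤ d) (β h ε m : ℝ) (hβ : 0 < β) (hε : 0 < ε) (hm : 0 ≤ m)
    (hm1 : m = Real.tanh (β * m / 2)) (hm2 : 0 < m ∨ β ≤ 2) :
    ∃ δ : ℝ, 0 < δ ∧ ∃ J₀ : ℕ, ∀ q : ℝ, 1 - δ ≤ q → q < 1 → ∀ β' μ : ℝ, |β' - β| ≤ δ →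
      |μ - h| ≤ δ → ∀ J ≥ J₀, ∀ (ψ : (Site d J → Bool) → WF (Site d J))
        (E lam : (Site d J → Bool) → ℝ), IsGibbs q μ β' ψ E lam →
        |∑ i, lam i * coh J (ψ i) - max 0 ((m ^ 2 - h ^ 2) / 4)| ≤ ε ∧
        |∑ i, lam i * rho (ψ i) - mfRho β h m| ≤ ε := by
  obtain ⟨δ1, hδ1, t1, ht1, ht1', H1⟩ := mf_stability β h (ε / 2) m hβ (by positivity) hm hm1 hm2
  obtain ⟨δ2, hδ2, t2, ht2, ht2', H2⟩ := mf_density β h ε m hβ hε hm hm1 hm2
  have hC0 : 0 ≤ Cd d := by unfold Cd; positivity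
  have hd0 : (1 : ℝ) ≤ d := by exact_mod_cast hd
  set B0 : ℝ := 82 + 12 * (|h| + 1) + 16 / β with hB0
  set C0 : ℝ := 12 * (2 + (|h| + 2)) + 18 + 16 / β with hC0def
  have hB0p : 0 < B0 := by rw [hB0]; positivity
  have hC0p : 0 < C0 := by rw [hC0def]; positivity
  set K : ℝ := 16 * d * (1 + Cd d) with hK
  have hK0 : 0 < K := by rw [hK]; positivity
  -- choice of the scale
  obtain ⟨k, hk⟩ : ∃ k : ℕ, 28 * B0 * (8 / 9 : ℝ) ^ k ≤ ε / 8 := by
    obtain ⟨k, hk⟩ := exists_pow_lt_of_lt_one (show 0 < ε / 8 / (28 * B0) by positivity)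
      (show (8 / 9 : ℝ) < 1 by norm_num)
    refine ⟨k, ?_⟩
    calc 28 * B0 * (8 / 9 : ℝ) ^ k ≤ 28 * B0 * (ε / 8 / (28 * B0)) := by gcongr
      _ = ε / 8 := by field_simp
  set δ0 : ℝ := min δ1 δ2 with hδ0
  have hδ0p : 0 < δ0 := lt_min hδ1 hδ2
  obtain ⟨n, hn⟩ : ∃ n : ℕ, C0 * (1 / 2 : ℝ) ^ n ≤ δ0 / 2 := by
    obtain ⟨n, hn⟩ := exists_pow_lt_of_lt_one (show 0 < δ0 / 2 / C0 by positivity)
      (show (1 / 2 : ℝ) < 1 by norm_num)
    refine ⟨n, ?_⟩
    calc C0 * (1 / 2 : ℝ) ^ n ≤ C0 * (δ0 / 2 / C0) := by gcongr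
      _ = δ0 / 2 := by field_simp
  set δ : ℝ := min δ0 (min (min (β / 2) (1 / 4)) (min (δ0 / (8 * C0))
    (min (ε / (8 * (2 * k + 1))) (ε / (8 * K))))) with hδ
  have hδp : 0 < δ := by
    rw [hδ]; positivity
  have g1 : δ ≤ δ0 := min_le_left _ _
  have g2 : δ ≤ β / 2 := (min_le_right _ _).trans ((min_le_left _ _).trans (min_le_left _ _))
  have g3 : δ ≤ 1 / 4 := (min_le_right _ _).trans ((min_le_left _ _).trans (min_le_right _ _))
  have g4 : δ ≤ δ0 / (8 * C0) :=
    (min_le_right _ _).trans ((min_le_right _ _).trans (min_le_left _ _))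
  have g5 : δ ≤ ε / (8 * (2 * k + 1)) :=
    (min_le_right _ _).trans ((min_le_right _ _).trans ((min_le_right _ _).trans (min_le_left _ _)))
  have g6 : δ ≤ ε / (8 * K) :=
    (min_le_right _ _).trans ((min_le_right _ _).trans ((min_le_right _ _).trans (min_le_right _ _)))
  refine ⟨δ, hδp, max (2 * k + 1) (2 * n), ?_⟩
  intro q hq hq1 β' μ hβ' hμ J hJ ψ E lam hG
  have hJ1 : 2 * k + 1 ≤ J := (le_max_left _ _).trans hJ
  have hJ2 : 2 * n ≤ J := (le_max_right _ _).trans hJ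
  have hq34 : 3 / 4 ≤ q := by linarith
  have hq0 : 0 ≤ q := by linarith
  have hβ'2 : β / 2 ≤ β' := by have := (abs_le.1 hβ').1; linarith
  have hβ'p : 0 < β' := by linarith
  have hinv : 8 / β' ≤ 16 / β := by
    rw [div_le_div_iff₀ hβ'p hβ]; linarith
  have hμh : |μ| ≤ |h| + 1 := by
    have h1 : |μ| ≤ |μ - h| + |h| := by
      have := abs_add_le (μ - h) h; simpa using this
    linarith
  -- the errors
  have hhalf : (1 / 2 : ℝ) ^ (J / 2) ≤ (1 / 2 : ℝ) ^ n :=
    pow_le_pow_of_le_one (by norm_num) (by norm_num) (by omega)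
  have herr : ∀ lm μ' : ℝ, 0 < lm → lm ≤ 2 → |μ'| ≤ |h| + 2 →
      (12 * (lm + |μ'|) + 9 * lm + 8 / β') * (4 * (1 - q) + (1 / 2 : ℝ) ^ (J / 2)) ≤ δ0 := by
    intro lm μ' h1 h2 h3
    have h4 : 12 * (lm + |μ'|) + 9 * lm + 8 / β' ≤ C0 := by rw [hC0def]; linarith
    have h5 : 0 ≤ 4 * (1 - q) + (1 / 2 : ℝ) ^ (J / 2) := by
      have : (0 : ℝ) ≤ (1 / 2 : ℝ) ^ (J / 2) := by positivity
      linarith
    have h6 : C0 * (4 * (1 - q)) ≤ δ0 / 2 := by
      have h7 : C0 * (4 * (1 - q)) ≤ C0 * (4 * (δ0 / (8 * C0))) := by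
        apply mul_le_mul_of_nonneg_left _ hC0p.le
        linarith
      calc _ ≤ _ := h7
        _ = δ0 / 2 := by field_simp; ring
    have h8 : C0 * (1 / 2 : ℝ) ^ (J / 2) ≤ δ0 / 2 :=
      (mul_le_mul_of_nonneg_left hhalf hC0p.le).trans hn
    calc _ ≤ C0 * (4 * (1 - q) + (1 / 2 : ℝ) ^ (J / 2)) := mul_le_mul_of_nonneg_right h4 h5
      _ = C0 * (4 * (1 - q)) + C0 * (1 / 2 : ℝ) ^ (J / 2) := by ring
      _ ≤ δ0 := by linarith
  set a : ℕ → ℝ := fun s => ∑ i, lam i * coh s (ψ i) with ha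
  set x : ℝ := ∑ s ∈ range (J + 1), cf q J s * a s with hx
  set rh : ℝ := ∑ i, lam i * rho (ψ i) with hrh
  set f : ℝ := - ((1 / β') * (Real.log (∑ m, Real.exp (-(β' * E m))) / 2 ^ (d * J))) with hf
  have hup : ∀ e, |μ| / 2 ≤ e → f ≤ mfG β' μ 1 e := fun e he =>
    mf_upper hq0 hq1.le hβ'p hG.onb hG.en e he
  have hlow : ∀ lm μ' : ℝ, 0 < lm → lm ≤ 2 → |μ'| ≤ |h| + 2 → ∀ F : ℝ,
      (∀ e, |μ'| / 2 ≤ e → F ≤ mfG β' μ' lm e) →
      F - δ0 ≤ f + (1 - lm) * x - (μ' - μ) * rh := by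
    intro lm μ' h1 h2 h3 F hF
    have h4 := lowerH hd hq0 hq1.le hβ'p hG h1 F hF
    have h5 := herr lm μ' h1 h2 h3
    have h6 : F - δ0 ≤ F - (12 * (lm + |μ'|) + 9 * lm + 8 / β') *
        (4 * (1 - q) + (1 / 2 : ℝ) ^ (J / 2)) := by linarith
    exact h6.trans h4
  have hxn : |x - max 0 ((m ^ 2 - h ^ 2) / 4)| ≤ ε / 2 := by
    refine H1 β' μ f x hβ'p (hβ'.trans (g1.trans (min_le_left _ _)))
      (hμ.trans (g1.trans (min_le_left _ _))) hup ?_ ?_
    · intro F hF
      have h1 := hlow (1 - t1) μ (by linarith) (by linarith) (by linarith) F hF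
      have h2 : δ0 ≤ δ1 := min_le_left _ _
      have h3 : (1 - (1 - t1)) * x = t1 * x := by ring
      rw [h3] at h1
      linarith
    · intro F hF
      have h1 := hlow (1 + t1) μ (by linarith) (by linarith) (by linarith) F hF
      have h2 : δ0 ≤ δ1 := min_le_left _ _
      have h3 : (1 - (1 + t1)) * x = - (t1 * x) := by ring
      rw [h3] at h1
      linarith
  constructor
  · -- the condensate
    have hanti := hG.anti'
    have haJx : a J ≤ x := by
      have h1 : ∑ s ∈ range (J + 1), cf q J s * a J ≤ x :=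
        Finset.sum_le_sum fun s hs => mul_le_mul_of_nonneg_left
          (hanti s J (by have := Finset.mem_range.1 hs; omega) le_rfl) (cf_nonneg hq0 hq1.le _ _)
      rw [← Finset.sum_mul, sum_cf, one_mul] at h1
      exact h1
    have hxa : x ≤ (1 - q ^ (2 * k + 1)) + a (2 * k) := by
      have hsplit : x ≤ ∑ s ∈ range (J + 1), cf q J s *
          ((1 - (if s < 2 * k + 1 then 0 else 1)) + a (2 * k) * 1) := by
        apply Finset.sum_le_sum
        intro s hs
        apply mul_le_mul_of_nonneg_left _ (cf_nonneg hq0 hq1.le _ _)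
        have hsJ : s ≤ J := by have := Finset.mem_range.1 hs; omega
        have h0 : 0 ≤ a (2 * k) := hG.coh_nonneg' (2 * k)
        split_ifs with hc
        · have := hG.coh_le_one s hsJ
          change a s ≤ 1 at this
          linarith
        · have := hanti (2 * k) s (by omega) hsJ
          change a s ≤ a (2 * k) at this
          linarith
      refine hsplit.trans (le_of_eq ?_)
      have h1 := sum_cf_tail (J := J) (q := q) (k := 2 * k + 1) (by omega)
      have e1 : ∀ s, cf q J s * ((1 - (if s < 2 * k + 1 then (0 : ℝ) else 1)) + a (2 * k) * 1) =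
          cf q J s * (1 + a (2 * k)) - cf q J s * (if s < 2 * k + 1 then (0 : ℝ) else 1) :=
        fun s => by ring
      rw [Finset.sum_congr rfl fun s _ => e1 s, Finset.sum_sub_distrib, ← Finset.sum_mul, sum_cf, h1]
      ring
    have hms := multiT hd hq34 hq1 hβ'p hG k (by omega)
    have hqm : 1 - q ^ (2 * k + 1) ≤ ε / 8 := by
      have h1 := one_add_mul_le_pow (show -2 ≤ q - 1 by linarith) (2 * k + 1)
      have h2 : 1 + (q - 1) = q := by ring
      rw [h2] at h1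
      push_cast at h1
      have h3 : (2 * (k : ℝ) + 1) * (1 - q) ≤ ε / 8 := by
        calc (2 * (k : ℝ) + 1) * (1 - q) ≤ (2 * k + 1) * (ε / (8 * (2 * k + 1))) := by
              apply mul_le_mul_of_nonneg_left (by linarith) (by positivity)
          _ = ε / 8 := by field_simp
      have h4 : (2 * (k : ℝ) + 1) * (q - 1) = - ((2 * (k : ℝ) + 1) * (1 - q)) := by ring
      rw [h4] at h1
      linarith only [h1, h3]
    have hKq : K * (1 - q) ≤ ε / 8 := by
      calc K * (1 - q) ≤ K * (ε / (8 * K)) := by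
            apply mul_le_mul_of_nonneg_left (by linarith) hK0.le
        _ = ε / 8 := by field_simp
    have h0J : a 0 - a J ≤ 1 := by
      have h1 := hG.coh_le_one 0 (Nat.zero_le _)
      have h2 := hG.coh_nonneg' J
      change a 0 ≤ 1 at h1
      change 0 ≤ a J at h2
      linarith
    have h0J' : 0 ≤ a 0 - a J := by
      have := hanti 0 J (Nat.zero_le _) le_rfl
      change a J ≤ a 0 at this
      linarith
    have h28 : 28 * (82 + 12 * |μ| + 8 / β') * (8 / 9 : ℝ) ^ k ≤ ε / 8 := by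
      refine le_trans ?_ hk
      apply mul_le_mul_of_nonneg_right _ (by positivity)
      rw [hB0]
      linarith
    change a (2 * k) - a J ≤ K * (1 - q) * (a 0 - a J) + 28 * (82 + 12 * |μ| + 8 / β') * (8 / 9) ^ k
      at hms
    have hKa : K * (1 - q) * (a 0 - a J) ≤ ε / 8 := by
      have h1 : 0 ≤ K * (1 - q) := mul_nonneg hK0.le (by linarith)
      calc _ ≤ K * (1 - q) * 1 := mul_le_mul_of_nonneg_left h0J h1
        _ ≤ _ := by linarith
    have hxn' := abs_le.1 hxn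
    change |a J - max 0 ((m ^ 2 - h ^ 2) / 4)| ≤ ε
    obtain ⟨hn1, hn2⟩ := hxn'
    rw [abs_le]
    constructor
    · linarith only [hn1, hxa, hqm, hms, hKa, h28, hε]
    · linarith only [hn2, haJx, hε]
  · -- the density
    refine H2 β' μ f rh hβ'p (hβ'.trans (g1.trans (min_le_right _ _)))
      (hμ.trans (g1.trans (min_le_right _ _))) hup ?_ ?_
    · intro F hF
      have hμt : |μ + t2| ≤ |h| + 2 := by
        have := abs_add_le μ t2
        rw [abs_of_pos ht2] at this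
        linarith
      have h1 := hlow 1 (μ + t2) one_pos (by norm_num) hμt F hF
      have h2 : δ0 ≤ δ2 := min_le_right _ _
      have h3 : (1 - (1 : ℝ)) * x = 0 := by ring
      have h4 : (μ + t2 - μ) * rh = t2 * rh := by ring
      rw [h3, h4] at h1
      linarith
    · intro F hF
      have hμt : |μ - t2| ≤ |h| + 2 := by
        have := abs_sub μ t2
        rw [abs_of_pos ht2] at this
        linarith
      have h1 := hlow 1 (μ - t2) one_pos (by norm_num) hμt F hF
      have h2 : δ0 ≤ δ2 := min_le_right _ _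
      have h3 : (1 - (1 : ℝ)) * x = 0 := by ring
      have h4 : (μ - t2 - μ) * rh = - (t2 * rh) := by ring
      rw [h3, h4] at h1
      linarith

end Pool.Agent.TH268.TB
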