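import Mathlib

/-!
# Basic tools: the log-sum inequality, orthonormal bases, product operators
-/

set_option autoImplicit false

open Finset BigOperators

namespace Pool.Agent.TH268.TB

/-- the log-sum inequality -/
theorem jensen_log {T : Type} [Fintype T] (p a b : T → ℝ) (hp : ∀ t, 0 ≤ p t) (ha : ∀ t, 0 ≤ a t)
    (hb : ∀ t, 0 ≤ b t) (h1 : ∑ t, a t * p t = 1) (h0 : ∀ t, b t = 0 → a t * p t = 0) :
    ∑ t, a t * p t * (Real.log (b t) - Real.log (a t)) ≤ Real.log (∑ t, b t * p t) := by
  set B : ℝ := ∑ t, b t * p t with hB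
  have hBnn : 0 ≤ B := Finset.sum_nonneg fun t _ => mul_nonneg (hb t) (hp t)
  have hBpos : 0 < B := by
    rcases hBnn.eq_or_lt with h | h
    · exfalso
      have h2 := (Finset.sum_eq_zero_iff_of_nonneg (fun t _ => mul_nonneg (hb t) (hp t))).1 h.symm
      have h3 : ∑ t, a t * p t = 0 := by
        apply Finset.sum_eq_zero
        intro t ht
        rcases mul_eq_zero.1 (h2 t ht) with h4 | h4
        · exact h0 t h4
        · rw [h4, mul_zero]
      rw [h3] at h1
      norm_num at h1
    · exact h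
  have key : ∀ t, a t * p t * (Real.log (b t) - Real.log (a t)) - a t * p t * Real.log B ≤
      b t * p t / B - a t * p t := by
    intro t
    by_cases hat : a t * p t = 0
    · rw [hat]
      simp only [zero_mul, sub_zero]
      exact div_nonneg (mul_nonneg (hb t) (hp t)) hBpos.le
    · have hbt : b t ≠ 0 := fun h => hat (h0 t h)
      have ha' : 0 < a t := lt_of_le_of_ne (ha t) (fun h => hat (by rw [← h, zero_mul]))
      have hp' : 0 < p t := lt_of_le_of_ne (hp t) (fun h => hat (by rw [← h, mul_zero]))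
      have hb' : 0 < b t := lt_of_le_of_ne (hb t) (Ne.symm hbt)
      have h2 : Real.log (b t) - Real.log (a t) - Real.log B = Real.log (b t / (a t * B)) := by
        rw [Real.log_div hb'.ne' (mul_pos ha' hBpos).ne', Real.log_mul ha'.ne' hBpos.ne']
        ring
      have h3 : Real.log (b t / (a t * B)) ≤ b t / (a t * B) - 1 :=
        Real.log_le_sub_one_of_pos (by positivity)
      have h4 : a t * p t * (Real.log (b t) - Real.log (a t)) - a t * p t * Real.log B =
          a t * p t * Real.log (b t / (a t * B)) := by rw [← h2]; ring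
      rw [h4]
      calc a t * p t * Real.log (b t / (a t * B)) ≤ a t * p t * (b t / (a t * B) - 1) :=
            mul_le_mul_of_nonneg_left h3 (by positivity)
        _ = b t * p t / B - a t * p t := by field_simp
  have h5 := Finset.sum_le_sum (s := (univ : Finset T)) fun t _ => key t
  rw [Finset.sum_sub_distrib, Finset.sum_sub_distrib, ← Finset.sum_mul, ← Finset.sum_div, h1, ← hB,
    div_self hBpos.ne'] at h5
  linarith

section gen
variable {X M : Type} [Fintype X] [Fintype M]

/-- the inner product -/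
noncomputable def gip (u v : X → ℂ) : ℂ := ∑ x, (starRingEnd ℂ) (u x) * v x

/-- the squared norm -/
noncomputable def gns (u : X → ℂ) : ℝ := ∑ x, ‖u x‖ ^ 2

/-- orthonormal basis -/
structure ONB (ψ : M → X → ℂ) : Prop where
  norm : ∀ m, gns (ψ m) = 1
  pars : ∀ v, ∑ m, ‖gip (ψ m) v‖ ^ 2 = gns v

theorem gns_nonneg (u : X → ℂ) : 0 ≤ gns u := Finset.sum_nonneg fun _ _ => by positivity

theorem gip_conj (u v : X → ℂ) : (starRingEnd ℂ) (gip u v) = gip v u := by
  unfold gip
  rw [map_sum]
  refine Finset.sum_congr rfl fun x _ => ?_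
  rw [map_mul, Complex.conj_conj, mul_comm]

theorem gip_norm_comm (u v : X → ℂ) : ‖gip u v‖ = ‖gip v u‖ := by
  rw [← gip_conj, Complex.norm_conj]

theorem gip_self (u : X → ℂ) : gip u u = ((gns u : ℝ) : ℂ) := by
  unfold gip gns
  push_cast
  exact Finset.sum_congr rfl fun x _ => Complex.conj_mul' _

theorem ONB.pars' {ψ : M → X → ℂ} (h : ONB ψ) (v : X → ℂ) : ∑ m, ‖gip v (ψ m)‖ ^ 2 = gns v := by
  rw [← h.pars v]
  exact Finset.sum_congr rfl fun m _ => by rw [gip_norm_comm]

theorem ONB.orth [DecidableEq M] {ψ : M → X → ℂ} (h : ONB ψ) (m m' : M) :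
    ‖gip (ψ m') (ψ m)‖ ^ 2 = if m' = m then 1 else 0 := by
  have h1 := h.pars (ψ m)
  rw [h.norm m, ← Finset.add_sum_erase univ _ (Finset.mem_univ m), gip_self, h.norm m] at h1
  simp only [Complex.ofReal_one, norm_one, one_pow, add_eq_left] at h1
  split_ifs with hm
  · rw [hm, gip_self, h.norm m]; simp
  · exact (Finset.sum_eq_zero_iff_of_nonneg (fun _ _ => by positivity)).1 h1 m'
      (Finset.mem_erase.2 ⟨hm, Finset.mem_univ _⟩)

end gen

section tt
variable {I X : Type} [Fintype I] [DecidableEq I] [Fintype X] [DecidableEq X]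

/-- the product operator -/
noncomputable def tt (U : I → Matrix X X ℂ) (v : (I → X) → ℂ) : (I → X) → ℂ :=
  fun K => ∑ ξ : I → X, (∏ i, U i (K i) (ξ i)) * v ξ

/-- the operator of one factor -/
noncomputable def top (i : I) (A : Matrix X X ℂ) (v : (I → X) → ℂ) : (I → X) → ℂ :=
  fun K => ∑ y, A (K i) y * v (Function.update K i y)

theorem tt_tt (U V : I → Matrix X X ℂ) (φ : (I → X) → ℂ) :
    tt U (tt V φ) = tt (fun x => U x * V x) φ := by
  funext η
  unfold tt
  have h1 : ∀ ξ : I → X, (∏ x, (U x * V x) (η x) (ξ x)) =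
      ∑ ζ : I → X, (∏ x, U x (η x) (ζ x)) * (∏ x, V x (ζ x) (ξ x)) := by
    intro ξ
    simp_rw [Matrix.mul_apply]
    rw [Finset.prod_univ_sum, Fintype.piFinset_univ]
    refine Finset.sum_congr rfl fun ζ _ => ?_
    rw [Finset.prod_mul_distrib]
  simp_rw [h1, Finset.mul_sum, Finset.sum_mul]
  rw [Finset.sum_comm]
  refine Finset.sum_congr rfl fun ξ _ => Finset.sum_congr rfl fun ζ _ => ?_
  ring

theorem top_eq (x : I) (a : Matrix X X ℂ) (φ : (I → X) → ℂ) :
    top x a φ = tt (Function.update (fun _ => 1) x a) φ := by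
  funext η
  unfold top tt
  refine Fintype.sum_of_injective (fun b => Function.update η x b) (Function.update_injective η x)
    _ _ ?_ ?_
  · intro ζ hζ
    have : ∃ y, y ≠ x ∧ ζ y ≠ η y := by
      by_contra hcon
      push Not at hcon
      apply hζ
      refine ⟨ζ x, ?_⟩
      funext y
      by_cases hy : y = x
      · subst hy; simp
      · simp [hy, hcon y hy]
    obtain ⟨y, hy, hne⟩ := this
    rw [Finset.prod_eq_zero (Finset.mem_univ y), zero_mul]
    simp [hy, Matrix.one_apply, Ne.symm hne]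
  · intro b
    congr 1
    rw [Finset.prod_eq_single x]
    · simp
    · intro y _ hy
      simp [hy]
    · simp

theorem tt_one (φ : (I → X) → ℂ) : tt (fun _ => 1) φ = φ := by
  funext η
  unfold tt
  rw [Finset.sum_eq_single η]
  · simp
  · intro ζ _ hζ
    have : ∃ y, η y ≠ ζ y := by
      by_contra hcon
      push Not at hcon
      exact hζ (funext hcon).symm
    obtain ⟨y, hy⟩ := this
    rw [Finset.prod_eq_zero (Finset.mem_univ y), zero_mul]
    simp [Matrix.one_apply, hy]
  · simp

/-- the partial product -/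
noncomputable def part (U : I → Matrix X X ℂ) (S : Finset I) : I → Matrix X X ℂ :=
  fun i => if i ∈ S then U i else 1

theorem tt_part_insert (U : I → Matrix X X ℂ) (S : Finset I) (i : I) (hi : i ∉ S)
    (v : (I → X) → ℂ) : tt (part U (insert i S)) v = top i (U i) (tt (part U S) v) := by
  rw [top_eq, tt_tt]
  congr 1
  funext y
  unfold part
  by_cases hy : y = i
  · subst hy
    simp [hi]
  · simp [hy]

theorem tt_part_insert' (U : I → Matrix X X ℂ) (S : Finset I) (i : I) (hi : i ∉ S)
    (v : (I → X) → ℂ) : tt (part U (insert i S)) v = tt (part U S) (top i (U i) v) := by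
  rw [top_eq, tt_tt]
  congr 1
  funext y
  unfold part
  by_cases hy : y = i
  · subst hy
    simp [hi]
  · simp [hy]

/-- fiber sums -/
theorem sum_fiber (i : I) (F : (I → X) → ℝ) :
    ∑ K : I → X, ∑ y, F (Function.update K i y) = Fintype.card X * ∑ K : I → X, F K := by
  have e : ((I → X) × X) ≃ ((I → X) × X) :=
    { toFun := fun p => (Function.update p.1 i p.2, p.1 i)
      invFun := fun p => (Function.update p.1 i p.2, p.1 i)
      left_inv := by rintro ⟨K, y⟩; simp
      right_inv := by rintro ⟨K, y⟩; simp }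
  have h1 : ∑ K : I → X, ∑ y, F (Function.update K i y) =
      ∑ p : (I → X) × X, F (Function.update p.1 i p.2) := by
    rw [Fintype.sum_prod_type]
  have h2 : ∑ p : (I → X) × X, F (Function.update p.1 i p.2) = ∑ p : (I → X) × X, F p.1 := by
    refine Fintype.sum_equiv
      { toFun := fun p : (I → X) × X => (Function.update p.1 i p.2, p.1 i)
        invFun := fun p => (Function.update p.1 i p.2, p.1 i)
        left_inv := by rintro ⟨K, y⟩; simp
        right_inv := by rintro ⟨K, y⟩; simp } _ _ fun p => rfl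
  rw [h1, h2, Fintype.sum_prod_type]
  simp only [Finset.sum_const, Finset.card_univ, nsmul_eq_mul]
  rw [← Finset.mul_sum]

theorem top_iso [Nonempty X] (i : I) (A : Matrix X X ℂ)
    (hA : ∀ w : X → ℂ, ∑ k, ‖∑ ζ, A k ζ * w ζ‖ ^ 2 = ∑ ζ, ‖w ζ‖ ^ 2)
    (g : (I → X) → ℝ) (hg : ∀ K y, g (Function.update K i y) = g K) (w : (I → X) → ℂ) :
    ∑ K, g K * ‖top i A w K‖ ^ 2 = ∑ K, g K * ‖w K‖ ^ 2 := by
  have hc : (0 : ℝ) < Fintype.card X := by exact_mod_cast Fintype.card_pos
  have h1 := sum_fiber i (fun K => g K * ‖top i A w K‖ ^ 2)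
  have h2 := sum_fiber i (fun K => g K * ‖w K‖ ^ 2)
  have h3 : ∀ K : I → X, ∑ y, g (Function.update K i y) * ‖top i A w (Function.update K i y)‖ ^ 2 =
      ∑ y, g (Function.update K i y) * ‖w (Function.update K i y)‖ ^ 2 := by
    intro K
    simp only [hg, ← Finset.mul_sum]
    congr 1
    rw [← hA fun ζ => w (Function.update K i ζ)]
    refine Finset.sum_congr rfl fun y _ => ?_
    unfold top
    simp
  rw [Finset.sum_congr rfl fun K _ => h3 K, h2] at h1
  exact (mul_left_cancel₀ hc.ne' h1).symm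

theorem top_contr [Nonempty X] (i : I) (A : Matrix X X ℂ)
    (hA : ∀ w : X → ℂ, ∑ k, ‖∑ ζ, A k ζ * w ζ‖ ^ 2 ≤ ∑ ζ, ‖w ζ‖ ^ 2) (w : (I → X) → ℂ) :
    gns (top i A w) ≤ gns w := by
  have hc : (0 : ℝ) < Fintype.card X := by exact_mod_cast Fintype.card_pos
  have h1 := sum_fiber i (fun K => ‖top i A w K‖ ^ 2)
  have h2 := sum_fiber i (fun K => ‖w K‖ ^ 2)
  have h3 : ∀ K : I → X, ∑ y, ‖top i A w (Function.update K i y)‖ ^ 2 ≤
      ∑ y, ‖w (Function.update K i y)‖ ^ 2 := by
    intro K
    refine le_trans (le_of_eq ?_) (hA fun ζ => w (Function.update K i ζ))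
    refine Finset.sum_congr rfl fun y _ => ?_
    unfold top
    simp
  have h4 := Finset.sum_le_sum (s := (univ : Finset (I → X))) fun K _ => h3 K
  rw [h1, h2] at h4
  exact le_of_mul_le_mul_left h4 hc

/-- products of contractions are contractions -/
theorem tt_contr [Nonempty X] (U : I → Matrix X X ℂ)
    (hU : ∀ i, ∀ w : X → ℂ, ∑ k, ‖∑ ζ, U i k ζ * w ζ‖ ^ 2 ≤ ∑ ζ, ‖w ζ‖ ^ 2) (v : (I → X) → ℂ) :
    gns (tt U v) ≤ gns v := by
  have key : ∀ S : Finset I, gns (tt (part U S) v) ≤ gns v := by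
    intro S
    induction S using Finset.induction_on with
    | empty =>
      have : part U ∅ = fun _ => (1 : Matrix X X ℂ) := by funext i; simp [part]
      rw [this, tt_one]
    | insert i S hi ih =>
      rw [tt_part_insert U S i hi]
      exact (top_contr i (U i) (hU i) _).trans ih
  have h := key univ
  have : part U univ = U := by funext i; simp [part]
  rwa [this] at h

theorem tt_part_iso [Nonempty X] (U : I → Matrix X X ℂ) (S : Finset I)
    (hU : ∀ i ∈ S, ∀ w : X → ℂ, ∑ k, ‖∑ ζ, U i k ζ * w ζ‖ ^ 2 = ∑ ζ, ‖w ζ‖ ^ 2)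
    (g : (I → X) → ℝ) (hg : ∀ i ∈ S, ∀ K y, g (Function.update K i y) = g K) (v : (I → X) → ℂ) :
    ∑ K, g K * ‖tt (part U S) v K‖ ^ 2 = ∑ K, g K * ‖v K‖ ^ 2 := by
  induction S using Finset.induction_on with
  | empty =>
    have : part U ∅ = fun _ => (1 : Matrix X X ℂ) := by funext i; simp [part]
    rw [this, tt_one]
  | insert i S hi ih =>
    rw [tt_part_insert U S i hi]
    rw [top_iso i (U i) (hU i (Finset.mem_insert_self _ _)) g (hg i (Finset.mem_insert_self _ _))]
    exact ih (fun i' hi' => hU i' (Finset.mem_insert_of_mem hi'))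
      (fun i' hi' => hg i' (Finset.mem_insert_of_mem hi'))

/-- products of isometries are isometries -/
theorem tt_iso [Nonempty X] (U : I → Matrix X X ℂ)
    (hU : ∀ i, ∀ w : X → ℂ, ∑ k, ‖∑ ζ, U i k ζ * w ζ‖ ^ 2 = ∑ ζ, ‖w ζ‖ ^ 2) (v : (I → X) → ℂ) :
    gns (tt U v) = gns v := by
  have h := tt_part_iso U univ (fun i _ => hU i) (fun _ => 1) (fun _ _ _ _ => rfl) v
  have h2 : part U univ = U := by funext i; simp [part]
  rw [h2] at h
  simpa [gns] using h

/-- the marginal of a product measurement -/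
theorem tt_marg [Nonempty X] (U : I → Matrix X X ℂ)
    (hU : ∀ i, ∀ w : X → ℂ, ∑ k, ‖∑ ζ, U i k ζ * w ζ‖ ^ 2 = ∑ ζ, ‖w ζ‖ ^ 2) (i : I) (k : X)
    (v : (I → X) → ℂ) :
    (Fintype.card X : ℝ) * ∑ K : I → X, (if K i = k then ‖tt U v K‖ ^ 2 else 0) =
      ∑ K : I → X, ‖∑ ζ, U i k ζ * v (Function.update K i ζ)‖ ^ 2 := by
  have h2 : insert i ((univ : Finset I).erase i) = univ := Finset.insert_erase (Finset.mem_univ i)
  have h3 : U = part U (insert i ((univ : Finset I).erase i)) := by
    rw [h2]; funext i; simp [part]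
  have h4 : tt U v = tt (part U ((univ : Finset I).erase i)) (top i (U i) v) := by
    conv_lhs => rw [h3]
    exact tt_part_insert' U _ i (Finset.notMem_erase _ _) v
  have h5 := tt_part_iso U ((univ : Finset I).erase i) (fun i' _ => hU i')
    (fun K => if K i = k then (1 : ℝ) else 0) (by
      intro i' hi' K y
      have : i ≠ i' := fun h => (Finset.ne_of_mem_erase hi') h.symm
      simp [Function.update_of_ne this]) (top i (U i) v)
  rw [← h4] at h5
  have h6 : ∑ K : I → X, (if K i = k then ‖tt U v K‖ ^ 2 else 0) =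
      ∑ K : I → X, (if K i = k then (1 : ℝ) else 0) * ‖tt U v K‖ ^ 2 :=
    Finset.sum_congr rfl fun K _ => by split_ifs <;> simp
  rw [h6, h5]
  have h7 := sum_fiber i (fun K : I → X => (if K i = k then (1 : ℝ) else 0) * ‖top i (U i) v K‖ ^ 2)
  rw [← h7]
  refine Finset.sum_congr rfl fun K _ => ?_
  rw [Finset.sum_eq_single k]
  · unfold top
    simp
  · intro y _ hy
    simp [hy]
  · intro h
    exact absurd (Finset.mem_univ _) h

end tt

end Pool.Agent.TH268.TB
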