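import Pool.Agent.TH268.TB.Step1

/-!
# The key inequality at positive temperature
-/

set_option autoImplicit false

open Finset BigOperators

namespace Pool.Agent.TH268.TB

open Pool.Agent.H11R2.BEC Pool.Agent.H11R2.BEC.T2c

section

variable {d J j : ℕ}

/-- the average over the positions of the cube, for one vector -/
theorem avg_w (q μ θ : ℝ) (ψ : WF (Site d J)) :
    ∑ w : Site d J, (- nsq (av j w ψ) - ∑ s ∈ range j, cf q J s * ((1 / (2 : ℝ) ^ (d * j)) *
        ∑ z ∈ inn j s, ((1 - θ) * nsq (fun η => av s (emb w z) ψ η - av j w ψ η)))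
        - μ * ((1 / (2 : ℝ) ^ (d * j)) * ∑ x : Site d j, pd ψ (emb w x) (emb w x))) =
      2 ^ (d * J) * (- coh j ψ - (1 - θ) * ∑ s ∈ range j, cf q J s * us s j ψ - μ * rho ψ) := by
  have hV0 : (0 : ℝ) < 2 ^ (d * J) := by positivity
  have hM0 : (0 : ℝ) < 2 ^ (d * j) := by positivity
  rw [Finset.sum_sub_distrib, Finset.sum_sub_distrib, Finset.sum_neg_distrib, ← Finset.mul_sum]
  have e1 : ∑ w : Site d J, nsq (av j w ψ) = 2 ^ (d * J) * coh j ψ := by
    unfold coh; field_simp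
  have e6 : ∑ w : Site d J, (1 / (2 : ℝ) ^ (d * j)) * ∑ x : Site d j, pd ψ (emb w x) (emb w x) =
      2 ^ (d * J) * rho ψ := by
    rw [← Finset.mul_sum, Finset.sum_comm]
    rw [Finset.sum_congr rfl fun (x : Site d j) _ => ki_shift (fun w => pd ψ w w) x]
    rw [Finset.sum_const, Finset.card_univ, nsmul_eq_mul, ki_card_site]
    unfold rho
    field_simp
  have e3 : ∑ w : Site d J, ∑ s ∈ range j, cf q J s * ((1 / (2 : ℝ) ^ (d * j)) *
        ∑ z ∈ inn j s, ((1 - θ) * nsq (fun η => av s (emb w z) ψ η - av j w ψ η))) =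
      2 ^ (d * J) * ((1 - θ) * ∑ s ∈ range j, cf q J s * us s j ψ) := by
    rw [Finset.sum_comm, Finset.mul_sum, Finset.mul_sum]
    refine Finset.sum_congr rfl fun s _ => ?_
    rw [← Finset.mul_sum]
    have f1 : ∑ w : Site d J, (1 / (2 : ℝ) ^ (d * j)) *
        ∑ z ∈ inn j s, ((1 - θ) * nsq (fun η => av s (emb w z) ψ η - av j w ψ η)) =
        2 ^ (d * J) * ((1 - θ) * us s j ψ) := by
      rw [← Finset.mul_sum, Finset.sum_comm]
      simp only [← Finset.mul_sum]
      unfold us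
      simp only [← Finset.mul_sum]
      field_simp
    rw [f1]
    ring
  rw [e1, e3, e6]
  ring

/-- the sum over the spectral family of a marginal -/
theorem sum_rhs2 (hj : j < J) {q μ θ κ v : ℝ} (hq0 : 0 ≤ q) (hq1 : q ≤ 1) (hκ : 0 ≤ κ)
    (hv : 0 ≤ v) (hθ : 0 < θ) (hθ1 : θ ≤ 1)
    {lam : (Site d J → Bool) → ℝ} {ψ : (Site d J → Bool) → WF (Site d J)} (hψ : ONB ψ)
    (hlam1 : ∑ m, lam m = 1)
    {w : Site d J} {φ : (Site d j → Bool) → WF (Site d j)} {r : (Site d j → Bool) → ℝ}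
    (hM : Marg lam ψ w φ r) :
    ∑ k, r k * rhs2 q μ θ κ v J (φ k) ≤
      ∑ m, lam m * (- nsq (av j w (ψ m)) - ∑ s ∈ range j, cf q J s * ((1 / (2 : ℝ) ^ (d * j)) *
        ∑ z ∈ inn j s, ((1 - θ) * nsq (fun η => av s (emb w z) (ψ m) η - av j w (ψ m) η)))
        - μ * ((1 / (2 : ℝ) ^ (d * j)) * ∑ x : Site d j, pd (ψ m) (emb w x) (emb w x)))
      + (κ + v + 4 * κ + v / θ + |μ| * κ) := by
  have hr1 : ∑ k, r k = 1 := hM.total hj.le hψ hlam1
  have hφ1 : ∀ k, nsq (φ k) = 1 := fun k => hM.onb.norm k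
  set M : ℝ := (2 : ℝ) ^ (d * j) with hMdef
  have hM0 : 0 < M := by positivity
  set c0 : ℝ := (1 - θ) * (4 * κ) + v / θ with hc0
  have hc00 : 0 ≤ c0 := by
    have : 0 ≤ 1 - θ := by linarith
    positivity
  have hk : ∀ k, rhs2 q μ θ κ v J (φ k) = - nsq (av j 0 (φ k)) -
      ∑ s ∈ range j, cf q J s * ((1 / M) * ∑ z ∈ inn j s,
        ((1 - θ) * nsq (fun η => av s z (φ k) η - av j 0 (φ k) η))) - μ * rho (φ k) +
      (κ + v + ∑ s ∈ range j, cf q J s * ((1 / M) * ∑ z ∈ (inn j s : Finset (Site d j)), c0) +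
        |μ| * κ) := by
    intro k
    unfold rhs2
    rw [hφ1 k, ← hMdef]
    have f1 : ∑ s ∈ range j, cf q J s * ((1 / M) * ∑ z ∈ inn j s,
          ((1 - θ) * (nsq (fun η => av s z (φ k) η - av j 0 (φ k) η) - 4 * κ * 1)
            - (v * 1) / θ)) =
        ∑ s ∈ range j, cf q J s * ((1 / M) * ∑ z ∈ inn j s,
        ((1 - θ) * nsq (fun η => av s z (φ k) η - av j 0 (φ k) η))) -
        ∑ s ∈ range j, cf q J s * ((1 / M) * ∑ z ∈ (inn j s : Finset (Site d j)), c0) := by
      rw [← Finset.sum_sub_distrib]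
      refine Finset.sum_congr rfl fun s _ => ?_
      rw [← mul_sub, ← mul_sub, ← Finset.sum_sub_distrib]
      congr 2
      refine Finset.sum_congr rfl fun z _ => ?_
      rw [hc0]
      ring
    rw [f1]
    ring
  simp only [hk, mul_add]
  have hconst : ∑ s ∈ range j, cf q J s * ((1 / M) * ∑ z ∈ (inn j s : Finset (Site d j)), c0) ≤
      4 * κ + v / θ := by
    have g1 : ∀ s ∈ range j, cf q J s * ((1 / M) * ∑ z ∈ (inn j s : Finset (Site d j)), c0) ≤
        cf q J s * c0 := by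
      intro s _
      refine mul_le_mul_of_nonneg_left ?_ (ki_cf_nonneg hq0 hq1 J s)
      rw [Finset.sum_const, nsmul_eq_mul, ← mul_assoc]
      have g2 : 1 / M * ((inn j s : Finset (Site d j)).card : ℝ) ≤ 1 := by
        rw [one_div, inv_mul_eq_div, div_le_one hM0, hMdef]; exact ki_inn_card d j s
      calc _ ≤ 1 * c0 := mul_le_mul_of_nonneg_right g2 hc00
        _ = c0 := one_mul _
    refine (Finset.sum_le_sum g1).trans ?_
    rw [← Finset.sum_mul, ki_cf_partial q J j hj.le]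
    have h1 : 0 ≤ q ^ j := by positivity
    have h2 : (1 - q ^ j) * c0 ≤ c0 := by nlinarith [mul_nonneg h1 hc00]
    refine h2.trans ?_
    rw [hc0]
    have : 0 ≤ θ * κ := by positivity
    nlinarith
  rw [Finset.sum_add_distrib, Finset.sum_add_distrib, Finset.sum_add_distrib,
    Finset.sum_add_distrib, ← Finset.sum_mul, ← Finset.sum_mul, ← Finset.sum_mul, ← Finset.sum_mul,
    hr1]
  -- the transfer
  have ht : ∑ k, r k * (- nsq (av j 0 (φ k)) -
      ∑ s ∈ range j, cf q J s * ((1 / M) * ∑ z ∈ inn j s,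
        ((1 - θ) * nsq (fun η => av s z (φ k) η - av j 0 (φ k) η))) - μ * rho (φ k)) =
      ∑ m, lam m * (- nsq (av j w (ψ m)) - ∑ s ∈ range j, cf q J s * ((1 / M) *
        ∑ z ∈ inn j s, ((1 - θ) * nsq (fun η => av s (emb w z) (ψ m) η - av j w (ψ m) η)))
        - μ * ((1 / M) * ∑ x : Site d j, pd (ψ m) (emb w x) (emb w x))) := by
    simp only [mul_sub, Finset.sum_sub_distrib, mul_neg, Finset.sum_neg_distrib]
    have t1 := hM.av hj.le
    have t2 := hM.rho hj.le
    rw [← hMdef] at t2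
    rw [t1]
    have t3 : ∑ k, r k * (μ * rho (φ k)) = ∑ m, lam m * (μ * ((1 / M) *
        ∑ x : Site d j, pd (ψ m) (emb w x) (emb w x))) := by
      have u1 : ∀ k, r k * (μ * rho (φ k)) = μ * (r k * rho (φ k)) := fun k => by ring
      have u2 : ∀ m, lam m * (μ * ((1 / M) * ∑ x : Site d j, pd (ψ m) (emb w x) (emb w x))) =
        μ * (lam m * ((1 / M) * ∑ x : Site d j, pd (ψ m) (emb w x) (emb w x))) := fun m => by ring
      rw [Finset.sum_congr rfl fun k _ => u1 k, Finset.sum_congr rfl fun m _ => u2 m,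
        ← Finset.mul_sum, ← Finset.mul_sum, t2]
    rw [t3]
    congr 2
    have u3 : ∀ k, r k * ∑ s ∈ range j, cf q J s * ((1 / M) * ∑ z ∈ inn j s,
        ((1 - θ) * nsq (fun η => av s z (φ k) η - av j 0 (φ k) η))) =
        ∑ s ∈ range j, cf q J s * ((1 / M) * ∑ z ∈ inn j s,
        ((1 - θ) * (r k * nsq (fun η => av s z (φ k) η - av j 0 (φ k) η)))) := by
      intro k
      rw [Finset.mul_sum]
      refine Finset.sum_congr rfl fun s _ => ?_
      rw [mul_left_comm, mul_left_comm (r k), Finset.mul_sum (inn j s) _ (r k)]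
      congr 2
      refine Finset.sum_congr rfl fun z _ => ?_
      ring
    have u4 : ∀ m, lam m * ∑ s ∈ range j, cf q J s * ((1 / M) * ∑ z ∈ inn j s,
        ((1 - θ) * nsq (fun η => av s (emb w z) (ψ m) η - av j w (ψ m) η))) =
        ∑ s ∈ range j, cf q J s * ((1 / M) * ∑ z ∈ inn j s,
        ((1 - θ) * (lam m * nsq (fun η => av s (emb w z) (ψ m) η - av j w (ψ m) η)))) := by
      intro m
      rw [Finset.mul_sum]
      refine Finset.sum_congr rfl fun s _ => ?_
      rw [mul_left_comm, mul_left_comm (lam m), Finset.mul_sum (inn j s) _ (lam m)]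
      congr 2
      refine Finset.sum_congr rfl fun z _ => ?_
      ring
    rw [Finset.sum_congr rfl fun k _ => u3 k, Finset.sum_congr rfl fun m _ => u4 m,
      Finset.sum_comm, Finset.sum_comm (s := (univ : Finset (Site d J → Bool)))]
    refine Finset.sum_congr rfl fun s _ => ?_
    rw [← Finset.mul_sum, ← Finset.mul_sum, ← Finset.mul_sum, ← Finset.mul_sum, Finset.sum_comm,
      Finset.sum_comm (s := (univ : Finset (Site d J → Bool)))]
    congr 2
    refine Finset.sum_congr rfl fun z hz => ?_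
    rw [← Finset.mul_sum, ← Finset.mul_sum, hM.diff hj.le hz]
  rw [ht]
  linarith

end

end Pool.Agent.TH268.TB
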