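import Pool.Agent.TH268.TB.Trial

/-!
# Slices of a vector with spectator sites; product families
-/

set_option autoImplicit false

open Finset BigOperators

namespace Pool.Agent.TH268.TB

open Pool.Agent.H11R2.BEC Pool.Agent.H11R2.BEC.T2c

section slice
variable {Q R : Type} [Fintype Q] [DecidableEq Q] [Fintype R] [DecidableEq R]

/-- the slice -/
def slice (ξ : R → Bool) (Φ : WF (Q ⊕ R)) : WF Q := fun η => Φ (Sum.elim η ξ)

theorem slice_sum (F : (Q ⊕ R → Bool) → ℝ) :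
    ∑ ω : Q ⊕ R → Bool, F ω = ∑ ξ : R → Bool, ∑ η : Q → Bool, F (Sum.elim η ξ) := by
  rw [← Fintype.sum_prod_type_right']
  exact (Fintype.sum_equiv (Equiv.sumArrowEquivProdArrow Q R Bool).symm _ _ fun p => rfl).symm

theorem slice_nsq (Φ : WF (Q ⊕ R)) : nsq Φ = ∑ ξ : R → Bool, nsq (slice ξ Φ) :=
  slice_sum fun ω => ‖Φ ω‖ ^ 2

theorem slice_low (ξ : R → Bool) (x : Q) (Φ : WF (Q ⊕ R)) :
    slice ξ (low (Sum.inl x) Φ) = low x (slice ξ Φ) := by
  funext η
  have h1 : slice ξ (low (Sum.inl x) Φ) η =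
      if η x = true then 0 else Φ (Function.update (Sum.elim η ξ) (Sum.inl x) true) := rfl
  have h2 : low x (slice ξ Φ) η =
      if η x = true then 0 else Φ (Sum.elim (Function.update η x true) ξ) := rfl
  rw [h1, h2, Sum.update_elim_inl]

theorem slice_pd (Φ : WF (Q ⊕ R)) (x y : Q) :
    pd Φ (Sum.inl x) (Sum.inl y) = ∑ ξ : R → Bool, pd (slice ξ Φ) x y :=
  slice_sum fun ω => if (ω (Sum.inl x) = true ∧ ω (Sum.inl y) = true) then ‖Φ ω‖ ^ 2 else 0

end slice

section slice2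
variable {d j : ℕ} {R : Type} [Fintype R] [DecidableEq R]

theorem slice_avI (ξ : R → Bool) (s : ℕ) (z : Site d j) (Φ : WF (Site d j ⊕ R)) :
    slice ξ (avI Sum.inl s z Φ) = av s z (slice ξ Φ) := by
  funext η
  unfold av avI
  change (1 / (2 : ℂ) ^ (d * s)) * ∑ u : Fin d → Fin (2 ^ s), low (Sum.inl (z + cu j u)) Φ
    (Sum.elim η ξ) = _
  congr 1
  refine Finset.sum_congr rfl fun u _ => ?_
  exact congrFun (slice_low ξ (z + cu j u) Φ) η

theorem slice_cohI (s : ℕ) (Φ : WF (Site d j ⊕ R)) :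
    cohI Sum.inl s Φ = ∑ ξ : R → Bool, coh s (slice ξ Φ) := by
  unfold cohI coh
  rw [← Finset.mul_sum, Finset.sum_comm]
  congr 1
  refine Finset.sum_congr rfl fun z _ => ?_
  rw [slice_nsq]
  exact Finset.sum_congr rfl fun ξ _ => by rw [slice_avI]

theorem slice_rhoI (Φ : WF (Site d j ⊕ R)) :
    rhoI Sum.inl Φ = ∑ ξ : R → Bool, rho (slice ξ Φ) := by
  unfold rhoI rho
  rw [← Finset.mul_sum, Finset.sum_comm]
  congr 1
  exact Finset.sum_congr rfl fun x _ => slice_pd _ _ _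

theorem coh_smul (s : ℕ) (a : ℂ) (φ : WF (Site d j)) :
    coh s (fun η => a * φ η) = ‖a‖ ^ 2 * coh s φ := by
  unfold coh
  rw [mul_left_comm]
  congr 1
  rw [Finset.mul_sum]
  refine Finset.sum_congr rfl fun z _ => ?_
  rw [av_smul, nsq_smul]

theorem slice_diff (Φ : WF (Site d j ⊕ R)) (s : ℕ) (z : Site d j) :
    nsq (fun η => avI Sum.inl s z Φ η - avI Sum.inl j 0 Φ η) =
      ∑ ξ : R → Bool, nsq (fun η => av s z (slice ξ Φ) η - av j 0 (slice ξ Φ) η) := by
  rw [slice_nsq]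
  refine Finset.sum_congr rfl fun ξ _ => ?_
  congr 1
  rw [← slice_avI, ← slice_avI]
  rfl

theorem slice_diff2 (Φ : WF (Site d j ⊕ R)) (c : ℂ) :
    nsq (fun η => avI Sum.inl j 0 Φ η - c * Φ η) =
      ∑ ξ : R → Bool, nsq (fun η => av j 0 (slice ξ Φ) η - c * slice ξ Φ η) := by
  rw [slice_nsq]
  refine Finset.sum_congr rfl fun ξ _ => ?_
  congr 1
  rw [← slice_avI]
  rfl

end slice2

section prod
variable {I X : Type} [Fintype I] [DecidableEq I] [Fintype X] [DecidableEq X]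

theorem sum_prod_one (f : X → ℝ) (hf : ∑ x, f x = 1) : ∑ K : I → X, ∏ i, f (K i) = 1 := by
  have h := Finset.prod_univ_sum (fun _ : I => (univ : Finset X)) (fun _ x => f x)
  rw [Fintype.piFinset_univ] at h
  rw [← h]
  simp [hf]

/-- the entropy of a product weight -/
theorem sum_prod_sum (f g : X → ℝ) (hf : ∑ x, f x = 1) :
    ∑ K : I → X, (∏ i, f (K i)) * ∑ i, g (K i) = Fintype.card I * ∑ x, f x * g x := by
  simp_rw [Finset.mul_sum]
  rw [Finset.sum_comm]
  have h1 : ∀ i : I, ∑ K : I → X, (∏ i', f (K i')) * g (K i) = ∑ x, f x * g x := by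
    intro i
    have h := Finset.prod_univ_sum (fun _ : I => (univ : Finset X))
      (fun i' x => f x * (if i' = i then g x else 1))
    rw [Fintype.piFinset_univ] at h
    have h2 : ∀ K : I → X, (∏ i', f (K i')) * g (K i) =
        ∏ i', (f (K i') * (if i' = i then g (K i') else 1)) := by
      intro K
      rw [Finset.prod_mul_distrib]
      congr 1
      simp
    rw [Finset.sum_congr rfl fun K _ => h2 K, ← h]
    rw [Finset.prod_eq_single i]
    · simp
    · intro i' _ hi'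
      simp [hi', hf]
    · intro h; exact absurd (Finset.mem_univ _) h
  rw [Finset.sum_congr rfl fun i _ => h1 i, Finset.sum_const, Finset.card_univ, nsmul_eq_mul,
    Finset.mul_sum]

end prod

section fam
variable {Λ I Q : Type} [Fintype Λ] [DecidableEq Λ] [Fintype I] [DecidableEq I] [Fintype Q]
  [DecidableEq Q]

/-- products of vectors over the tiles -/
noncomputable def prodV (e : Λ ≃ I × Q) {κ : Type} (χ : I → κ → WF Q) (K : I → κ) : WF Λ :=
  fun η => ∏ i, χ i (K i) (h873tile e η i)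

/-- the product operator -/
theorem ip_prodV (e : Λ ≃ I × Q) (χ : I → (Q → Bool) → WF Q) (K : I → (Q → Bool)) (v : WF Λ) :
    ip (prodV e χ K) v = tt (fun i k ζ => (starRingEnd ℂ) (χ i k ζ))
      (fun ξ => v ((h873cfg e).symm ξ)) K := by
  unfold ip tt prodV
  rw [← Equiv.sum_comp (h873cfg e)]
  refine Finset.sum_congr rfl fun η _ => ?_
  show (starRingEnd ℂ) (∏ i, χ i (K i) (h873tile e η i)) * v η =
    (∏ i, (starRingEnd ℂ) (χ i (K i) (h873tile e η i))) * v ((h873cfg e).symm ((h873cfg e) η))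
  rw [Equiv.symm_apply_apply, map_prod]

theorem gns_cfg (e : Λ ≃ I × Q) (v : WF Λ) :
    gns (fun ξ => v ((h873cfg e).symm ξ)) = nsq v := by
  unfold gns nsq
  exact Equiv.sum_comp (h873cfg e).symm fun η => ‖v η‖ ^ 2

theorem prodV_bessel (e : Λ ≃ I × Q) (χ : I → (Q → Bool) → WF Q)
    (hχ : ∀ i, ∀ v, ∑ k, ‖ip (χ i k) v‖ ^ 2 ≤ nsq v) (v : WF Λ) :
    ∑ K : I → (Q → Bool), ‖ip (prodV e χ K) v‖ ^ 2 ≤ nsq v := by
  simp only [ip_prodV]
  rw [← gns_cfg e v]
  exact tt_contr _ (fun i w => hχ i w) _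

theorem prodV_parseval (e : Λ ≃ I × Q) (χ : I → (Q → Bool) → WF Q)
    (hχ : ∀ i, ∀ v, ∑ k, ‖ip (χ i k) v‖ ^ 2 = nsq v) (v : WF Λ) :
    ∑ K : I → (Q → Bool), ‖ip (prodV e χ K) v‖ ^ 2 = nsq v := by
  simp only [ip_prodV]
  rw [← gns_cfg e v]
  exact tt_iso _ (fun i w => hχ i w) _

theorem prodV_nsq (e : Λ ≃ I × Q) {κ : Type} (χ : I → κ → WF Q) (K : I → κ) :
    nsq (prodV e χ K) = ∏ i, nsq (χ i (K i)) := by
  have h1 : nsq (prodV e χ K) = ∑ η : Λ → Bool, ∏ i, (fun (i : I) (ζ : Q → Bool) =>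
      ‖χ i (K i) ζ‖ ^ 2) i (h873tile e η i) := by
    unfold nsq prodV
    refine Finset.sum_congr rfl ?_
    intro η _
    rw [norm_prod, ← Finset.prod_pow]
  exact h1.trans (h873_fact e (fun (i : I) (ζ : Q → Bool) => ‖χ i (K i) ζ‖ ^ 2))

end fam

end Pool.Agent.TH268.TB
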