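import Pool.Agent.TH268.TB.Basic

/-!
# Spectral decompositions
-/

set_option autoImplicit false

open Finset BigOperators

namespace Pool.Agent.TH268.TB

section
variable {X T : Type} [Fintype X] [DecidableEq X] [Fintype T]

theorem herm_diag (H : Matrix X X ℂ) (hH : H.IsHermitian) :
    ∃ (φ : X → X → ℂ) (r : X → ℝ), ONB φ ∧ (∀ x, H.mulVec (φ x) = fun y => (r x : ℂ) * φ x y) ∧
      ∀ v, gip v (H.mulVec v) = ((∑ x, r x * ‖gip (φ x) v‖ ^ 2 : ℝ) : ℂ) := by
  set b := hH.eigenvectorBasis with hb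
  have hip : ∀ (m : X) (v : EuclideanSpace ℂ X),
      inner ℂ (b m) v = gip (fun x => b m x) (fun x => v x) := by
    intro m v
    rw [EuclideanSpace.inner_eq_star_dotProduct, dotProduct]
    unfold gip
    refine Finset.sum_congr rfl fun x _ => ?_
    simp only [Pi.star_apply, RCLike.star_def]
    rw [mul_comm]
  refine ⟨fun m x => b m x, hH.eigenvalues, ⟨?_, ?_⟩, ?_, ?_⟩
  · intro m
    have h1 : ‖b m‖ = 1 := b.orthonormal.1 m
    have h2 := EuclideanSpace.norm_sq_eq (b m)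
    rw [h1] at h2
    unfold gns
    rw [← h2]
    norm_num
  · intro v
    set v' : EuclideanSpace ℂ X := WithLp.toLp 2 v with hv'
    have h1 := b.sum_sq_norm_inner_right v'
    have h2 := EuclideanSpace.norm_sq_eq v'
    rw [h2] at h1
    unfold gns
    rw [show (∑ x, ‖v x‖ ^ 2) = ∑ i, ‖v' i‖ ^ 2 from rfl, ← h1]
    refine Finset.sum_congr rfl fun m _ => ?_
    rw [hip]
  · intro m
    have h1 := hH.mulVec_eigenvectorBasis m
    funext y
    have h2 := congrFun h1 y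
    simpa using h2
  · intro v
    set v' : EuclideanSpace ℂ X := WithLp.toLp 2 v with hv'
    have h1 := b.sum_repr v'
    have h2 : v = ∑ m, (gip (fun x => b m x) v) • (fun x => b m x : X → ℂ) := by
      have h3 : ∀ y, v y = v' y := fun y => rfl
      funext y
      rw [h3, ← h1]
      simp only [Finset.sum_apply, Pi.smul_apply, smul_eq_mul, WithLp.ofLp_sum, WithLp.ofLp_smul]
      refine Finset.sum_congr rfl fun m _ => ?_
      rw [b.repr_apply_apply, hip]
    have h4 : H.mulVec v = ∑ m, (gip (fun x => b m x) v) •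
        (fun y => (hH.eigenvalues m : ℂ) * b m y : X → ℂ) := by
      conv_lhs => rw [h2]
      rw [Matrix.mulVec_sum]
      refine Finset.sum_congr rfl fun m _ => ?_
      rw [Matrix.mulVec_smul]
      congr 1
      have h1 := hH.mulVec_eigenvectorBasis m
      funext y
      have h2 := congrFun h1 y
      simpa using h2
    rw [h4]
    unfold gip
    simp only [Finset.sum_apply, Pi.smul_apply, smul_eq_mul]
    simp only [Finset.mul_sum]
    rw [Finset.sum_comm]
    push_cast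
    refine Finset.sum_congr rfl fun m _ => ?_
    have h5 : (starRingEnd ℂ) (gip (fun x => b m x) v) = ∑ y, (starRingEnd ℂ) (v y) * b m y := by
      rw [gip_conj]; rfl
    have h6 : ((‖∑ x, (starRingEnd ℂ) (b m x) * v x‖ : ℝ) : ℂ) ^ 2 =
        (starRingEnd ℂ) (gip (fun x => b m x) v) * gip (fun x => b m x) v := by
      rw [Complex.conj_mul']; rfl
    rw [h6, h5]
    show ∑ y, (starRingEnd ℂ) (v y) * (gip (fun x => b m x) v * ((hH.eigenvalues m : ℂ) * b m y)) = _
    rw [Finset.sum_mul, Finset.mul_sum]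
    refine Finset.sum_congr rfl fun y _ => ?_
    ring

/-- every finite family has the same quadratic form as an orthogonal family -/
theorem spec (Φ : T → X → ℂ) :
    ∃ (φ : X → X → ℂ) (r : X → ℝ), ONB φ ∧ (∀ x, 0 ≤ r x) ∧
      ∀ v, ∑ t, ‖gip v (Φ t)‖ ^ 2 = ∑ x, r x * ‖gip v (φ x)‖ ^ 2 := by
  set H : Matrix X X ℂ := fun a b => ∑ t, Φ t a * (starRingEnd ℂ) (Φ t b) with hHdef
  have hH : H.IsHermitian := by
    ext a b
    change (starRingEnd ℂ) (∑ t, Φ t b * (starRingEnd ℂ) (Φ t a)) =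
      ∑ t, Φ t a * (starRingEnd ℂ) (Φ t b)
    rw [map_sum]
    refine Finset.sum_congr rfl fun t _ => ?_
    rw [map_mul, Complex.conj_conj, mul_comm]
  have hq : ∀ v, gip v (H.mulVec v) = ((∑ t, ‖gip v (Φ t)‖ ^ 2 : ℝ) : ℂ) := by
    intro v
    have h6 : ∀ t, ((‖gip v (Φ t)‖ ^ 2 : ℝ) : ℂ) = gip v (Φ t) * gip (Φ t) v := by
      intro t
      rw [← gip_conj v (Φ t), Complex.mul_conj']
      push_cast; rfl
    rw [Complex.ofReal_sum]
    simp only [h6]
    unfold gip Matrix.mulVec dotProduct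
    simp only [hHdef, Finset.sum_mul, Finset.mul_sum]
    rw [Finset.sum_comm]
    have e1 : ∀ y : X, ∑ x : X, ∑ t, (starRingEnd ℂ) (v x) * (Φ t x * (starRingEnd ℂ) (Φ t y) * v y) =
      ∑ t, ∑ x : X, (starRingEnd ℂ) (v x) * (Φ t x * (starRingEnd ℂ) (Φ t y) * v y) :=
      fun y => Finset.sum_comm
    rw [Finset.sum_congr rfl fun y _ => e1 y, Finset.sum_comm]
    refine Finset.sum_congr rfl fun t _ => ?_
    refine Finset.sum_congr rfl fun y _ => ?_
    refine Finset.sum_congr rfl fun x _ => ?_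
    ring
  obtain ⟨φ, r, h1, h2, h3⟩ := herm_diag H hH
  have h4 : ∀ v, ∑ t, ‖gip v (Φ t)‖ ^ 2 = ∑ x, r x * ‖gip v (φ x)‖ ^ 2 := by
    intro v
    have h5 := (hq v).symm.trans (h3 v)
    have h6 : ∑ t, ‖gip v (Φ t)‖ ^ 2 = ∑ x, r x * ‖gip (φ x) v‖ ^ 2 := by exact_mod_cast h5
    rw [h6]
    exact Finset.sum_congr rfl fun x _ => by rw [gip_norm_comm]
  refine ⟨φ, r, h1, ?_, h4⟩
  intro x
  have h5 := h4 (φ x)
  have h6 : ∑ y, r y * ‖gip (φ x) (φ y)‖ ^ 2 = r x := by
    rw [Finset.sum_eq_single x]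
    · rw [h1.orth]; simp
    · intro y _ hy
      rw [h1.orth, if_neg (Ne.symm hy), mul_zero]
    · intro h; exact absurd (Finset.mem_univ _) h
  rw [h6] at h5
  rw [← h5]
  positivity

/-- transfer of linear functionals -/
theorem spec_lin {Φ : T → X → ℂ} {φ : X → X → ℂ} {r : X → ℝ}
    (h : ∀ v, ∑ t, ‖gip v (Φ t)‖ ^ 2 = ∑ x, r x * ‖gip v (φ x)‖ ^ 2) (c : X → ℂ) :
    ∑ t, ‖∑ y, c y * Φ t y‖ ^ 2 = ∑ x, r x * ‖∑ y, c y * φ x y‖ ^ 2 := by
  have h1 := h (fun y => (starRingEnd ℂ) (c y))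
  simpa [gip] using h1

theorem spec_gns {Φ : T → X → ℂ} {φ : X → X → ℂ} {r : X → ℝ} (hφ : ONB φ)
    (h : ∀ v, ∑ t, ‖gip v (Φ t)‖ ^ 2 = ∑ x, r x * ‖gip v (φ x)‖ ^ 2) :
    ∑ x, r x = ∑ t, gns (Φ t) := by
  have h1 : ∀ y : X, ∑ t, ‖Φ t y‖ ^ 2 = ∑ x, r x * ‖φ x y‖ ^ 2 := by
    intro y
    have := spec_lin h (fun z => if z = y then 1 else 0)
    simpa using this
  unfold gns
  rw [Finset.sum_comm, Finset.sum_congr rfl fun y _ => h1 y, Finset.sum_comm]
  refine Finset.sum_congr rfl fun x _ => ?_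
  rw [← Finset.mul_sum]
  have := hφ.norm x
  unfold gns at this
  rw [this, mul_one]

end

end Pool.Agent.TH268.TB
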