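import Pool.Agent.TH268.TB.TrialT
import Pool.Agent.H473R2.BEC.T4
import Pool.Agent.H96R2.BEC.KeyD
import Pool.Agent.H882R2.BEC.T8

/-!
# Marginals on cubes and the subadditivity of the entropy
-/

set_option autoImplicit false

open Finset BigOperators

namespace Pool.Agent.TH268.TB

open Pool.Agent.H11R2.BEC Pool.Agent.H11R2.BEC.T2c

/-- `r`, `φ` is the spectral decomposition of the marginal on the cube `w + [0, 2^j)^d` of the state
with eigenvectors `ψ` and weights `lam` -/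
structure Marg {d J j : ℕ} (lam : (Site d J → Bool) → ℝ) (ψ : (Site d J → Bool) → WF (Site d J))
    (w : Site d J) (φ : (Site d j → Bool) → WF (Site d j)) (r : (Site d j → Bool) → ℝ) : Prop where
  onb : ONB φ
  nn : ∀ x, 0 ≤ r x
  eq : ∀ v : WF (Site d j), ∑ m, lam m * ∑ η : Site d J → Bool,
      ‖gip v (res (emb w) η (ψ m) : WF (Site d j))‖ ^ 2 =
    2 ^ Fintype.card (Site d j) * ∑ x, r x * ‖gip v (φ x)‖ ^ 2

theorem exists_marg {d J j : ℕ} (lam : (Site d J → Bool) → ℝ) (hlam : ∀ m, 0 ≤ lam m)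
    (ψ : (Site d J → Bool) → WF (Site d J)) (w : Site d J) :
    ∃ (φ : (Site d j → Bool) → WF (Site d j)) (r : (Site d j → Bool) → ℝ), Marg lam ψ w φ r := by
  set K : ℝ := 2 ^ Fintype.card (Site d j) with hK
  have hK0 : 0 < K := by positivity
  obtain ⟨φ, r, h1, h2, h3⟩ := spec (T := (Site d J → Bool) × (Site d J → Bool))
    (fun t => fun ζ : Site d j → Bool => ((Real.sqrt (lam t.1 / K) : ℝ) : ℂ) *
      (res (emb w) t.2 (ψ t.1) : WF (Site d j)) ζ)
  refine ⟨φ, r, h1, h2, ?_⟩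
  intro v
  rw [← h3 v, ← hK]
  have h4 : ∀ t : (Site d J → Bool) × (Site d J → Bool),
      ‖gip v (fun ζ : Site d j → Bool => ((Real.sqrt (lam t.1 / K) : ℝ) : ℂ) *
        (res (emb w) t.2 (ψ t.1) : WF (Site d j)) ζ)‖ ^ 2 =
      lam t.1 / K * ‖gip v (res (emb w) t.2 (ψ t.1) : WF (Site d j))‖ ^ 2 := by
    intro t
    have h5 : gip v (fun ζ : Site d j → Bool => ((Real.sqrt (lam t.1 / K) : ℝ) : ℂ) *
        (res (emb w) t.2 (ψ t.1) : WF (Site d j)) ζ) = ((Real.sqrt (lam t.1 / K) : ℝ) : ℂ) *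
          gip v (res (emb w) t.2 (ψ t.1) : WF (Site d j)) := by
      unfold gip
      rw [Finset.mul_sum]
      refine Finset.sum_congr rfl fun x _ => ?_
      ring
    rw [h5, norm_mul, mul_pow, Complex.norm_real, Real.norm_eq_abs, sq_abs,
      Real.sq_sqrt (div_nonneg (hlam _) hK0.le)]
  rw [Finset.sum_congr rfl fun t _ => h4 t, Fintype.sum_prod_type, Finset.mul_sum]
  refine Finset.sum_congr rfl fun m _ => ?_
  rw [Finset.mul_sum, Finset.mul_sum]
  refine Finset.sum_congr rfl fun η _ => ?_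
  field_simp

section transfer

variable {d J j : ℕ} {lam : (Site d J → Bool) → ℝ} {ψ : (Site d J → Bool) → WF (Site d J)}
    {w : Site d J} {φ : (Site d j → Bool) → WF (Site d j)} {r : (Site d j → Bool) → ℝ}

theorem Marg.lin (hM : Marg lam ψ w φ r) (c : (Site d j → Bool) → ℂ) :
    ∑ m, lam m * ∑ η : Site d J → Bool,
      ‖∑ ζ, c ζ * (res (emb w) η (ψ m) : WF (Site d j)) ζ‖ ^ 2 =
    2 ^ Fintype.card (Site d j) * ∑ x, r x * ‖∑ ζ, c ζ * φ x ζ‖ ^ 2 := by
  have h1 := hM.eq (fun y => (starRingEnd ℂ) (c y))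
  have e : ∀ χ : WF (Site d j), gip (fun y => (starRingEnd ℂ) (c y)) χ = ∑ ζ, c ζ * χ ζ := by
    intro χ
    unfold gip
    exact Finset.sum_congr rfl fun ζ _ => by rw [Complex.conj_conj]
  simp only [e] at h1
  exact h1

/-- transfer of quadratic functionals -/
theorem Marg.transfer (hM : Marg lam ψ w φ r) (T : WF (Site d j) →ₗ[ℂ] WF (Site d j)) :
    ∑ m, lam m * ∑ η : Site d J → Bool, nsq (T (res (emb w) η (ψ m) : WF (Site d j))) =
    2 ^ Fintype.card (Site d j) * ∑ x, r x * nsq (T (φ x)) := by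
  have h1 : ∀ (χ : WF (Site d j)) (ζ : Site d j → Bool),
      T χ ζ = ∑ y, T (Pi.single y 1) ζ * χ y := by
    intro χ ζ
    have h2 : T χ = ∑ y, χ y • T (Pi.single y 1) := LinearMap.pi_apply_eq_sum_univ T χ |>.trans (by
      refine Finset.sum_congr rfl fun y _ => ?_
      congr 2
      funext z
      simp [Pi.single_apply, eq_comm])
    rw [h2]
    simp only [Finset.sum_apply, Pi.smul_apply, smul_eq_mul]
    exact Finset.sum_congr rfl fun y _ => mul_comm _ _
  unfold nsq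
  have h3 : ∀ m, lam m * ∑ η : Site d J → Bool, ∑ ζ,
      ‖T (res (emb w) η (ψ m) : WF (Site d j)) ζ‖ ^ 2 =
      ∑ ζ, lam m * ∑ η : Site d J → Bool, ‖T (res (emb w) η (ψ m) : WF (Site d j)) ζ‖ ^ 2 := by
    intro m
    rw [Finset.sum_comm, Finset.mul_sum]
  rw [Finset.sum_congr rfl fun m _ => h3 m, Finset.sum_comm]
  have h4 : ∑ x, r x * ∑ ζ, ‖T (φ x) ζ‖ ^ 2 = ∑ ζ, ∑ x, r x * ‖T (φ x) ζ‖ ^ 2 := by
    rw [Finset.sum_comm]
    exact Finset.sum_congr rfl fun x _ => by rw [Finset.mul_sum]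
  rw [h4, Finset.mul_sum]
  refine Finset.sum_congr rfl fun ζ _ => ?_
  have h5 := hM.lin (fun y => T (Pi.single y 1) ζ)
  calc _ = ∑ m, lam m * ∑ η : Site d J → Bool,
      ‖∑ y, T (Pi.single y 1) ζ * (res (emb w) η (ψ m) : WF (Site d j)) y‖ ^ 2 := by
        refine Finset.sum_congr rfl fun m _ => ?_
        congr 1
        refine Finset.sum_congr rfl fun η _ => ?_
        rw [h1 (res (emb w) η (ψ m) : WF (Site d j)) ζ]
    _ = _ := h5
    _ = _ := by
        congr 1
        refine Finset.sum_congr rfl fun x _ => ?_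
        rw [h1 (φ x) ζ]

/-- the annihilation operator as a linear map -/
noncomputable def lowL {Λ : Type} [Fintype Λ] [DecidableEq Λ] (x : Λ) : WF Λ →ₗ[ℂ] WF Λ where
  toFun := low x
  map_add' φ χ := by
    funext η
    simp only [low, Pi.add_apply]
    split_ifs <;> simp
  map_smul' a φ := by
    funext η
    simp only [low, Pi.smul_apply, RingHom.id_apply, smul_eq_mul]
    split_ifs <;> simp

/-- the averages as linear maps -/
noncomputable def avL (s : ℕ) (z : Site d j) : WF (Site d j) →ₗ[ℂ] WF (Site d j) :=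
  (1 / (2 : ℂ) ^ (d * s)) • ∑ u : Fin d → Fin (2 ^ s), lowL (z + cu j u)

theorem avL_apply (s : ℕ) (z : Site d j) (χ : WF (Site d j)) : avL s z χ = av s z χ := by
  funext η
  unfold avL av
  simp only [LinearMap.smul_apply, LinearMap.sum_apply, Pi.smul_apply, Finset.sum_apply, smul_eq_mul]
  rfl

theorem Marg.total (hj : j ≤ J) (hM : Marg lam ψ w φ r) (hψ : ONB ψ) (hlam1 : ∑ m, lam m = 1) :
    ∑ x, r x = 1 := by
  have h1 := hM.transfer LinearMap.id
  simp only [LinearMap.id_apply] at h1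
  have h2 : ∀ m, lam m * ∑ η : Site d J → Bool, nsq (res (emb w) η (ψ m) : WF (Site d j)) =
      2 ^ Fintype.card (Site d j) * lam m := by
    intro m
    rw [res_nsq (ki_emb_inj hj w)]
    have := hψ.norm m
    change lam m * (_ * gns (ψ m)) = _
    rw [this]; ring
  have h3 : ∀ x, r x * nsq (φ x) = r x := by
    intro x
    have := hM.onb.norm x
    change r x * gns (φ x) = _
    rw [this, mul_one]
  rw [Finset.sum_congr rfl fun m _ => h2 m, Finset.sum_congr rfl fun x _ => h3 x, ← Finset.mul_sum,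
    hlam1] at h1
  exact (mul_left_cancel₀ (by positivity) h1).symm

theorem Marg.av (hj : j ≤ J) (hM : Marg lam ψ w φ r) :
    ∑ x, r x * nsq (av j 0 (φ x)) = ∑ m, lam m * nsq (av j w (ψ m)) := by
  have h1 := hM.transfer (avL j 0)
  simp only [avL_apply, ki_res_av0 hj] at h1
  have h2 : ∀ m, lam m * ∑ η : Site d J → Bool,
      nsq (res (emb w) η (Pool.Agent.H11R2.BEC.av j w (ψ m)) : WF (Site d j)) =
      2 ^ Fintype.card (Site d j) * (lam m * nsq (Pool.Agent.H11R2.BEC.av j w (ψ m))) := by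
    intro m
    rw [res_nsq (ki_emb_inj hj w)]
    ring
  rw [Finset.sum_congr rfl fun m _ => h2 m, ← Finset.mul_sum] at h1
  exact (mul_left_cancel₀ (by positivity) h1).symm

theorem Marg.diff (hj : j ≤ J) (hM : Marg lam ψ w φ r) {s : ℕ} {z : Site d j} (hz : z ∈ inn j s) :
    ∑ x, r x * nsq (fun η => Pool.Agent.H11R2.BEC.av s z (φ x) η -
        Pool.Agent.H11R2.BEC.av j 0 (φ x) η) =
      ∑ m, lam m * nsq (fun η => Pool.Agent.H11R2.BEC.av s (emb w z) (ψ m) η -
        Pool.Agent.H11R2.BEC.av j w (ψ m) η) := by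
  have h1 := hM.transfer (avL s z - avL j 0 : WF (Site d j) →ₗ[ℂ] WF (Site d j))
  have e1 : ∀ χ : WF (Site d j), (avL s z - avL j 0 : WF (Site d j) →ₗ[ℂ] WF (Site d j)) χ =
      fun η => Pool.Agent.H11R2.BEC.av s z χ η - Pool.Agent.H11R2.BEC.av j 0 χ η := by
    intro χ
    rw [LinearMap.sub_apply, avL_apply, avL_apply]
    rfl
  simp only [e1] at h1
  have h2 : ∀ m, lam m * ∑ η : Site d J → Bool,
      nsq (fun ζ => Pool.Agent.H11R2.BEC.av s z (res (emb w) η (ψ m) : WF (Site d j)) ζ -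
        Pool.Agent.H11R2.BEC.av j 0 (res (emb w) η (ψ m) : WF (Site d j)) ζ) =
      2 ^ Fintype.card (Site d j) * (lam m * nsq (fun η => Pool.Agent.H11R2.BEC.av s (emb w z) (ψ m) η -
        Pool.Agent.H11R2.BEC.av j w (ψ m) η)) := by
    intro m
    have e2 : ∀ η : Site d J → Bool,
        (fun ζ => Pool.Agent.H11R2.BEC.av s z (res (emb w) η (ψ m) : WF (Site d j)) ζ -
        Pool.Agent.H11R2.BEC.av j 0 (res (emb w) η (ψ m) : WF (Site d j)) ζ) =
        res (emb w) η (fun η' => Pool.Agent.H11R2.BEC.av s (emb w z) (ψ m) η' -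
          Pool.Agent.H11R2.BEC.av j w (ψ m) η') := by
      intro η
      rw [ki_res_av0 hj, ki_res_av hj (ψ m) w η z (fun u ν => ki_inn hz u ν)]
      rfl
    simp only [e2]
    rw [res_nsq (ki_emb_inj hj w)]
    ring
  rw [Finset.sum_congr rfl fun m _ => h2 m, ← Finset.mul_sum] at h1
  exact (mul_left_cancel₀ (by positivity) h1).symm

theorem Marg.rho (hj : j ≤ J) (hM : Marg lam ψ w φ r) :
    ∑ x, r x * Pool.Agent.H11R2.BEC.rho (φ x) = ∑ m, lam m * ((1 / (2 : ℝ) ^ (d * j)) *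
      ∑ x : Site d j, pd (ψ m) (emb w x) (emb w x)) := by
  have h0 : ∀ y : Site d j, ∑ x, r x * pd (φ x) y y =
      ∑ m, lam m * pd (ψ m) (emb w y) (emb w y) := by
    intro y
    have h1 := hM.transfer (lowL y)
    have e1 : ∀ χ : WF (Site d j), nsq (lowL y χ) = pd χ y y := fun χ => t8_nsq_low y χ
    simp only [e1] at h1
    have h2 : ∀ m, lam m * ∑ η : Site d J → Bool,
        pd (res (emb w) η (ψ m) : WF (Site d j)) y y =
        2 ^ Fintype.card (Site d j) * (lam m * pd (ψ m) (emb w y) (emb w y)) := by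
      intro m
      rw [res_pd (ki_emb_inj hj w)]
      ring
    rw [Finset.sum_congr rfl fun m _ => h2 m, ← Finset.mul_sum] at h1
    exact (mul_left_cancel₀ (by positivity) h1).symm
  unfold Pool.Agent.H11R2.BEC.rho
  have h3 : ∀ x, r x * ((1 / (2 : ℝ) ^ (d * j)) * ∑ y : Site d j, pd (φ x) y y) =
      (1 / (2 : ℝ) ^ (d * j)) * ∑ y : Site d j, r x * pd (φ x) y y := by
    intro x
    rw [Finset.mul_sum, Finset.mul_sum, Finset.mul_sum]
    exact Finset.sum_congr rfl fun y _ => by ring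
  have h4 : ∀ m, lam m * ((1 / (2 : ℝ) ^ (d * j)) * ∑ y : Site d j, pd (ψ m) (emb w y) (emb w y)) =
      (1 / (2 : ℝ) ^ (d * j)) * ∑ y : Site d j, lam m * pd (ψ m) (emb w y) (emb w y) := by
    intro m
    rw [Finset.mul_sum, Finset.mul_sum, Finset.mul_sum]
    exact Finset.sum_congr rfl fun y _ => by ring
  rw [Finset.sum_congr rfl fun x _ => h3 x, Finset.sum_congr rfl fun m _ => h4 m,
    ← Finset.mul_sum, ← Finset.mul_sum, Finset.sum_comm, Finset.sum_congr rfl fun y _ => h0 y,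
    Finset.sum_comm]

end transfer

end Pool.Agent.TH268.TB
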