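import Pool.Agent.TH268.TB.Sub

/-!
# The subadditivity of the entropy
-/

set_option autoImplicit false

open Finset BigOperators

namespace Pool.Agent.TH268.TB

open Pool.Agent.H11R2.BEC Pool.Agent.H11R2.BEC.T2c

section

variable {d J j : ℕ}

/-- the tiling shifted by `w` -/
def shiftE {I : Type} (e : Site d J ≃ I × Site d j) (w : Site d J) : Site d J ≃ I × Site d j :=
  (Equiv.addRight (-w)).trans e

theorem shiftE_apply {I : Type} (e : Site d J ≃ I × Site d j) (w x : Site d J) :
    shiftE e w x = e (x + -w) := rfl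

theorem shiftE_symm {I : Type} (e : Site d J ≃ I × Site d j) (w : Site d J) (p : I × Site d j) :
    (shiftE e w).symm p = e.symm p + w := by
  rw [Equiv.symm_apply_eq, shiftE_apply]
  simp

/-- the tile `i` of the shifted tiling is a cube -/
theorem shiftE_emb (e : Site d J ≃ (Fin d → Fin (2 ^ (J - j))) × Site d j)
    (h2 : ∀ (i : Fin d → Fin (2 ^ (J - j))) (z : Site d j) (s : ℕ) (u : Fin d → Fin (2 ^ s)),
        (∀ ν, (z ν).val + (u ν : ℕ) < 2 ^ j) →
          e.symm (i, z) + cu J u = e.symm (i, z + cu j u))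
    (w : Site d J) (i : Fin d → Fin (2 ^ (J - j))) (y : Site d j) :
    (shiftE e w).symm (i, y) = emb (w + e.symm (i, 0)) y := by
  rw [shiftE_symm]
  have h3 := h2 i 0 j (fun ν => ⟨(y ν).val, ZMod.val_lt _⟩) (by
    intro ν
    simp only [Pi.zero_apply, ZMod.val_zero, zero_add]
    exact ZMod.val_lt _)
  have h4 : (0 : Site d j) + cu j (fun ν => (⟨(y ν).val, ZMod.val_lt _⟩ : Fin (2 ^ j))) = y := by
    rw [zero_add]
    funext ν
    exact ZMod.natCast_zmod_val _
  rw [h4] at h3
  rw [← h3]
  funext ν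
  simp only [emb, Pi.add_apply, cu]
  ring

/-- the restriction of a vector in the coordinates of the tiling -/
theorem res_cfg (hj : j ≤ J) (e : Site d J ≃ (Fin d → Fin (2 ^ (J - j))) × Site d j)
    (w' : Site d J) (i : Fin d → Fin (2 ^ (J - j)))
    (h : ∀ y, e.symm (i, y) = emb w' y) (v : WF (Site d J)) (η : Site d J → Bool)
    (ζ : Site d j → Bool) :
    v ((h873cfg e).symm (Function.update (h873cfg e η) i ζ)) =
      (res (emb w') η v : WF (Site d j)) ζ := by
  rw [t4_res]
  congr 1
  funext y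
  have e1 : (h873cfg e).symm (Function.update (h873cfg e η) i ζ) y =
      Function.update (h873cfg e η) i ζ (e y).1 (e y).2 := rfl
  rw [e1]
  by_cases hy : (e y).1 = i
  · have h3 : y = emb w' (e y).2 := by
      rw [← h, ← hy]
      simp
    rw [hy, Function.update_self]
    conv_rhs => rw [h3]
    rw [t4_apply (ki_emb_inj hj w')]
  · rw [Function.update_of_ne hy]
    have h3 : ¬ ∃ x : Site d j, emb w' x = y := by
      rintro ⟨x, hx⟩
      apply hy
      rw [← hx, ← h]
      simp
    rw [t4_out η ζ y h3]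
    change η (e.symm ((e y).1, (e y).2)) = η y
    simp

theorem card_cfg : (Fintype.card (Site d j → Bool) : ℝ) = 2 ^ Fintype.card (Site d j) := by
  rw [Fintype.card_fun, Fintype.card_bool]
  push_cast
  rfl

/-- the one-tile marginal of the product measurement -/
theorem prod_marg (hj : j ≤ J) (e : Site d J ≃ (Fin d → Fin (2 ^ (J - j))) × Site d j)
    (w' : (Fin d → Fin (2 ^ (J - j))) → Site d J)
    (h : ∀ i y, e.symm (i, y) = emb (w' i) y)
    (φ : (Fin d → Fin (2 ^ (J - j))) → (Site d j → Bool) → WF (Site d j))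
    (hφ : ∀ i, ONB (φ i)) (i : Fin d → Fin (2 ^ (J - j))) (k : Site d j → Bool)
    (v : WF (Site d J)) :
    (2 : ℝ) ^ Fintype.card (Site d j) *
      ∑ K : (Fin d → Fin (2 ^ (J - j))) → (Site d j → Bool),
        (if K i = k then ‖gip (prodV e φ K) v‖ ^ 2 else 0) =
      ∑ η : Site d J → Bool, ‖gip (φ i k) (res (emb (w' i)) η v : WF (Site d j))‖ ^ 2 := by
  have h1 := tt_marg (I := Fin d → Fin (2 ^ (J - j))) (X := Site d j → Bool)
    (fun i k ζ => (starRingEnd ℂ) (φ i k ζ)) (fun i w => (hφ i).pars w) i k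
    (fun ξ => v ((h873cfg e).symm ξ))
  rw [card_cfg] at h1
  have h2 : ∀ K, gip (prodV e φ K) v = tt (fun i k ζ => (starRingEnd ℂ) (φ i k ζ))
      (fun ξ => v ((h873cfg e).symm ξ)) K := fun K => ip_prodV e φ K v
  simp only [h2]
  rw [h1, ← Equiv.sum_comp (h873cfg e)]
  refine Finset.sum_congr rfl fun η _ => ?_
  congr 2
  unfold gip
  refine Finset.sum_congr rfl fun ζ _ => ?_
  exact congrArg (fun t => (starRingEnd ℂ) (φ i k ζ) * t) (res_cfg hj e (w' i) i (h i) v η ζ)

/-- the subadditivity for one tiling -/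
theorem subadd_one (hj : j ≤ J) (e : Site d J ≃ (Fin d → Fin (2 ^ (J - j))) × Site d j)
    (w' : (Fin d → Fin (2 ^ (J - j))) → Site d J)
    (h : ∀ i y, e.symm (i, y) = emb (w' i) y)
    {lam : (Site d J → Bool) → ℝ} (hlam : ∀ m, 0 ≤ lam m) (hlam1 : ∑ m, lam m = 1)
    {ψ : (Site d J → Bool) → WF (Site d J)} (hψ : ONB ψ)
    (φ : (Fin d → Fin (2 ^ (J - j))) → (Site d j → Bool) → WF (Site d j))
    (r : (Fin d → Fin (2 ^ (J - j))) → (Site d j → Bool) → ℝ)
    (hM : ∀ i, Marg lam ψ (w' i) (φ i) (r i)) :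
    ∑ i, ∑ k, r i k * Real.log (r i k) ≤ ∑ m, lam m * Real.log (lam m) := by
  classical
  set N : ℝ := (2 : ℝ) ^ Fintype.card (Site d j) with hN
  have hN0 : 0 < N := by positivity
  -- the one-tile marginals
  have hmarg : ∀ i k, ∑ m, lam m * ∑ K : (Fin d → Fin (2 ^ (J - j))) → (Site d j → Bool),
      (if K i = k then ‖gip (prodV e φ K) (ψ m)‖ ^ 2 else 0) = r i k := by
    intro i k
    have h1 := (hM i).eq (φ i k)
    rw [← hN] at h1
    have h2 : ∑ x, r i x * ‖gip (φ i k) (φ i x)‖ ^ 2 = r i k := by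
      rw [Finset.sum_eq_single k]
      · rw [(hM i).onb.orth]; simp
      · intro y _ hy
        rw [(hM i).onb.orth, if_neg (Ne.symm hy), mul_zero]
      · intro hk; exact absurd (Finset.mem_univ _) hk
    rw [h2] at h1
    have h3 : ∀ m, lam m * ∑ η : Site d J → Bool,
        ‖gip (φ i k) (res (emb (w' i)) η (ψ m) : WF (Site d j))‖ ^ 2 =
        N * (lam m * ∑ K : (Fin d → Fin (2 ^ (J - j))) → (Site d j → Bool),
          (if K i = k then ‖gip (prodV e φ K) (ψ m)‖ ^ 2 else 0)) := by
      intro m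
      rw [← prod_marg hj e w' h φ (fun i => (hM i).onb) i k (ψ m)]
      ring
    rw [Finset.sum_congr rfl fun m _ => h3 m, ← Finset.mul_sum] at h1
    exact mul_left_cancel₀ hN0.ne' h1
  set p : (((Fin d → Fin (2 ^ (J - j))) → (Site d j → Bool)) × (Site d J → Bool)) → ℝ :=
    fun t => ‖gip (prodV e φ t.1) (ψ t.2)‖ ^ 2 with hp
  have hp0 : ∀ t, 0 ≤ p t := fun t => by simp only [hp]; positivity
  set b : ((Fin d → Fin (2 ^ (J - j))) → (Site d j → Bool)) → ℝ := fun K => ∏ i, r i (K i) with hb
  have hb0 : ∀ K, 0 ≤ b K := fun K => Finset.prod_nonneg fun i _ => (hM i).nn _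
  have hsum : ∑ t : (((Fin d → Fin (2 ^ (J - j))) → (Site d j → Bool)) × (Site d J → Bool)),
      lam t.2 * p t = 1 := by
    rw [Fintype.sum_prod_type_right, ← hlam1]
    refine Finset.sum_congr rfl fun m _ => ?_
    dsimp only
    rw [← Finset.mul_sum]
    have h3 : ∑ K, p (K, m) = 1 := by
      have h4 := prodV_parseval e φ (fun i v => (hM i).onb.pars v) (ψ m)
      have h5 : nsq (ψ m) = 1 := hψ.norm m
      rw [h5] at h4
      exact h4
    rw [h3, mul_one]
  have hz : ∀ (K : (Fin d → Fin (2 ^ (J - j))) → (Site d j → Bool)) (m : Site d J → Bool)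
      (i : Fin d → Fin (2 ^ (J - j))), r i (K i) = 0 → lam m * p (K, m) = 0 := by
    intro K m i hi
    have h1 := hmarg i (K i)
    rw [hi] at h1
    have h2 := (Finset.sum_eq_zero_iff_of_nonneg (fun m _ => mul_nonneg (hlam m)
      (Finset.sum_nonneg fun K' _ => by split_ifs <;> positivity))).1 h1 m (Finset.mem_univ _)
    rcases mul_eq_zero.1 h2 with h3 | h3
    · rw [h3, zero_mul]
    · have h4 := (Finset.sum_eq_zero_iff_of_nonneg (fun K' _ => by
        split_ifs <;> positivity)).1 h3 K (Finset.mem_univ _)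
      rw [if_pos rfl] at h4
      have : p (K, m) = 0 := h4
      rw [this, mul_zero]
  have hJ := jensen_log p (fun t => lam t.2) (fun t => b t.1) hp0 (fun t => hlam _)
    (fun t => hb0 _) hsum (by
      rintro ⟨K, m⟩ hK
      simp only [hb] at hK
      obtain ⟨i, _, hi⟩ := Finset.prod_eq_zero_iff.1 hK
      exact hz K m i hi)
  have hbp : ∑ t : (((Fin d → Fin (2 ^ (J - j))) → (Site d j → Bool)) × (Site d J → Bool)),
      b t.1 * p t = 1 := by
    rw [Fintype.sum_prod_type]
    have h1 : ∀ K, ∑ m, b K * p (K, m) = b K := by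
      intro K
      rw [← Finset.mul_sum]
      have h2 : ∑ m, p (K, m) = 1 := by
        have h3 := hψ.pars' (prodV e φ K)
        have h4 : gns (prodV e φ K) = 1 := by
          have h5 := prodV_nsq e φ K
          have h6 : ∀ i, nsq (φ i (K i)) = 1 := fun i => (hM i).onb.norm (K i)
          rw [Finset.prod_congr rfl fun i _ => h6 i, Finset.prod_const_one] at h5
          exact h5
        rw [h4] at h3
        exact h3
      rw [h2, mul_one]
    rw [Finset.sum_congr rfl fun K _ => h1 K]
    simp only [hb]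
    have h2 := Finset.prod_univ_sum (fun _ : Fin d → Fin (2 ^ (J - j)) =>
      (univ : Finset (Site d j → Bool))) (fun i x => r i x)
    rw [Fintype.piFinset_univ] at h2
    rw [← h2]
    refine Finset.prod_eq_one fun i _ => ?_
    exact (hM i).total hj hψ hlam1
  rw [hbp, Real.log_one] at hJ
  -- the left side
  have hL : ∑ t : (((Fin d → Fin (2 ^ (J - j))) → (Site d j → Bool)) × (Site d J → Bool)),
      lam t.2 * p t * (Real.log (b t.1) - Real.log (lam t.2)) =
      ∑ i, ∑ k, r i k * Real.log (r i k) - ∑ m, lam m * Real.log (lam m) := by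
    have h1 : ∀ t : (((Fin d → Fin (2 ^ (J - j))) → (Site d j → Bool)) × (Site d J → Bool)),
        lam t.2 * p t * (Real.log (b t.1) - Real.log (lam t.2)) =
        ∑ i, lam t.2 * p t * Real.log (r i (t.1 i)) - lam t.2 * p t * Real.log (lam t.2) := by
      rintro ⟨K, m⟩
      rw [mul_sub, ← Finset.mul_sum]
      congr 1
      by_cases h0 : ∀ i, r i (K i) ≠ 0
      · simp only [hb]
        rw [Real.log_prod (fun i _ => h0 i)]
      · push Not at h0
        obtain ⟨i, hi⟩ := h0
        have := hz K m i hi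
        simp only
        rw [this, zero_mul, zero_mul]
    rw [Finset.sum_congr rfl fun t _ => h1 t, Finset.sum_sub_distrib]
    congr 1
    · rw [Finset.sum_comm]
      refine Finset.sum_congr rfl fun i _ => ?_
      rw [Fintype.sum_prod_type]
      have h2 : ∀ k, r i k * Real.log (r i k) = ∑ K : (Fin d → Fin (2 ^ (J - j))) →
          (Site d j → Bool), ∑ m, (if K i = k then lam m * p (K, m) * Real.log (r i (K i)) else 0) := by
        intro k
        conv_lhs => rw [← hmarg i k]
        rw [Finset.sum_mul, Finset.sum_comm]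
        refine Finset.sum_congr rfl fun m _ => ?_
        rw [Finset.mul_sum, Finset.sum_mul]
        refine Finset.sum_congr rfl fun K _ => ?_
        split_ifs with hK
        · rw [hmarg i k, hK]
        · simp
      rw [Finset.sum_congr rfl fun k _ => h2 k]
      refine Eq.trans ?_ Finset.sum_comm
      refine Finset.sum_congr rfl fun K _ => ?_
      refine Eq.trans ?_ Finset.sum_comm
      refine Finset.sum_congr rfl fun m _ => ?_
      rw [Finset.sum_ite_eq]
      simp
    · rw [Fintype.sum_prod_type_right]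
      refine Finset.sum_congr rfl fun m _ => ?_
      dsimp only
      rw [← Finset.sum_mul, ← Finset.mul_sum]
      have h3 : ∑ K, p (K, m) = 1 := by
        have h4 := prodV_parseval e φ (fun i v => (hM i).onb.pars v) (ψ m)
        have h5 : nsq (ψ m) = 1 := hψ.norm m
        rw [h5] at h4
        exact h4
      rw [h3, mul_one]
  rw [hL] at hJ
  linarith

/-- the subadditivity, averaged over the tilings -/
theorem subadd (hj : j ≤ J) {lam : (Site d J → Bool) → ℝ} (hlam : ∀ m, 0 ≤ lam m)
    (hlam1 : ∑ m, lam m = 1) {ψ : (Site d J → Bool) → WF (Site d J)} (hψ : ONB ψ)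
    (φ : Site d J → (Site d j → Bool) → WF (Site d j)) (r : Site d J → (Site d j → Bool) → ℝ)
    (hM : ∀ w, Marg lam ψ w (φ w) (r w)) :
    (1 / (2 : ℝ) ^ (d * j)) * ∑ w, ∑ k, r w k * Real.log (r w k) ≤
      ∑ m, lam m * Real.log (lam m) := by
  obtain ⟨e, h1, h2, h3⟩ := tile_exists (d := d) hj
  have h4 : ∀ w : Site d J, ∑ i : Fin d → Fin (2 ^ (J - j)),
      (fun w' => ∑ k, r w' k * Real.log (r w' k)) (w + e.symm (i, 0)) ≤
        ∑ m, lam m * Real.log (lam m) := by
    intro w
    exact subadd_one hj (shiftE e w) (fun i => w + e.symm (i, 0)) (fun i y => shiftE_emb e h2 w i y)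
      hlam hlam1 hψ (fun i => φ (w + e.symm (i, 0))) (fun i => r (w + e.symm (i, 0)))
      (fun i => hM _)
  have h5 := Finset.sum_le_sum (s := (univ : Finset (Site d J))) fun w _ => h4 w
  rw [Finset.sum_comm] at h5
  have h6 : ∀ i : Fin d → Fin (2 ^ (J - j)), ∑ w : Site d J,
      (fun w' => ∑ k, r w' k * Real.log (r w' k)) (w + e.symm (i, 0)) =
        ∑ w, ∑ k, r w k * Real.log (r w k) := fun i =>
    Equiv.sum_comp (Equiv.addRight (e.symm (i, 0))) (fun w' => ∑ k, r w' k * Real.log (r w' k))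
  rw [Finset.sum_congr rfl fun i _ => h6 i, Finset.sum_const, Finset.sum_const, Finset.card_univ,
    Finset.card_univ, nsmul_eq_mul, nsmul_eq_mul, ki_card_site] at h5
  have e3 : (Fintype.card (Fin d → Fin (2 ^ (J - j))) : ℝ) = 2 ^ (d * J) / 2 ^ (d * j) := by
    rw [Fintype.card_fun, Fintype.card_fin, Fintype.card_fin, eq_div_iff (by positivity)]
    push_cast
    rw [← pow_mul, ← pow_add]
    congr 1
    have := Nat.sub_add_cancel hj
    calc (J - j) * d + d * j = d * ((J - j) + j) := by ring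
      _ = d * J := by rw [this]
  rw [e3] at h5
  have hV : (0 : ℝ) < 2 ^ (d * J) := by positivity
  refine le_of_mul_le_mul_left (le_trans (le_of_eq ?_) h5) hV
  ring

end

end Pool.Agent.TH268.TB
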