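import Pool.Agent.H64R2.BEC.T2c
import Pool.Agent.TH268.TB.Basic

/-!
# The energy of a product state, with spectator sites
-/

set_option autoImplicit false

open Finset BigOperators

namespace Pool.Agent.TH268.TB

open Pool.Agent.H11R2.BEC Pool.Agent.H11R2.BEC.T2c

section

variable {d J : ℕ} {Λ' : Type} [Fintype Λ'] [DecidableEq Λ']

/-- averages over cubes -/
noncomputable def avI (ι : Site d J → Λ') (s : ℕ) (z : Site d J) (ψ : WF Λ') : WF Λ' :=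
  fun η => (1 / (2 : ℂ) ^ (d * s)) * ∑ u : Fin d → Fin (2 ^ s), low (ι (z + cu J u)) ψ η

noncomputable def cohI (ι : Site d J → Λ') (s : ℕ) (ψ : WF Λ') : ℝ :=
  (1 / (2 : ℝ) ^ (d * J)) * ∑ z : Site d J, nsq (avI ι s z ψ)

noncomputable def rhoI (ι : Site d J → Λ') (ψ : WF Λ') : ℝ :=
  (1 / (2 : ℝ) ^ (d * J)) * ∑ x : Site d J, pd ψ (ι x) (ι x)

noncomputable def mmI (ι : Site d J → Λ') (φ : WF Λ') (s : ℕ) (z : Site d J) : ℂ :=
  ip φ (avI ι s z φ)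

noncomputable def btI (ι : Site d J → Λ') (φ : WF Λ') : ℂ :=
  (1 / (2 : ℂ) ^ (d * J)) * ∑ x : Site d J, ip φ (low (ι x) φ)

theorem ip_avI (ι : Site d J → Λ') (s : ℕ) (z : Site d J) (φ χ : WF Λ') :
    ip χ (avI ι s z φ) =
      (1 / (2 : ℂ) ^ (d * s)) * ∑ u : Fin d → Fin (2 ^ s), ip χ (low (ι (z + cu J u)) φ) := by
  unfold avI
  rw [ip_smul, ip_sum]

theorem mmI_eq (ι : Site d J → Λ') (φ : WF Λ') (s : ℕ) (z : Site d J) :
    mmI ι φ s z = (1 / (2 : ℂ) ^ (d * s)) *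
      ∑ u : Fin d → Fin (2 ^ s), ip φ (low (ι (z + cu J u)) φ) := ip_avI ι s z φ φ

theorem mmI_large (ι : Site d J → Λ') (φ : WF Λ') {s : ℕ} (hs : J ≤ s) (z : Site d J) :
    mmI ι φ s z = btI ι φ := by
  rw [mmI_eq, avg_large hs z (fun x => ip φ (low (ι x) φ)), btI]
  have h1 : (2 : ℂ) ^ (d * s) = 2 ^ (d * J) * 2 ^ (d * (s - J)) := by
    rw [← pow_add, ← mul_add, Nat.add_sub_cancel' hs]
  rw [h1]
  have h2 : (2 : ℂ) ^ (d * J) ≠ 0 := pow_ne_zero _ two_ne_zero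
  have h3 : (2 : ℂ) ^ (d * (s - J)) ≠ 0 := pow_ne_zero _ two_ne_zero
  field_simp

theorem sum_mmI (ι : Site d J → Λ') (φ : WF Λ') (s : ℕ) :
    ∑ z : Site d J, mmI ι φ s z = (2 : ℂ) ^ (d * J) * btI ι φ := by
  simp only [mmI_eq]
  rw [← Finset.mul_sum, sum_cube (fun x => ip φ (low (ι x) φ)), btI]
  have h2 : (2 : ℂ) ^ (d * J) ≠ 0 := pow_ne_zero _ two_ne_zero
  have h3 : (2 : ℂ) ^ (d * s) ≠ 0 := pow_ne_zero _ two_ne_zero
  field_simp

theorem sum_mmI_sq (ι : Site d J → Λ') (φ : WF Λ') (s : ℕ) :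
    ∑ z : Site d J, ‖mmI ι φ s z - btI ι φ‖ ^ 2 =
      ∑ z : Site d J, ‖mmI ι φ s z‖ ^ 2 - (2 : ℝ) ^ (d * J) * ‖btI ι φ‖ ^ 2 := by
  have hC : ∀ (z : ℂ), ((‖z‖ ^ 2 : ℝ) : ℂ) = (starRingEnd ℂ) z * z := fun z => by
    rw [Complex.ofReal_pow, ← Complex.conj_mul']
  apply Complex.ofReal_injective
  rw [Complex.ofReal_sub, Complex.ofReal_mul, Complex.ofReal_sum, Complex.ofReal_sum]
  simp only [hC, map_sub]
  have h1 : ∀ z : Site d J, ((starRingEnd ℂ) (mmI ι φ s z) - (starRingEnd ℂ) (btI ι φ)) *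
      (mmI ι φ s z - btI ι φ) = (starRingEnd ℂ) (mmI ι φ s z) * mmI ι φ s z
        - (starRingEnd ℂ) (btI ι φ) * mmI ι φ s z - btI ι φ * (starRingEnd ℂ) (mmI ι φ s z)
        + (starRingEnd ℂ) (btI ι φ) * btI ι φ := fun z => by ring
  simp only [h1]
  rw [Finset.sum_add_distrib, Finset.sum_sub_distrib, Finset.sum_sub_distrib, ← Finset.mul_sum,
    ← Finset.mul_sum, ← map_sum, sum_mmI, Finset.sum_const, Finset.card_univ, nsmul_eq_mul]
  have h6 : ((Fintype.card (Site d J) : ℕ) : ℂ) = (2 : ℂ) ^ (d * J) := by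
    rw [Fintype.card_fun, ZMod.card, Fintype.card_fin]
    push_cast
    rw [← pow_mul, mul_comm]
  rw [h6, map_mul, map_pow]
  have h7 : (starRingEnd ℂ) (2 : ℂ) = 2 := Complex.conj_ofNat 2
  rw [h7]
  push_cast
  ring

theorem nsqI_diff_ge (ι : Site d J → Λ') (φ : WF Λ') (hφ : nsq φ = 1) (c : ℂ) {θ : ℝ} (hθ : 0 < θ)
    (s : ℕ) (z : Site d J) :
    (1 - θ) * nsq (fun η => avI ι s z φ η - avI ι J 0 φ η) -
      nsq (fun η => avI ι J 0 φ η - c * φ η) / θ ≤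
      nsq (fun η => avI ι s z φ η - btI ι φ * φ η) := by
  have h1 := nsq_add_ge (fun η => avI ι s z φ η - avI ι J 0 φ η)
    (fun η => avI ι J 0 φ η - btI ι φ * φ η) hθ
  have h2 : (fun η => (avI ι s z φ η - avI ι J 0 φ η) + (avI ι J 0 φ η - btI ι φ * φ η)) =
      fun η => avI ι s z φ η - btI ι φ * φ η := by
    funext η
    ring
  simp only [h2] at h1
  have h3 : nsq (fun η => avI ι J 0 φ η - btI ι φ * φ η) ≤
      nsq (fun η => avI ι J 0 φ η - c * φ η) := by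
    rw [nsq_sub φ _ hφ, nsq_sub φ _ hφ, ← mmI_large ι φ le_rfl 0]
    change _ - _ + ‖mmI ι φ J 0 - mmI ι φ J 0‖ ^ 2 ≤ _
    rw [sub_self, norm_zero]
    have : 0 ≤ ‖ip φ (avI ι J 0 φ) - c‖ ^ 2 := by positivity
    nlinarith
  have h4 : nsq (fun η => avI ι J 0 φ η - btI ι φ * φ η) / θ ≤
      nsq (fun η => avI ι J 0 φ η - c * φ η) / θ :=
    div_le_div_of_nonneg_right h3 hθ.le
  linarith

theorem btI_ge (ι : Site d J → Λ') (φ : WF Λ') (hφ : nsq φ = 1) (c : ℂ) :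
    nsq (avI ι J 0 φ) - nsq (fun η => avI ι J 0 φ η - c * φ η) ≤ ‖btI ι φ‖ ^ 2 := by
  rw [nsq_sub φ _ hφ, ← mmI_large ι φ le_rfl 0]
  change _ ≤ ‖ip φ (avI ι J 0 φ)‖ ^ 2
  have : 0 ≤ ‖ip φ (avI ι J 0 φ) - c‖ ^ 2 := by positivity
  linarith

/-- weights -/
noncomputable def wtI (ι : Site d J → Λ') (s : ℕ) (z : Site d J) (x : Λ') : ℝ :=
  (1 / (2 : ℝ) ^ (d * s)) * ∑ u : Fin d → Fin (2 ^ s), if ι (z + cu J u) = x then 1 else 0

theorem sum_wtI (ι : Site d J → Λ') (s : ℕ) (z : Site d J) (F : Λ' → ℂ) :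
    ∑ x, (wtI ι s z x : ℂ) * F x =
      (1 / (2 : ℂ) ^ (d * s)) * ∑ u : Fin d → Fin (2 ^ s), F (ι (z + cu J u)) := by
  unfold wtI
  push_cast
  rw [Finset.mul_sum]
  simp only [mul_assoc, Finset.sum_mul, Finset.mul_sum]
  rw [Finset.sum_comm]
  refine Finset.sum_congr rfl fun u _ => ?_
  rw [Finset.sum_eq_single (ι (z + cu J u))]
  · simp
  · intro x _ hx
    rw [if_neg (fun h => hx h.symm)]
    simp
  · intro h
    exact absurd (Finset.mem_univ _) h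

theorem avI_eq_lowU (ι : Site d J → Λ') (φ : WF Λ') (s : ℕ) (z : Site d J) :
    avI ι s z φ = lowU (wtI ι s z) φ := by
  funext η
  unfold lowU
  rw [sum_wtI ι s z (fun x => low x φ η)]
  rfl

end

section big

variable {d J j : ℕ} {Λ' Q' : Type} [Fintype Λ'] [DecidableEq Λ'] [Fintype Q'] [DecidableEq Q']
variable (hj : j ≤ J) (e : Site d J ≃ (Fin d → Fin (2 ^ (J - j))) × Site d j)
  (h1 : ∀ x, (e x).2 = red j x)
  (h2 : ∀ (i : Fin d → Fin (2 ^ (J - j))) (z : Site d j) (s : ℕ) (u : Fin d → Fin (2 ^ s)),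
        (∀ ν, (z ν).val + (u ν : ℕ) < 2 ^ j) →
          e.symm (i, z) + cu J u = e.symm (i, z + cu j u))
  (ι : Site d J → Λ') (κ : Site d j → Q') (e' : Λ' ≃ (Fin d → Fin (2 ^ (J - j))) × Q')
  (H : ∀ x, e' (ι x) = ((e x).1, κ (e x).2))
  (φ : WF Q') (hφ : nsq φ = 1)

include H in
theorem symmI (i : Fin d → Fin (2 ^ (J - j))) (y : Site d j) :
    e'.symm (i, κ y) = ι (e.symm (i, y)) := by
  rw [Equiv.symm_apply_eq, H]
  simp

include hj h1 H hφ in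
theorem ip_bigI (s : ℕ) (z : Site d J) :
    ip (prodSt e' φ) (avI ι s z (prodSt e' φ)) = mmI κ φ s (red j z) := by
  rw [ip_avI, mmI_eq]
  congr 1
  rw [← avg_small hj z (fun x => ip φ (low (κ x) φ))]
  refine Finset.sum_congr rfl fun u _ => ?_
  rw [prodSt_low e' φ hφ, H, h1]

include h1 h2 H hφ in
theorem nsq_bigI (s : ℕ) (z : Site d J) (hz : red j z ∈ inn j s) :
    nsq (avI ι s z (prodSt e' φ)) = nsq (avI κ s (red j z) φ) := by
  rw [avI_eq_lowU κ φ s (red j z), ← prodSt_tile e' φ hφ (e z).1]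
  congr 1
  funext η
  rw [sum_wtI κ s (red j z) (fun x => low (e'.symm ((e z).1, x)) (prodSt e' φ) η)]
  unfold avI
  congr 1
  refine Finset.sum_congr rfl fun u _ => ?_
  rw [symmI e ι κ e' H, ← h2 (e z).1 (red j z) s u, symm_red e h1]
  intro ν
  have h3 := (Finset.mem_filter.1 hz).2 ν
  have h4 := (u ν).isLt
  omega

include hj h1 H hφ in
theorem cohI_large {s : ℕ} (hs : j ≤ s) : ‖btI κ φ‖ ^ 2 ≤ cohI ι s (prodSt e' φ) := by
  unfold cohI
  have h3 : ∀ z : Site d J, ‖btI κ φ‖ ^ 2 ≤ nsq (avI ι s z (prodSt e' φ)) := fun z => by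
    rw [← mmI_large κ φ hs (red j z), ← ip_bigI hj e h1 ι κ e' H φ hφ s z]
    exact cs _ _ (prodSt_nsq e' φ hφ)
  have h4 := Finset.sum_le_sum fun z (_ : z ∈ (Finset.univ : Finset (Site d J))) => h3 z
  rw [Finset.sum_const, Finset.card_univ, nsmul_eq_mul] at h4
  have h6 : ((Fintype.card (Site d J) : ℕ) : ℝ) = (2 : ℝ) ^ (d * J) := by
    rw [Fintype.card_fun, ZMod.card, Fintype.card_fin]
    push_cast
    rw [← pow_mul, mul_comm]
  rw [h6] at h4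
  have h7 : (0 : ℝ) < (2 : ℝ) ^ (d * J) := by positivity
  rw [one_div, inv_mul_eq_div, le_div_iff₀ h7, mul_comm]
  exact h4

include hj h1 h2 H hφ in
theorem cohI_small (s : ℕ) :
    ‖btI κ φ‖ ^ 2 + (1 / (2 : ℝ) ^ (d * j)) *
      ∑ z ∈ inn j s, nsq (fun η => avI κ s z φ η - btI κ φ * φ η)
      ≤ cohI ι s (prodSt e' φ) := by
  classical
  set h : Site d j → ℝ := fun w => if w ∈ inn j s then nsq (avI κ s w φ) else ‖mmI κ φ s w‖ ^ 2
    with hh
  have h3 : ∀ z : Site d J, h (red j z) ≤ nsq (avI ι s z (prodSt e' φ)) := fun z => by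
    simp only [hh]
    split_ifs with hz
    · exact (nsq_bigI e h1 h2 ι κ e' H φ hφ s z hz).ge
    · rw [← ip_bigI hj e h1 ι κ e' H φ hφ s z]
      exact cs _ _ (prodSt_nsq e' φ hφ)
  have h4 := Finset.sum_le_sum fun z (_ : z ∈ (Finset.univ : Finset (Site d J))) => h3 z
  rw [sum_red hj h] at h4
  have h5 : (2 : ℝ) ^ (d * J) = 2 ^ (d * j) * 2 ^ (d * (J - j)) := by
    rw [← pow_add, ← mul_add, Nat.add_sub_cancel' hj]
  have h7 : (0 : ℝ) < (2 : ℝ) ^ (d * j) := by positivity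
  have h8 : (0 : ℝ) < (2 : ℝ) ^ (d * (J - j)) := by positivity
  have h9 : (1 / (2 : ℝ) ^ (d * j)) * ∑ w : Site d j, h w ≤ cohI ι s (prodSt e' φ) := by
    unfold cohI
    rw [h5, one_div, one_div, inv_mul_eq_div, inv_mul_eq_div, div_le_div_iff₀ h7 (by positivity)]
    nlinarith
  refine le_trans ?_ h9
  have h10 : ∑ w : Site d j, h w = ∑ w : Site d j, ‖mmI κ φ s w‖ ^ 2 +
      ∑ w ∈ inn j s, (nsq (avI κ s w φ) - ‖mmI κ φ s w‖ ^ 2) := by
    have h11 : ∑ w ∈ inn j s, (nsq (avI κ s w φ) - ‖mmI κ φ s w‖ ^ 2) =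
        ∑ w : Site d j, if w ∈ inn j s then nsq (avI κ s w φ) - ‖mmI κ φ s w‖ ^ 2 else 0 := by
      rw [Finset.sum_ite_mem, Finset.univ_inter]
    rw [h11, ← Finset.sum_add_distrib]
    refine Finset.sum_congr rfl fun w _ => ?_
    simp only [hh]
    split_ifs <;> ring
  have h12 := sum_mmI_sq κ φ s
  have h13 : ∑ w ∈ inn j s, ‖mmI κ φ s w - btI κ φ‖ ^ 2 ≤
      ∑ z : Site d j, ‖mmI κ φ s z - btI κ φ‖ ^ 2 :=
    Finset.sum_le_sum_of_subset_of_nonneg (Finset.subset_univ _) fun _ _ _ => by positivity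
  have h14 : ∑ w ∈ inn j s, nsq (fun η => avI κ s w φ η - btI κ φ * φ η) =
      ∑ w ∈ inn j s, (nsq (avI κ s w φ) - ‖mmI κ φ s w‖ ^ 2) +
        ∑ w ∈ inn j s, ‖mmI κ φ s w - btI κ φ‖ ^ 2 := by
    rw [← Finset.sum_add_distrib]
    refine Finset.sum_congr rfl fun w _ => ?_
    rw [nsq_sub φ _ hφ]
    rfl
  have h15 : (2 : ℝ) ^ (d * j) * ‖btI κ φ‖ ^ 2 +
      ∑ z ∈ inn j s, nsq (fun η => avI κ s z φ η - btI κ φ * φ η) ≤ ∑ w : Site d j, h w := by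
    rw [h14, h10]
    linarith
  calc ‖btI κ φ‖ ^ 2 + (1 / (2 : ℝ) ^ (d * j)) *
        ∑ z ∈ inn j s, nsq (fun η => avI κ s z φ η - btI κ φ * φ η)
      = (1 / (2 : ℝ) ^ (d * j)) * ((2 : ℝ) ^ (d * j) * ‖btI κ φ‖ ^ 2 +
      ∑ z ∈ inn j s, nsq (fun η => avI κ s z φ η - btI κ φ * φ η)) := by
        field_simp
    _ ≤ _ := mul_le_mul_of_nonneg_left h15 (by positivity)

include hj h1 H hφ in
theorem rhoI_big : rhoI ι (prodSt e' φ) = rhoI κ φ := by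
  unfold rhoI
  rw [← mean_red hj fun x => pd φ (κ x) (κ x)]
  congr 1
  refine Finset.sum_congr rfl fun z _ => ?_
  rw [← prodSt_pd e' φ hφ (e z).1 (κ (red j z)) (κ (red j z)), symmI e ι κ e' H,
    symm_red e h1]

include h1 h2 H in
/-- the energy of the product of copies of `φ` -/
theorem trialI_one {q μ : ℝ} (hq0 : 0 ≤ q) (hq1 : q ≤ 1) (hφ' : nsq φ = 1) (c : ℂ) {θ : ℝ}
    (hθ : 0 < θ) (hj : j ≤ J) :
    - (∑ s ∈ range (J + 1), cf q J s * cohI ι s (prodSt e' φ)) - μ * rhoI ι (prodSt e' φ) ≤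
      - nsq (avI κ j 0 φ) + nsq (fun η => avI κ j 0 φ η - c * φ η)
      - ∑ s ∈ range j, cf q J s * ((1 / (2 : ℝ) ^ (d * j)) * ∑ z ∈ inn j s,
          ((1 - θ) * nsq (fun η => avI κ s z φ η - avI κ j 0 φ η)
            - nsq (fun η => avI κ j 0 φ η - c * φ η) / θ))
      - μ * rhoI κ φ := by
  rw [rhoI_big hj e h1 ι κ e' H φ hφ']
  set P : ℝ := nsq (avI κ j 0 φ) - nsq (fun η => avI κ j 0 φ η - c * φ η) with hP
  set X : ℕ → ℝ := fun s => (1 / (2 : ℝ) ^ (d * j)) * ∑ z ∈ inn j s,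
          ((1 - θ) * nsq (fun η => avI κ s z φ η - avI κ j 0 φ η)
            - nsq (fun η => avI κ j 0 φ η - c * φ η) / θ) with hX
  have hbt : P ≤ ‖btI κ φ‖ ^ 2 := btI_ge κ φ hφ' c
  have hcoh : ∀ s, P + (if s < j then X s else 0) ≤ cohI ι s (prodSt e' φ) := by
    intro s
    split_ifs with hs
    · refine le_trans ?_ (cohI_small hj e h1 h2 ι κ e' H φ hφ' s)
      refine add_le_add hbt (mul_le_mul_of_nonneg_left ?_ (by positivity))
      exact Finset.sum_le_sum fun z _ => nsqI_diff_ge κ φ hφ' c hθ s z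
    · rw [add_zero]
      exact hbt.trans (cohI_large hj e h1 ι κ e' H φ hφ' (not_lt.1 hs))
  have hsum : P + ∑ s ∈ range j, cf q J s * X s ≤
      ∑ s ∈ range (J + 1), cf q J s * cohI ι s (prodSt e' φ) := by
    have h4 : ∑ s ∈ range (J + 1), cf q J s * (P + (if s < j then X s else 0)) ≤
        ∑ s ∈ range (J + 1), cf q J s * cohI ι s (prodSt e' φ) :=
      Finset.sum_le_sum fun s _ => mul_le_mul_of_nonneg_left (hcoh s) (cf_nonneg hq0 hq1 J s)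
    refine le_trans (le_of_eq ?_) h4
    simp only [mul_add]
    rw [Finset.sum_add_distrib, ← Finset.sum_mul, cf_sum, one_mul]
    congr 1
    have h5 : Finset.range j ⊆ Finset.range (J + 1) := by
      intro s hs
      rw [Finset.mem_range] at hs ⊢
      omega
    rw [← Finset.sum_subset h5]
    · refine Finset.sum_congr rfl fun s hs => ?_
      rw [if_pos (Finset.mem_range.1 hs)]
    · intro s _ hs
      rw [if_neg (fun h => hs (Finset.mem_range.2 h)), mul_zero]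
  linarith

end big

end Pool.Agent.TH268.TB
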