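import Pool.Agent.TH268.TB.Slice
import Pool.Agent.TH268.TB.Spec

/-!
# The Gibbs variational principle for a product of mixtures
-/

set_option autoImplicit false

open Finset BigOperators

namespace Pool.Agent.TH268.TB

open Pool.Agent.H11R2.BEC Pool.Agent.H11R2.BEC.T2c

/-- the right side of the trial inequality -/
noncomputable def rhs {d j : ℕ} (q μ θ : ℝ) (J : ℕ) (c : ℂ) (χ : WF (Site d j)) : ℝ :=
  - nsq (av j 0 χ) + nsq (fun η => av j 0 χ η - c * χ η)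
      - ∑ s ∈ range j, cf q J s * ((1 / (2 : ℝ) ^ (d * j)) * ∑ z ∈ inn j s,
          ((1 - θ) * nsq (fun η => av s z χ η - av j 0 χ η)
            - nsq (fun η => av j 0 χ η - c * χ η) / θ))
      - μ * rho χ

theorem rhs_smul {d j : ℕ} (q μ θ : ℝ) (J : ℕ) (c : ℂ) (a : ℂ) (χ : WF (Site d j)) :
    rhs q μ θ J c (fun η => a * χ η) = ‖a‖ ^ 2 * rhs q μ θ J c χ := by
  have e2 : nsq (av j 0 (fun η => a * χ η)) = ‖a‖ ^ 2 * nsq (av j 0 χ) := by
    rw [av_smul, nsq_smul]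
  have e3 : nsq (fun η => av j 0 (fun η => a * χ η) η - c * (a * χ η)) =
      ‖a‖ ^ 2 * nsq (fun η => av j 0 χ η - c * χ η) := by
    rw [← nsq_smul, av_smul]
    congr 1
    funext η
    ring
  have e4 : ∀ s z, nsq (fun η => av s z (fun η => a * χ η) η - av j 0 (fun η => a * χ η) η) =
      ‖a‖ ^ 2 * nsq (fun η => av s z χ η - av j 0 χ η) := by
    intro s z
    rw [← nsq_smul, av_smul, av_smul]
    congr 1
    funext η
    ring
  have e7 : ∑ s ∈ range j, cf q J s * ((1 / (2 : ℝ) ^ (d * j)) * ∑ z ∈ inn j s,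
        ((1 - θ) * nsq (fun η => av s z (fun η => a * χ η) η - av j 0 (fun η => a * χ η) η)
          - nsq (fun η => av j 0 (fun η => a * χ η) η - c * (a * χ η)) / θ)) = ‖a‖ ^ 2 *
      ∑ s ∈ range j, cf q J s * ((1 / (2 : ℝ) ^ (d * j)) * ∑ z ∈ inn j s,
        ((1 - θ) * nsq (fun η => av s z χ η - av j 0 χ η)
          - nsq (fun η => av j 0 χ η - c * χ η) / θ)) := by
    rw [Finset.mul_sum]
    refine Finset.sum_congr rfl fun s _ => ?_
    rw [mul_left_comm (‖a‖ ^ 2) (cf q J s), mul_left_comm (‖a‖ ^ 2) (1 / (2 : ℝ) ^ (d * j)),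
      Finset.mul_sum (inn j s) _ (‖a‖ ^ 2)]
    congr 2
    refine Finset.sum_congr rfl fun z _ => ?_
    rw [e4, e3]
    ring
  unfold rhs
  rw [e7, e2, e3, rho_smul]
  ring

theorem rhs_slice {d j : ℕ} {R : Type} [Fintype R] [DecidableEq R] (q μ θ : ℝ) (J : ℕ) (c : ℂ)
    (Φ : WF (Site d j ⊕ R)) :
    - nsq (avI Sum.inl j 0 Φ) + nsq (fun η => avI Sum.inl j 0 Φ η - c * Φ η)
      - ∑ s ∈ range j, cf q J s * ((1 / (2 : ℝ) ^ (d * j)) * ∑ z ∈ inn j s,
          ((1 - θ) * nsq (fun η => avI Sum.inl s z Φ η - avI Sum.inl j 0 Φ η)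
            - nsq (fun η => avI Sum.inl j 0 Φ η - c * Φ η) / θ))
      - μ * rhoI Sum.inl Φ = ∑ ξ : R → Bool, rhs q μ θ J c (slice ξ Φ) := by
  unfold rhs
  rw [Finset.sum_sub_distrib, Finset.sum_sub_distrib, Finset.sum_add_distrib,
    Finset.sum_neg_distrib, ← Finset.mul_sum, ← slice_rhoI, ← slice_diff2]
  have e1 : nsq (avI Sum.inl j 0 Φ) = ∑ ξ : R → Bool, nsq (av j 0 (slice ξ Φ)) := by
    rw [slice_nsq]
    exact Finset.sum_congr rfl fun ξ _ => by rw [slice_avI]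
  rw [e1]
  congr 2
  rw [Finset.sum_comm]
  refine Finset.sum_congr rfl fun s _ => ?_
  rw [← Finset.mul_sum, ← Finset.mul_sum, Finset.sum_comm]
  congr 2
  refine Finset.sum_congr rfl fun z _ => ?_
  rw [Finset.sum_sub_distrib, ← Finset.mul_sum, ← slice_diff, ← Finset.sum_div, ← slice_diff2]

theorem en_smul {d J : ℕ} (q μ : ℝ) (a : ℂ) (φ : WF (Site d J)) :
    en q 0 μ (fun η => a * φ η) = ‖a‖ ^ 2 * en q 0 μ φ := by
  unfold en
  rw [rho_smul]
  have h1 : ∑ s ∈ range (J + 1), cf q J s * coh s (fun η => a * φ η) =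
      ‖a‖ ^ 2 * ∑ s ∈ range (J + 1), cf q J s * coh s φ := by
    rw [Finset.mul_sum]
    refine Finset.sum_congr rfl fun s _ => ?_
    rw [coh_smul]; ring
  rw [h1]
  ring

theorem en_slice {d J : ℕ} {R : Type} [Fintype R] [DecidableEq R] (q μ : ℝ)
    (Ψ : WF (Site d J ⊕ R)) :
    - (∑ s ∈ range (J + 1), cf q J s * cohI Sum.inl s Ψ) - μ * rhoI Sum.inl Ψ =
      ∑ ξ : R → Bool, en q 0 μ (slice ξ Ψ) := by
  unfold en
  simp only [zero_mul, add_zero]
  rw [Finset.sum_sub_distrib, Finset.sum_neg_distrib, ← Finset.mul_sum, ← slice_rhoI]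
  congr 2
  rw [Finset.sum_comm]
  refine Finset.sum_congr rfl fun s _ => ?_
  rw [slice_cohI, Finset.mul_sum]

theorem jensen_pos {T : Type} [Fintype T] (p a b : T → ℝ) (hp : ∀ t, 0 ≤ p t)
    (h1 : ∑ t, a t * p t = 1) (h0 : ∀ t, 0 < b t) : 0 < ∑ t, b t * p t := by
  have hnn : 0 ≤ ∑ t, b t * p t := Finset.sum_nonneg fun t _ => mul_nonneg (h0 t).le (hp t)
  rcases hnn.eq_or_lt with h | h
  · exfalso
    have h2 := (Finset.sum_eq_zero_iff_of_nonneg (fun t _ => mul_nonneg (h0 t).le (hp t))).1 h.symm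
    have h3 : ∑ t, a t * p t = 0 := by
      apply Finset.sum_eq_zero
      intro t ht
      rcases mul_eq_zero.1 (h2 t ht) with h4 | h4
      · exact absurd h4 (h0 t).ne'
      · rw [h4, mul_zero]
    rw [h3] at h1
    norm_num at h1
  · exact h

/-- Gibbs variational principle for a Bessel family -/
theorem gibbs_lower {X M K : Type} [Fintype X] [Fintype M] [Fintype K] {ψ : M → X → ℂ}
    (hψ : ONB ψ) (E : M → ℝ) (β : ℝ) (χ : K → X → ℂ) (w : K → ℝ) (hw : ∀ k, 0 ≤ w k)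
    (h1 : ∑ k, w k * gns (χ k) = 1) (hB : ∀ v, ∑ k, ‖gip (χ k) v‖ ^ 2 ≤ gns v) :
    - (β * ∑ k, w k * ∑ m, E m * ‖gip (ψ m) (χ k)‖ ^ 2) - ∑ k, w k * gns (χ k) * Real.log (w k) ≤
      Real.log (∑ m, Real.exp (-(β * E m))) := by
  have hsum : ∑ t : K × M, w t.1 * ‖gip (ψ t.2) (χ t.1)‖ ^ 2 = 1 := by
    rw [Fintype.sum_prod_type, ← h1]
    refine Finset.sum_congr rfl fun k _ => ?_
    dsimp only
    rw [← Finset.mul_sum, hψ.pars]
  have hJ := jensen_log (T := K × M) (fun t => ‖gip (ψ t.2) (χ t.1)‖ ^ 2) (fun t => w t.1)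
    (fun t => Real.exp (-(β * E t.2))) (fun _ => by positivity) (fun t => hw t.1)
    (fun _ => (Real.exp_pos _).le) hsum (fun t h => absurd h (Real.exp_pos _).ne')
  have hpos := jensen_pos (T := K × M) (fun t => ‖gip (ψ t.2) (χ t.1)‖ ^ 2) (fun t => w t.1)
    (fun t => Real.exp (-(β * E t.2))) (fun _ => by positivity) hsum (fun _ => Real.exp_pos _)
  have h2 : ∑ t : K × M, Real.exp (-(β * E t.2)) * ‖gip (ψ t.2) (χ t.1)‖ ^ 2 ≤
      ∑ m, Real.exp (-(β * E m)) := by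
    rw [Fintype.sum_prod_type_right]
    refine Finset.sum_le_sum fun m _ => ?_
    dsimp only
    rw [← Finset.mul_sum]
    have h3 : ∑ k, ‖gip (ψ m) (χ k)‖ ^ 2 ≤ 1 := by
      rw [← hψ.norm m]
      refine le_trans (le_of_eq ?_) (hB (ψ m))
      exact Finset.sum_congr rfl fun k _ => by rw [gip_norm_comm]
    calc _ ≤ Real.exp (-(β * E m)) * 1 := mul_le_mul_of_nonneg_left h3 (Real.exp_pos _).le
      _ = _ := mul_one _
  refine le_trans (le_of_eq ?_) (hJ.trans (Real.log_le_log hpos h2))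
  simp only [Real.log_exp]
  rw [Fintype.sum_prod_type, Finset.mul_sum, ← Finset.sum_neg_distrib, ← Finset.sum_sub_distrib]
  refine Finset.sum_congr rfl fun k _ => ?_
  simp only [mul_sub, Finset.sum_sub_distrib]
  rw [← Finset.sum_mul, ← Finset.mul_sum, hψ.pars]
  congr 1
  rw [Finset.mul_sum, Finset.mul_sum, ← Finset.sum_neg_distrib]
  refine Finset.sum_congr rfl fun m _ => ?_
  ring

/-- the entropy of the product weights -/
theorem log_prod_weights {I X : Type} [Fintype I] [DecidableEq I] [Fintype X] [DecidableEq X]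
    (f n : X → ℝ) (hf : ∑ x, f x * n x = 1) :
    ∑ K : I → X, (∏ i, f (K i)) * (∏ i, n (K i)) * Real.log (∏ i, f (K i)) =
      Fintype.card I * ∑ x, f x * n x * Real.log (f x) := by
  rw [← sum_prod_sum (fun x => f x * n x) (fun x => Real.log (f x)) hf]
  refine Finset.sum_congr rfl fun K _ => ?_
  rw [Finset.prod_mul_distrib]
  by_cases h : ∀ i, f (K i) ≠ 0
  · rw [Real.log_prod (fun i _ => h i)]
  · push Not at h
    obtain ⟨i, hi⟩ := h
    have : ∏ i, f (K i) = 0 := Finset.prod_eq_zero (Finset.mem_univ i) hi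
    rw [this]
    simp

theorem trialT {d J j : ℕ} (hj : j ≤ J) {q μ β : ℝ} (hq0 : 0 ≤ q) (hq1 : q ≤ 1) (hβ : 0 < β)
    {ψ : (Site d J → Bool) → WF (Site d J)} {E : (Site d J → Bool) → ℝ} (hψ : ONB ψ)
    (hE : ∀ χ : WF (Site d J), (2 : ℝ) ^ (d * J) * en q 0 μ χ = ∑ m, E m * ‖gip (ψ m) χ‖ ^ 2)
    (χ : (Site d j → Bool) → WF (Site d j)) (r : (Site d j → Bool) → ℝ) (hr : ∀ k, 0 ≤ r k)
    (P : ℝ) (hP : ∑ k, r k * nsq (χ k) = P) (hP0 : 0 < P)
    (hB : ∀ v, ∑ k, ‖ip (χ k) v‖ ^ 2 ≤ nsq v) (c : ℂ) {θ : ℝ} (hθ : 0 < θ) :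
    - (β * ∑ k, r k * rhs q μ θ J c (χ k)) - (1 / (2 : ℝ) ^ (d * j)) *
        (∑ k, r k * nsq (χ k) * Real.log (r k) - P * Real.log P) ≤
      P * (Real.log (∑ m, Real.exp (-(β * E m))) / 2 ^ (d * J)) := by
  classical
  obtain ⟨e, h1, h2, h3⟩ := tile_exists (d := d) hj
  set V : ℝ := (2 : ℝ) ^ (d * J) with hV
  have hV0 : 0 < V := by positivity
  -- the spectators
  let e' : Site d J ⊕ ((Fin d → Fin (2 ^ (J - j))) × Site d j) ≃
      (Fin d → Fin (2 ^ (J - j))) × (Site d j ⊕ Site d j) :=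
    (Equiv.sumCongr e (Equiv.refl _)).trans (Equiv.prodSumDistrib _ _ _).symm
  have H : ∀ x, e' (Sum.inl x) = ((e x).1, Sum.inl (e x).2) := fun x => rfl
  let Φ : WF (Site d j ⊕ Site d j) := fun ω =>
    ((Real.sqrt (r (fun y => ω (Sum.inr y)) / P) : ℝ) : ℂ) *
      χ (fun y => ω (Sum.inr y)) (fun y => ω (Sum.inl y))
  have hslice : ∀ ξ : Site d j → Bool, slice ξ Φ =
      fun η => ((Real.sqrt (r ξ / P) : ℝ) : ℂ) * χ ξ η := fun ξ => rfl
  have hnorm : ∀ x : ℝ, 0 ≤ x → ‖((Real.sqrt x : ℝ) : ℂ)‖ ^ 2 = x := by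
    intro x hx
    rw [Complex.norm_real, Real.norm_eq_abs, sq_abs, Real.sq_sqrt hx]
  have hrP : ∀ ξ, 0 ≤ r ξ / P := fun ξ => div_nonneg (hr ξ) hP0.le
  have hΦ : nsq Φ = 1 := by
    rw [slice_nsq]
    have : ∀ ξ : Site d j → Bool, nsq (slice ξ Φ) = r ξ * nsq (χ ξ) / P := by
      intro ξ
      rw [hslice, nsq_smul, hnorm _ (hrP ξ)]; ring
    rw [Finset.sum_congr rfl fun ξ _ => this ξ, ← Finset.sum_div, hP, div_self hP0.ne']
  set Ψ := prodSt e' Φ with hΨ
  -- the slices of the product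
  let K : ((Fin d → Fin (2 ^ (J - j))) × Site d j → Bool) →
    ((Fin d → Fin (2 ^ (J - j))) → (Site d j → Bool)) := fun ξ i y => ξ (i, y)
  have hsl : ∀ ξ, slice ξ Ψ = fun η => ((∏ i, Real.sqrt (r (K ξ i) / P) : ℝ) : ℂ) *
      prodV e (fun _ => χ) (K ξ) η := by
    intro ξ
    funext η
    change prodSt e' Φ (Sum.elim η ξ) = _
    unfold prodSt prodV
    rw [Complex.ofReal_prod, ← Finset.prod_mul_distrib]
    rfl
  let w : ((Fin d → Fin (2 ^ (J - j))) → (Site d j → Bool)) → ℝ := fun k => ∏ i, (r (k i) / P)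
  have hw0 : ∀ k, 0 ≤ w k := fun k => Finset.prod_nonneg fun i _ => hrP _
  have hwn : ∀ ξ, ‖((∏ i, Real.sqrt (r (K ξ i) / P) : ℝ) : ℂ)‖ ^ 2 = w (K ξ) := by
    intro ξ
    rw [Complex.norm_real, Real.norm_eq_abs, sq_abs, ← Finset.prod_pow]
    exact Finset.prod_congr rfl fun i _ => Real.sq_sqrt (hrP _)
  have hsumK : ∀ F : ((Fin d → Fin (2 ^ (J - j))) → (Site d j → Bool)) → ℝ,
      ∑ ξ : (Fin d → Fin (2 ^ (J - j))) × Site d j → Bool, F (K ξ) = ∑ k, F k := fun F =>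
    Equiv.sum_comp (Equiv.curry (Fin d → Fin (2 ^ (J - j))) (Site d j) Bool) F
  have hN : ∑ k, w k * gns (prodV e (fun _ => χ) k) = 1 := by
    have h4 : nsq Ψ = 1 := prodSt_nsq e' Φ hΦ
    rw [slice_nsq] at h4
    rw [← hsumK, ← h4]
    refine Finset.sum_congr rfl fun ξ _ => ?_
    rw [hsl, nsq_smul, hwn]
    rfl
  have hbes : ∀ v : WF (Site d J), ∑ k, ‖gip (prodV e (fun _ => χ) k) v‖ ^ 2 ≤ gns v :=
    fun v => prodV_bessel e (fun _ => χ) (fun _ => hB) v
  have hG := gibbs_lower hψ E β (prodV e (fun _ => χ)) w hw0 hN hbes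
  -- the energy
  have hen : ∑ k, w k * ∑ m, E m * ‖gip (ψ m) (prodV e (fun _ => χ) k)‖ ^ 2 ≤
      V * (1 / P * ∑ k, r k * rhs q μ θ J c (χ k)) := by
    have e1 : ∑ k, w k * ∑ m, E m * ‖gip (ψ m) (prodV e (fun _ => χ) k)‖ ^ 2 =
        V * ∑ ξ, en q 0 μ (slice ξ Ψ) := by
      rw [← hsumK, Finset.mul_sum]
      refine Finset.sum_congr rfl fun ξ _ => ?_
      rw [← hE, hsl, en_smul, hwn]
      ring
    have e2 := trialI_one e h1 h2 Sum.inl Sum.inl e' H Φ (q := q) (μ := μ) hq0 hq1 hΦ c hθ hj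
    rw [rhs_slice, en_slice] at e2
    have e3 : ∑ ξ : Site d j → Bool, rhs q μ θ J c (slice ξ Φ) =
        1 / P * ∑ k, r k * rhs q μ θ J c (χ k) := by
      rw [Finset.mul_sum]
      refine Finset.sum_congr rfl fun ξ _ => ?_
      rw [hslice, rhs_smul, hnorm _ (hrP ξ)]
      ring
    rw [e1, ← e3]
    exact mul_le_mul_of_nonneg_left e2 hV0.le
  -- the entropy
  have hent : ∑ k, w k * gns (prodV e (fun _ => χ) k) * Real.log (w k) =
      (V / 2 ^ (d * j)) * (1 / P * (∑ k, r k * nsq (χ k) * Real.log (r k) - P * Real.log P)) := by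
    have e1 : ∀ k, gns (prodV e (fun _ => χ) k) = ∏ i, nsq (χ (k i)) := fun k =>
      prodV_nsq e (fun _ => χ) k
    have e2 := log_prod_weights (I := Fin d → Fin (2 ^ (J - j))) (fun k => r k / P)
      (fun k => nsq (χ k)) (by
        have : ∀ x, r x / P * nsq (χ x) = r x * nsq (χ x) / P := fun x => by ring
        rw [Finset.sum_congr rfl fun x _ => this x, ← Finset.sum_div, hP, div_self hP0.ne'])
    simp only [e1]
    rw [e2]
    have e3 : (Fintype.card (Fin d → Fin (2 ^ (J - j))) : ℝ) = V / 2 ^ (d * j) := by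
      rw [Fintype.card_fun, Fintype.card_fin, Fintype.card_fin, eq_div_iff (by positivity)]
      push_cast
      rw [hV, ← pow_mul, ← pow_add]
      congr 1
      have := Nat.sub_add_cancel hj
      calc (J - j) * d + d * j = d * ((J - j) + j) := by ring
        _ = d * J := by rw [this]
    rw [e3]
    congr 1
    rw [mul_sub, Finset.mul_sum, ← mul_assoc, one_div, inv_mul_cancel₀ hP0.ne', one_mul]
    have e4 : ∀ x, r x / P * nsq (χ x) * Real.log (r x / P) =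
        P⁻¹ * (r x * nsq (χ x) * Real.log (r x)) - (r x * nsq (χ x)) * (P⁻¹ * Real.log P) := by
      intro x
      by_cases hx : r x = 0
      · rw [hx]; simp
      · rw [Real.log_div hx hP0.ne']; ring
    rw [Finset.sum_congr rfl fun x _ => e4 x, Finset.sum_sub_distrib, ← Finset.sum_mul, hP,
      ← mul_assoc, mul_inv_cancel₀ hP0.ne', one_mul]
  rw [hent] at hG
  -- conclusion
  have hfin : - (β * (V * (1 / P * ∑ k, r k * rhs q μ θ J c (χ k)))) -
      (V / 2 ^ (d * j)) * (1 / P * (∑ k, r k * nsq (χ k) * Real.log (r k) - P * Real.log P)) ≤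
      Real.log (∑ m, Real.exp (-(β * E m))) := by
    refine le_trans ?_ hG
    have := mul_le_mul_of_nonneg_left hen hβ.le
    linarith
  have hPV : 0 < P / V := by positivity
  have h5 := mul_le_mul_of_nonneg_left hfin hPV.le
  refine le_trans (le_of_eq ?_) (h5.trans (le_of_eq ?_))
  · field_simp
  · field_simp

end Pool.Agent.TH268.TB
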